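import Pool.Agent.Helper42.SA.Gr

/-!
# Piece SA-E1: the sheets `sh`: smoothness and a uniform bound for the determinant of the derivative

`det A = (A 1).re * (A I).im - (A 1).im * (A I).re` for `A : ℂ →L[ℝ] ℂ`, so `|det A| ≤ ‖A 1‖ ‖A I‖ ≤ ‖A‖²`.
`sh a b i` is bilinear in `u = s (x.re - a)`, `w = s (x.im - b)`; its two partial derivatives have norm at most
`S D`, `S` a bound for `|s'|` (`s` is locally constant off `[0, 1]`) and `D` a bound for the norms of the differences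
of the corner values (periodic, hence finitely many).
-/

open Complex
open scoped ContDiff

namespace Pool.Agent.Helper42.SA

variable {s η : ℝ → ℝ} {δ : ℝ} {n : ℕ} {G : Grid n}

lemma det_eq (A : ℂ →L[ℝ] ℂ) : A.det = (A 1).re * (A I).im - (A 1).im * (A I).re := by
  have h : A.det = LinearMap.det (A : ℂ →ₗ[ℝ] ℂ) := rfl
  rw [h, ← LinearMap.det_toMatrix Complex.basisOneI, Matrix.det_fin_two]
  simp [LinearMap.toMatrix_apply, Complex.coe_basisOneI_repr, Complex.coe_basisOneI]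
  ring

lemma det_ge (A : ℂ →L[ℝ] ℂ) : -‖A‖ ^ 2 ≤ A.det := by
  rw [det_eq]
  have h1 : ‖A 1‖ ≤ ‖A‖ := by simpa using A.le_opNorm 1
  have hI : ‖A I‖ ≤ ‖A‖ := by simpa using A.le_opNorm I
  have h2 : ((A 1).re) ^ 2 + ((A 1).im) ^ 2 ≤ ‖A‖ ^ 2 := by
    have := Complex.sq_norm (A 1)
    rw [Complex.normSq_apply] at this
    nlinarith [norm_nonneg (A 1)]
  have h3 : ((A I).re) ^ 2 + ((A I).im) ^ 2 ≤ ‖A‖ ^ 2 := by
    have := Complex.sq_norm (A I)
    rw [Complex.normSq_apply] at this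
    nlinarith [norm_nonneg (A I)]
  nlinarith [sq_nonneg ((A 1).re + (A I).im), sq_nonneg ((A 1).im - (A I).re)]

theorem sh_smooth (h : Step s η δ) (a b : ℤ) (i : Fin n) : ContDiff ℝ ∞ (G.sh s a b i) := by
  have hu : ContDiff ℝ ∞ (fun x : ℂ => s (x.re - a)) :=
    h.s_smooth.comp (Complex.reCLM.contDiff.sub contDiff_const)
  have hw : ContDiff ℝ ∞ (fun x : ℂ => s (x.im - b)) :=
    h.s_smooth.comp (Complex.imCLM.contDiff.sub contDiff_const)
  have hof : ContDiff ℝ ∞ (fun t : ℝ => (t : ℂ)) := Complex.ofRealCLM.contDiff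
  unfold Grid.sh bil
  refine ContDiff.add (ContDiff.add (ContDiff.add ?_ ?_) ?_) ?_
  · exact (hof.comp ((contDiff_const.sub hu).mul (contDiff_const.sub hw))).mul contDiff_const
  · exact (hof.comp (hu.mul (contDiff_const.sub hw))).mul contDiff_const
  · exact (hof.comp ((contDiff_const.sub hu).mul hw)).mul contDiff_const
  · exact (hof.comp (hu.mul hw)).mul contDiff_const

/-- `s` is Lipschitz -/
private lemma se1_lip (h : Step s η δ) : ∃ S : ℝ, 0 ≤ S ∧ ∀ t t' : ℝ, |s t - s t'| ≤ S * |t - t'| := by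
  have hc : HasCompactSupport (deriv s) := by
    refine HasCompactSupport.intro (isCompact_Icc (a := (0 : ℝ)) (b := 1)) ?_
    intro t ht
    rw [Set.mem_Icc, not_and_or, not_le, not_le] at ht
    rcases ht with ht | ht
    · have : s =ᶠ[nhds t] fun _ => 0 := by
        filter_upwards [Iio_mem_nhds ht] with y hy
        exact h.s_zero y (by have := h.δ_pos; rw [Set.mem_Iio] at hy; linarith)
      rw [this.deriv_eq]
      simp
    · have : s =ᶠ[nhds t] fun _ => 1 := by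
        filter_upwards [Ioi_mem_nhds ht] with y hy
        exact h.s_one y (by have := h.δ_pos; rw [Set.mem_Ioi] at hy; linarith)
      rw [this.deriv_eq]
      simp
  have hcont : Continuous (deriv s) := h.s_smooth.continuous_deriv (by simp)
  obtain ⟨S, hS⟩ := hc.exists_bound_of_continuous hcont
  refine ⟨S, (norm_nonneg _).trans (hS 0), fun t t' => ?_⟩
  have := Convex.norm_image_sub_le_of_norm_deriv_le (f := s) (s := Set.univ) (x := t') (y := t) (C := S)
    (fun x _ => (h.s_smooth.differentiable (by simp)).differentiableAt) (fun x _ => hS x) convex_univ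
    (Set.mem_univ _) (Set.mem_univ _)
  simpa [Real.norm_eq_abs] using this

/-- sum of the norms of the relevant differences of the corner values -/
private noncomputable def se1_E (G : Grid n) (a b : ℤ) (i : Fin n) : ℝ :=
  ‖gc (G.c10 a b i) - gc (G.c00 a b i)‖ + ‖gc (G.c01 a b i) - gc (G.c00 a b i)‖ +
    2 * ‖gc (G.c00 a b i) - gc (G.c10 a b i) - gc (G.c01 a b i) + gc (G.c11 a b i)‖

private lemma se1_E_nonneg (G : Grid n) (a b : ℤ) (i : Fin n) : 0 ≤ se1_E G a b i := by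
  unfold se1_E
  positivity

private lemma se1_per1 (hG : G.Valid) (a b : ℤ) (i : Fin n) : se1_E G (a + G.N1) b i = se1_E G a b i := by
  have hP := hG.per
  have e : a + (G.N1 : ℤ) + 1 = a + 1 + (G.N1 : ℤ) := by ring
  unfold se1_E Grid.c00 Grid.c10 Grid.c01 Grid.c11
  rw [e]
  simp only [hP.val1, hP.R1, hP.rs1, hP.U1, hP.us1]

private lemma se1_per2 (hG : G.Valid) (a b : ℤ) (i : Fin n) : se1_E G a (b + G.N2) i = se1_E G a b i := by
  have hP := hG.per
  have e : b + (G.N2 : ℤ) + 1 = b + 1 + (G.N2 : ℤ) := by ring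
  unfold se1_E Grid.c00 Grid.c10 Grid.c01 Grid.c11
  rw [e]
  simp only [hP.val2, hP.R2, hP.rs2, hP.U2, hP.us2]

private lemma se1_mod (hG : G.Valid) (a b : ℤ) (i : Fin n) :
    se1_E G a b i = se1_E G (a % G.N1) (b % G.N2) i := by
  have h1 : Function.Periodic (fun a => se1_E G a b i) (G.N1 : ℤ) := fun a => se1_per1 hG a b i
  have h2 : Function.Periodic (fun b => se1_E G (a % G.N1) b i) (G.N2 : ℤ) := fun b => se1_per2 hG _ b i
  have e1 := h1.int_mul (a / G.N1) (a % G.N1)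
  have e2 := h2.int_mul (b / G.N2) (b % G.N2)
  rw [Int.cast_id, mul_comm, Int.emod_add_mul_ediv] at e1
  rw [Int.cast_id, mul_comm, Int.emod_add_mul_ediv] at e2
  rw [e1, e2]

private lemma se1_bound (hG : G.Valid) : ∃ D : ℝ, 0 ≤ D ∧ ∀ a b i, se1_E G a b i ≤ D := by
  refine ⟨∑ a ∈ Finset.Ico (0 : ℤ) G.N1, ∑ b ∈ Finset.Ico (0 : ℤ) G.N2, ∑ i : Fin n, se1_E G a b i,
    Finset.sum_nonneg fun a _ => Finset.sum_nonneg fun b _ => Finset.sum_nonneg fun i _ => se1_E_nonneg G a b i,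
    fun a b i => ?_⟩
  have hN1 : (0 : ℤ) < G.N1 := by exact_mod_cast hG.hN1
  have hN2 : (0 : ℤ) < G.N2 := by exact_mod_cast hG.hN2
  rw [se1_mod hG]
  have ha : a % (G.N1 : ℤ) ∈ Finset.Ico (0 : ℤ) G.N1 :=
    Finset.mem_Ico.2 ⟨Int.emod_nonneg _ hN1.ne', Int.emod_lt_of_pos _ hN1⟩
  have hb : b % (G.N2 : ℤ) ∈ Finset.Ico (0 : ℤ) G.N2 :=
    Finset.mem_Ico.2 ⟨Int.emod_nonneg _ hN2.ne', Int.emod_lt_of_pos _ hN2⟩
  calc se1_E G (a % G.N1) (b % G.N2) i
      ≤ ∑ i : Fin n, se1_E G (a % G.N1) (b % G.N2) i :=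
        Finset.single_le_sum (f := fun i => se1_E G (a % G.N1) (b % G.N2) i)
          (fun i _ => se1_E_nonneg G _ _ i) (Finset.mem_univ i)
    _ ≤ ∑ b ∈ Finset.Ico (0 : ℤ) G.N2, ∑ i : Fin n, se1_E G (a % G.N1) b i :=
        Finset.single_le_sum (f := fun b => ∑ i : Fin n, se1_E G (a % G.N1) b i)
          (fun b _ => Finset.sum_nonneg fun i _ => se1_E_nonneg G _ _ i) hb
    _ ≤ _ :=
        Finset.single_le_sum (f := fun a => ∑ b ∈ Finset.Ico (0 : ℤ) G.N2, ∑ i : Fin n, se1_E G a b i)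
          (fun a _ => Finset.sum_nonneg fun b _ => Finset.sum_nonneg fun i _ => se1_E_nonneg G _ _ i) ha

private lemma se1_bil (u w u' w' : ℝ) (p q r t : ℂ) (hu : |u| ≤ 1) (hw' : |w'| ≤ 1) (d : ℝ)
    (h1 : |u - u'| ≤ d) (h2 : |w - w'| ≤ d) :
    ‖bil u w p q r t - bil u' w' p q r t‖ ≤ d * (‖q - p‖ + ‖r - p‖ + 2 * ‖p - q - r + t‖) := by
  have e : bil u w p q r t - bil u' w' p q r t =
      ((u - u' : ℝ) : ℂ) * (q - p) + ((w - w' : ℝ) : ℂ) * (r - p) +
        ((u * (w - w') + (u - u') * w' : ℝ) : ℂ) * (p - q - r + t) := by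
    unfold bil
    push_cast
    ring
  rw [e]
  have hd : 0 ≤ d := (abs_nonneg _).trans h1
  have h3 : |u * (w - w') + (u - u') * w'| ≤ 2 * d := by
    calc |u * (w - w') + (u - u') * w'| ≤ |u * (w - w')| + |(u - u') * w'| := abs_add_le _ _
      _ = |u| * |w - w'| + |u - u'| * |w'| := by rw [abs_mul, abs_mul]
      _ ≤ 1 * d + d * 1 := by gcongr
      _ = 2 * d := by ring
  calc _ ≤ ‖((u - u' : ℝ) : ℂ) * (q - p)‖ + ‖((w - w' : ℝ) : ℂ) * (r - p)‖ +
        ‖((u * (w - w') + (u - u') * w' : ℝ) : ℂ) * (p - q - r + t)‖ := norm_add₃_le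
    _ = |u - u'| * ‖q - p‖ + |w - w'| * ‖r - p‖ + |u * (w - w') + (u - u') * w'| * ‖p - q - r + t‖ := by
        rw [norm_mul, norm_mul, norm_mul, Complex.norm_real, Complex.norm_real, Complex.norm_real,
          Real.norm_eq_abs, Real.norm_eq_abs, Real.norm_eq_abs]
    _ ≤ d * ‖q - p‖ + d * ‖r - p‖ + (2 * d) * ‖p - q - r + t‖ := by gcongr
    _ = _ := by ring

theorem sh_det (hG : G.Valid) (h : Step s η δ) :
    ∃ B : ℝ, ∀ a b i x, -B ≤ (fderiv ℝ (G.sh s a b i) x).det := by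
  obtain ⟨S, hS0, hS⟩ := se1_lip h
  obtain ⟨D, hD0, hD⟩ := se1_bound hG
  refine ⟨(S * D) ^ 2, fun a b i x => ?_⟩
  refine le_trans ?_ (det_ge _)
  have habs : ∀ t, |s t| ≤ 1 := fun t => abs_le.2 ⟨by linarith [h.s_nonneg t], h.s_le t⟩
  have hL : LipschitzWith (Real.toNNReal (S * D)) (G.sh s a b i) := by
    refine LipschitzWith.of_dist_le_mul fun y z => ?_
    rw [Real.coe_toNNReal _ (mul_nonneg hS0 hD0), dist_eq_norm, dist_eq_norm]
    have h1 : |s (y.re - a) - s (z.re - a)| ≤ S * ‖y - z‖ := by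
      refine (hS _ _).trans (mul_le_mul_of_nonneg_left ?_ hS0)
      have : y.re - a - (z.re - a) = (y - z).re := by simp
      rw [this]
      exact Complex.abs_re_le_norm _
    have h2 : |s (y.im - b) - s (z.im - b)| ≤ S * ‖y - z‖ := by
      refine (hS _ _).trans (mul_le_mul_of_nonneg_left ?_ hS0)
      have : y.im - b - (z.im - b) = (y - z).im := by simp
      rw [this]
      exact Complex.abs_im_le_norm _
    refine (se1_bil _ _ _ _ _ _ _ _ (habs _) (habs _) _ h1 h2).trans ?_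
    have h3 := hD a b i
    unfold se1_E at h3
    calc _ ≤ S * ‖y - z‖ * D := mul_le_mul_of_nonneg_left h3 (by positivity)
      _ = S * D * ‖y - z‖ := by ring
  have hn : ‖fderiv ℝ (G.sh s a b i) x‖ ≤ S * D := by
    have := norm_fderiv_le_of_lipschitz ℝ hL (x₀ := x)
    rwa [Real.coe_toNNReal _ (mul_nonneg hS0 hD0)] at this
  have := pow_le_pow_left₀ (norm_nonneg _) hn 2
  linarith

end Pool.Agent.Helper42.SA
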