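import Pool.Agent.Helper42.SA.Wf0

/-!
# Piece SA-C2: the function `W` of a branch cell vanishes only at the centre, norm bound

`u = s t1`, `w = s t2`.  Away from the edges (`η = 0`) `W = v0² (1 - u - w) + v1² (u - w)` (`v0²`, `v1²` are linearly
independent over `ℝ`, so `W = 0` gives `u = w = 1/2`, then `Step.s_mid`).
Near the bottom edge (`t2 ≤ 2δ`, so `w = 0`): `W = (1-u) v0² + u v1² - e u (1-u) (v0 - v1)²`, `e = η t2`; with
`λ = v1 / v0` (`Re λ > 0`, `Im λ > 0`) `Im (W / v0²) = 2 u Im λ (Re λ (1 - e (1-u)) + e (1-u)) > 0` for `u > 0`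
(multiply by `conj v0 ^ 2` instead of dividing), and `W = v0²` for `u = 0`; the norm is at most `m²`, because
`W = (1-e) ((1-u) v0² + u v1²) + e ((1-u) v0 + u v1)²`.  The other three edges are the same with `(v0, v1)` replaced
by `(v1, i v0)` (right), `(i v1, -v0)` (left, `u := 1 - w`), and for the top edge `W = -(..)` with `u := 1 - u`.
Suggestion: one lemma for `E e u v0 v1 = (1-u) v0² + u v1² - e u (1-u) (v0 - v1)²`, `Quad v0 v1`, used four times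
(`Quad v1 (I * v0)`, `Quad (I * v1) (-v0)` follow from `Quad v0 v1`).
-/

open Complex
open scoped ContDiff

namespace Pool.Agent.Helper42.SA

variable {s η : ℝ → ℝ} {δ : ℝ}

/-- the edge model -/
noncomputable def Wfb_E (e u : ℝ) (a b : ℂ) : ℂ :=
  ((1 - u : ℝ) : ℂ) * a ^ 2 + (u : ℂ) * b ^ 2 - ((e * (u * (1 - u)) : ℝ) : ℂ) * (a - b) ^ 2

private theorem Wfb_E_ne {a b : ℂ} (hq : Quad a b) {e u : ℝ} (he0 : 0 ≤ e) (he1 : e ≤ 1) (hu0 : 0 ≤ u)
    (hu1 : u ≤ 1) : Wfb_E e u a b ≠ 0 := by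
  obtain ⟨a1, a2⟩ := a
  obtain ⟨b1, b2⟩ := b
  obtain ⟨hp, hq⟩ := hq
  have hp' : 0 < a1 * b1 + a2 * b2 := by
    have := hp
    simp at this
    linarith
  have hq' : 0 < a1 * b2 - a2 * b1 := by
    have := hq
    simp at this
    linarith
  have hN : 0 < a1 ^ 2 + a2 ^ 2 := by
    rcases (add_nonneg (sq_nonneg a1) (sq_nonneg a2)).eq_or_lt with h | h
    · exfalso
      have h1 : a1 = 0 := by nlinarith [sq_nonneg a1, sq_nonneg a2]
      have h2 : a2 = 0 := by nlinarith [sq_nonneg a1, sq_nonneg a2]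
      rw [h1, h2] at hp'
      linarith
    · exact h
  intro h
  have hX := congrArg Complex.re h
  have hY := congrArg Complex.im h
  simp only [Wfb_E, pow_two, Complex.sub_re, Complex.add_re, Complex.mul_re, Complex.sub_im, Complex.add_im,
    Complex.mul_im, Complex.ofReal_re, Complex.ofReal_im, Complex.zero_re, Complex.zero_im, zero_mul,
    sub_zero, add_zero] at hX hY
  have key : 2 * u * (a1 * b2 - a2 * b1) * ((a1 * b1 + a2 * b2) * (1 - e * (1 - u)) +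
      e * (1 - u) * (a1 ^ 2 + a2 ^ 2)) = 0 := by
    linear_combination (a1 ^ 2 - a2 ^ 2) * hY - 2 * a1 * a2 * hX
  rcases hu0.eq_or_lt with hu | hu
  · subst hu
    have h1 : a1 * a1 - a2 * a2 = 0 := by linarith
    have h2 : a1 * a2 + a2 * a1 = 0 := by linarith
    have h3 : (a1 ^ 2 + a2 ^ 2) ^ 2 = 0 := by
      linear_combination (a1 * a1 - a2 * a2) * h1 + (a1 * a2 + a2 * a1) * h2
    have h4 : 0 < (a1 ^ 2 + a2 ^ 2) ^ 2 := by positivity
    linarith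
  · have hx0 : 0 ≤ e * (1 - u) := mul_nonneg he0 (by linarith)
    have hx1 : e * (1 - u) ≤ 1 := by nlinarith
    have h5 : 0 < (a1 * b1 + a2 * b2) * (1 - e * (1 - u)) + e * (1 - u) * (a1 ^ 2 + a2 ^ 2) := by
      rcases hx0.eq_or_lt with hx | hx
      · rw [← hx]
        linarith
      · have h6 : 0 ≤ (a1 * b1 + a2 * b2) * (1 - e * (1 - u)) := mul_nonneg hp'.le (by linarith)
        have h7 : 0 < e * (1 - u) * (a1 ^ 2 + a2 ^ 2) := mul_pos hx hN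
        linarith
    have h8 : 0 < 2 * u * (a1 * b2 - a2 * b1) * ((a1 * b1 + a2 * b2) * (1 - e * (1 - u)) +
      e * (1 - u) * (a1 ^ 2 + a2 ^ 2)) := mul_pos (mul_pos (by linarith) hq') h5
    linarith

private theorem Wfb_conv {x y : ℂ} {m u : ℝ} (hx : ‖x‖ ≤ m) (hy : ‖y‖ ≤ m) (hu0 : 0 ≤ u) (hu1 : u ≤ 1) :
    ‖((1 - u : ℝ) : ℂ) * x + (u : ℂ) * y‖ ≤ m := by
  have h1 : ‖((1 - u : ℝ) : ℂ) * x‖ ≤ (1 - u) * m := by
    rw [norm_mul, Complex.norm_real, Real.norm_eq_abs, abs_of_nonneg (by linarith)]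
    exact mul_le_mul_of_nonneg_left hx (by linarith)
  have h2 : ‖(u : ℂ) * y‖ ≤ u * m := by
    rw [norm_mul, Complex.norm_real, Real.norm_eq_abs, abs_of_nonneg hu0]
    exact mul_le_mul_of_nonneg_left hy hu0
  have h3 := norm_add_le (((1 - u : ℝ) : ℂ) * x) ((u : ℂ) * y)
  linarith

private theorem Wfb_sq {x : ℂ} {m : ℝ} (hx : ‖x‖ ≤ m) : ‖x ^ 2‖ ≤ m ^ 2 := by
  rw [norm_pow]
  exact pow_le_pow_left₀ (norm_nonneg _) hx 2

private theorem Wfb_E_norm {a b : ℂ} {m e u : ℝ} (ha : ‖a‖ ≤ m) (hb : ‖b‖ ≤ m) (he0 : 0 ≤ e) (he1 : e ≤ 1)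
    (hu0 : 0 ≤ u) (hu1 : u ≤ 1) : ‖Wfb_E e u a b‖ ≤ m ^ 2 := by
  have e1 : Wfb_E e u a b = ((1 - e : ℝ) : ℂ) * (((1 - u : ℝ) : ℂ) * a ^ 2 + (u : ℂ) * b ^ 2) +
      (e : ℂ) * (((1 - u : ℝ) : ℂ) * a + (u : ℂ) * b) ^ 2 := by
    unfold Wfb_E
    push_cast
    ring
  rw [e1]
  exact Wfb_conv (Wfb_conv (Wfb_sq ha) (Wfb_sq hb) hu0 hu1) (Wfb_sq (Wfb_conv ha hb hu0 hu1)) he0 he1

private theorem Wfb_cases (h : Step s η δ) (v0 v1 : ℂ) (t1 t2 : ℝ) :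
    (∃ a b : ℂ, ∃ e u : ℝ, (Quad v0 v1 → Quad a b) ∧ (∀ m : ℝ, ‖v0‖ ≤ m → ‖v1‖ ≤ m → ‖a‖ ≤ m ∧ ‖b‖ ≤ m) ∧
      0 ≤ e ∧ e ≤ 1 ∧ 0 ≤ u ∧ u ≤ 1 ∧
        (Wf s η v0 v1 t1 t2 = Wfb_E e u a b ∨ Wf s η v0 v1 t1 t2 = -Wfb_E e u a b)) ∨
      Wf s η v0 v1 t1 t2 = bil (s t1) (s t2) (v0 ^ 2) (v1 ^ 2) (-v1 ^ 2) (-v0 ^ 2) := by
  have hI : (I : ℂ) ^ 2 = -1 := Complex.I_sq
  have hd := h.δ_lt
  have hd0 := h.δ_pos
  have n1 : ∀ v : ℂ, ‖I * v‖ = ‖v‖ := by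
    intro v
    rw [norm_mul, Complex.norm_I, one_mul]
  by_cases c1 : t2 < 2 * δ
  · have w0 : s t2 = 0 := h.s_zero t2 c1.le
    have z1 : η (1 - t2) = 0 := h.η_zero _ (by linarith)
    refine Or.inl ⟨v0, v1, η t2, s t1, fun x => x, fun m x y => ⟨x, y⟩, h.η_nonneg _, h.η_le _, h.s_nonneg _,
      h.s_le _, Or.inl ?_⟩
    unfold Wf Wfb_E bil
    rw [w0, z1]
    push_cast
    ring
  by_cases c2 : 1 - t2 < 2 * δ
  · have w0 : s t2 = 1 := h.s_one t2 (by linarith)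
    have z1 : η t2 = 0 := h.η_zero _ (by linarith)
    refine Or.inl ⟨v0, v1, η (1 - t2), 1 - s t1, fun x => x, fun m x y => ⟨x, y⟩, h.η_nonneg _, h.η_le _,
      by linarith [h.s_le t1], by linarith [h.s_nonneg t1], Or.inr ?_⟩
    unfold Wf Wfb_E bil
    rw [w0, z1]
    push_cast
    ring
  by_cases c3 : t1 < 2 * δ
  · have w0 : s t1 = 0 := h.s_zero t1 c3.le
    have z1 : η (1 - t1) = 0 := h.η_zero _ (by linarith)
    refine Or.inl ⟨I * v1, -v0, η t1, 1 - s t2, ?_, fun m x y => ⟨by rw [n1]; exact y, by rw [norm_neg]; exact x⟩,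
      h.η_nonneg _, h.η_le _, by linarith [h.s_le t2], by linarith [h.s_nonneg t2], Or.inl ?_⟩
    · rintro ⟨q1, q2⟩
      refine ⟨?_, ?_⟩
      · simp at q1 q2 ⊢
        linarith
      · simp at q1 q2 ⊢
        linarith
    · unfold Wf Wfb_E bil
      rw [w0, z1]
      push_cast
      linear_combination ((s t2 : ℂ) * v1 ^ 2 * (-1 : ℂ)) * hI
  by_cases c4 : 1 - t1 < 2 * δ
  · have w0 : s t1 = 1 := h.s_one t1 (by linarith)
    have z1 : η t1 = 0 := h.η_zero _ (by linarith)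
    refine Or.inl ⟨v1, I * v0, η (1 - t1), s t2, ?_, fun m x y => ⟨y, by rw [n1]; exact x⟩,
      h.η_nonneg _, h.η_le _, h.s_nonneg _, h.s_le _, Or.inl ?_⟩
    · rintro ⟨q1, q2⟩
      refine ⟨?_, ?_⟩
      · simp at q1 q2 ⊢
        linarith
      · simp at q1 q2 ⊢
        linarith
    · unfold Wf Wfb_E bil
      rw [w0, z1]
      push_cast
      linear_combination ((s t2 : ℂ) * v0 ^ 2 * (-1 : ℂ)) * hI
  right
  have z1 : η t1 = 0 := h.η_zero _ (by linarith)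
  have z2 : η t2 = 0 := h.η_zero _ (by linarith)
  have z3 : η (1 - t1) = 0 := h.η_zero _ (by linarith)
  have z4 : η (1 - t2) = 0 := h.η_zero _ (by linarith)
  unfold Wf
  rw [z1, z2, z3, z4]
  push_cast
  ring

theorem Wf_ne_zero (h : Step s η δ) {v0 v1 : ℂ} (hq : Quad v0 v1) {t1 t2 : ℝ}
    (h0 : Wf s η v0 v1 t1 t2 = 0) : t1 = 1 / 2 ∧ t2 = 1 / 2 := by
  rcases Wfb_cases h v0 v1 t1 t2 with ⟨a, b, e, u, q, _, he0, he1, hu0, hu1, hW⟩ | hW
  · exfalso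
    have h1 := Wfb_E_ne (q hq) he0 he1 hu0 hu1
    rcases hW with hW | hW
    · exact h1 (by rw [← hW, h0])
    · exact h1 (by rw [← neg_eq_zero, ← hW, h0])
  · rw [h0] at hW
    obtain ⟨a1, a2⟩ := v0
    obtain ⟨b1, b2⟩ := v1
    obtain ⟨hp, hq⟩ := hq
    have hp' : 0 < a1 * b1 + a2 * b2 := by
      have := hp
      simp at this
      linarith
    have hq' : 0 < a1 * b2 - a2 * b1 := by
      have := hq
      simp at this
      linarith
    have hN : 0 < a1 ^ 2 + a2 ^ 2 := by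
      rcases (add_nonneg (sq_nonneg a1) (sq_nonneg a2)).eq_or_lt with h | h
      · exfalso
        have h1 : a1 = 0 := by nlinarith [sq_nonneg a1, sq_nonneg a2]
        have h2 : a2 = 0 := by nlinarith [sq_nonneg a1, sq_nonneg a2]
        rw [h1, h2] at hp'
        linarith
      · exact h
    have hX := congrArg Complex.re hW
    have hY := congrArg Complex.im hW
    simp only [bil, pow_two, Complex.add_re, Complex.mul_re, Complex.add_im, Complex.neg_re, Complex.neg_im,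
      Complex.mul_im, Complex.ofReal_re, Complex.ofReal_im, Complex.zero_re, Complex.zero_im, zero_mul,
      sub_zero, add_zero] at hX hY
    have k1 : 2 * (a1 * b2 - a2 * b1) * (a1 * b1 + a2 * b2) * (s t1 - s t2) = 0 := by
      linear_combination (-(a1 ^ 2 - a2 ^ 2)) * hY + 2 * a1 * a2 * hX
    have k2 : s t1 - s t2 = 0 := by
      have : 2 * (a1 * b2 - a2 * b1) * (a1 * b1 + a2 * b2) ≠ 0 := by positivity
      exact (mul_eq_zero.1 k1).resolve_left this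
    have k3 : (a1 ^ 2 + a2 ^ 2) ^ 2 * (1 - s t1 - s t2) = 0 := by
      have k4 : s t2 = s t1 := by linarith
      rw [k4] at hX hY ⊢
      linear_combination (-(a1 ^ 2 - a2 ^ 2)) * hX - 2 * a1 * a2 * hY
    have k5 : 1 - s t1 - s t2 = 0 := by
      have : (a1 ^ 2 + a2 ^ 2) ^ 2 ≠ 0 := by positivity
      exact (mul_eq_zero.1 k3).resolve_left this
    exact ⟨h.s_mid _ (by linarith), h.s_mid _ (by linarith)⟩

theorem Wf_norm (h : Step s η δ) {v0 v1 : ℂ} {m : ℝ} (h0 : ‖v0‖ ≤ m) (h1 : ‖v1‖ ≤ m) (t1 t2 : ℝ) :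
    ‖Wf s η v0 v1 t1 t2‖ ≤ m ^ 2 := by
  rcases Wfb_cases h v0 v1 t1 t2 with ⟨a, b, e, u, _, hm, he0, he1, hu0, hu1, hW⟩ | hW
  · obtain ⟨ha, hb⟩ := hm m h0 h1
    have h2 := Wfb_E_norm ha hb he0 he1 hu0 hu1
    rcases hW with hW | hW
    · rw [hW]
      exact h2
    · rw [hW, norm_neg]
      exact h2
  · rw [hW]
    have e1 : bil (s t1) (s t2) (v0 ^ 2) (v1 ^ 2) (-v1 ^ 2) (-v0 ^ 2) =
        ((1 - s t2 : ℝ) : ℂ) * (((1 - s t1 : ℝ) : ℂ) * v0 ^ 2 + (s t1 : ℂ) * v1 ^ 2) +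
          (s t2 : ℂ) * (((1 - s t1 : ℝ) : ℂ) * (-v1 ^ 2) + (s t1 : ℂ) * (-v0 ^ 2)) := by
      unfold bil
      push_cast
      ring
    rw [e1]
    have n0 : ‖-v0 ^ 2‖ ≤ m ^ 2 := by
      rw [norm_neg]
      exact Wfb_sq h0
    have n1 : ‖-v1 ^ 2‖ ≤ m ^ 2 := by
      rw [norm_neg]
      exact Wfb_sq h1
    exact Wfb_conv (Wfb_conv (Wfb_sq h0) (Wfb_sq h1) (h.s_nonneg _) (h.s_le _))
      (Wfb_conv n1 n0 (h.s_nonneg _) (h.s_le _)) (h.s_nonneg _) (h.s_le _)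

end Pool.Agent.Helper42.SA
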