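import Pool.Agent.Helper42.SA.Edc
import Pool.Agent.Helper42.SA.Shd
import Pool.Agent.Helper42.SA.Wfb

/-!
# Piece SA-F1: branch cells off the centre

`x₀` in the branch cell, not its centre: `W(x₀) ≠ 0` (`Wf_ne_zero`, `Quad` from `re_pos`, `im_pos`), so near `x₀`
there is a smooth square root `z` of `W` (principal branch of `√(W(x)/W(x₀))` times a root of `W(x₀)`); the `n`
functions are `y0 + z` (label `p`), `y0 - z` (label `q`) and the constants `gc (c00 i)` for the other labels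
(`BrCell.const`: `sh i x = gc (c00 i)`).  Disjointness: `‖2z‖² = 4 ‖W‖ ≤ 4 max < M²` (`Wf_norm`, `small0`, `small1`), so
`2z ∈ Λ` gives `z = 0`; `far`; `disj` (with `u = w = 0`).
Determinant: `fderiv z = (fderiv W) / (2z)`.  If `x` is near the centre (`|x.re - a - 1/2| < δ`, ..) then
`W = Alin (x - c)` and `det (fderiv z) = det Alin / (4 ‖z‖²) > 0`.  Otherwise `‖fderiv z‖² = ‖fderiv W‖² / (4 ‖W‖)` is
bounded (`W` is translation invariant: function of `x - (a + b i)`; compactness of the enlarged closed cell minus the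
open square around the centre; only finitely many pairs `(v0, v1)` occur, because `br` is periodic), and
`det ≥ -‖fderiv‖²` (`det_ge`).
-/

open Complex
open scoped ContDiff

namespace Pool.Agent.Helper42.SA

variable {s η : ℝ → ℝ} {δ : ℝ} {n : ℕ} {G : Grid n}

private lemma SAf_gc_sub (p q : ℤ × ℤ) : gc (p - q) = gc p - gc q := by
  apply Complex.ext <;> simp [gc]

private lemma SAf_nsq (v : ℤ × ℤ) : ‖gc v‖ ^ 2 = (nsq v : ℝ) := by
  rw [Complex.sq_norm, Complex.normSq_apply]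
  simp only [gc, nsq]
  push_cast
  ring

private lemma SAf_quad {v0 v1 : ℤ × ℤ} (h1 : 0 < v0.1 * v1.1 + v0.2 * v1.2)
    (h2 : 0 < v0.1 * v1.2 - v0.2 * v1.1) : Quad (gc v0) (gc v1) := by
  have h1' : (0 : ℝ) < v0.1 * v1.1 + v0.2 * v1.2 := by exact_mod_cast h1
  have h2' : (0 : ℝ) < v0.1 * v1.2 - v0.2 * v1.1 := by exact_mod_cast h2
  constructor
  · simp only [gc, Complex.mul_re, Complex.conj_re, Complex.conj_im]
    linarith
  · simp only [gc, Complex.mul_im, Complex.conj_re, Complex.conj_im]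
    linarith

/-- a local smooth square root -/
private lemma SAf_root {W : ℂ → ℂ} (hW : ContDiff ℝ ∞ W) {x₀ : ℂ} (h0 : W x₀ ≠ 0) :
    ∃ V : Set ℂ, IsOpen V ∧ x₀ ∈ V ∧ ∃ z : ℂ → ℂ, ContDiffOn ℝ ∞ z V ∧ (∀ x ∈ V, z x ^ 2 = W x) ∧
      ∀ x ∈ V, z x ≠ 0 := by
  obtain ⟨r, hr⟩ := IsAlgClosed.exists_pow_nat_eq (W x₀) (n := 2) (by norm_num)
  have hr0 : r ≠ 0 := by
    rintro rfl
    exact h0 (by rw [← hr]; norm_num)
  have hg : ContDiff ℝ ∞ (fun x => W x / W x₀) := hW.div_const _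
  refine ⟨{x | W x / W x₀ ∈ Complex.slitPlane}, Complex.isOpen_slitPlane.preimage hg.continuous, ?_,
    fun x => r * Complex.exp (Complex.log (W x / W x₀) / 2), ?_, ?_, ?_⟩
  · show W x₀ / W x₀ ∈ Complex.slitPlane
    rw [div_self h0]
    exact Complex.one_mem_slitPlane
  · intro x hx
    have h1 : ContDiffAt ℝ ∞ Complex.log (W x / W x₀) :=
      (Complex.contDiffAt_log (n := ∞) hx).restrict_scalars ℝ
    have h2 : ContDiffAt ℝ ∞ (fun x => Complex.log (W x / W x₀)) x :=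
      ContDiffAt.comp (g := Complex.log) (f := fun x => W x / W x₀) x h1 hg.contDiffAt
    have h3 : ContDiffAt ℝ ∞ (fun x => Complex.exp (Complex.log (W x / W x₀) / 2)) x :=
      (h2.div_const 2).cexp
    exact (contDiffAt_const.mul h3).contDiffWithinAt
  · intro x hx
    have hne : W x / W x₀ ≠ 0 := Complex.slitPlane_ne_zero hx
    show (r * Complex.exp (Complex.log (W x / W x₀) / 2)) ^ 2 = W x
    rw [mul_pow, hr, ← Complex.exp_nat_mul]
    have e : ((2 : ℕ) : ℂ) * (Complex.log (W x / W x₀) / 2) = Complex.log (W x / W x₀) := by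
      push_cast
      ring
    rw [e, Complex.exp_log hne]
    field_simp
  · intro x _
    exact mul_ne_zero hr0 (Complex.exp_ne_zero _)

private lemma SAf_det_mul {A A' : ℂ →L[ℝ] ℂ} {c : ℂ} (h : ∀ v, A' v = c * A v) :
    A'.det = Complex.normSq c * A.det := by
  rw [det_eq, det_eq, h, h, Complex.normSq_apply]
  simp only [Complex.mul_re, Complex.mul_im]
  ring

private lemma SAf_det_neg (A : ℂ →L[ℝ] ℂ) : (-A).det = A.det := by
  rw [det_eq, det_eq]
  simp only [neg_apply, Complex.neg_re, Complex.neg_im]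
  ring

/-- the determinant of the derivative of a square root -/
private lemma SAf_det {W z : ℂ → ℂ} {V : Set ℂ} (hV : IsOpen V) (hz : ContDiffOn ℝ ∞ z V)
    (hzW : ∀ x ∈ V, z x ^ 2 = W x) (hz0 : ∀ x ∈ V, z x ≠ 0) {x : ℂ} (hx : x ∈ V) {L : ℂ →L[ℝ] ℂ}
    (hL : HasFDerivAt W L x) : (fderiv ℝ z x).det = L.det / (4 * ‖W x‖) := by
  have hd : HasFDerivAt z (fderiv ℝ z x) x :=
    ((hz.contDiffAt (hV.mem_nhds hx)).differentiableAt (by simp)).hasFDerivAt
  have h1 : HasFDerivAt W (z x • fderiv ℝ z x + z x • fderiv ℝ z x) x := by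
    refine (hd.mul hd).congr_of_eventuallyEq ?_
    filter_upwards [hV.mem_nhds hx] with y hy
    rw [← hzW y hy, pow_two]
    rfl
  have h2 : L = z x • fderiv ℝ z x + z x • fderiv ℝ z x := hL.unique h1
  have h3 : L.det = Complex.normSq (2 * z x) * (fderiv ℝ z x).det := by
    apply SAf_det_mul
    intro v
    rw [h2]
    simp only [add_apply, smul_apply, smul_eq_mul]
    ring
  have h4 : Complex.normSq (2 * z x) = 4 * ‖W x‖ := by
    rw [← hzW x hx, norm_pow, Complex.sq_norm, Complex.normSq_mul]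
    norm_num [Complex.normSq_apply]
  have h5 : 0 < Complex.normSq (2 * z x) :=
    Complex.normSq_pos.2 (mul_ne_zero two_ne_zero (hz0 x hx))
  rw [h3, ← h4]
  field_simp

private lemma SAf_bound (h : Step s η δ) {v0 v1 : ℂ} (hq : Quad v0 v1) : ∃ B : ℝ, 0 ≤ B ∧
    ∀ t : ℂ, -1 ≤ t.re → t.re ≤ 2 → -1 ≤ t.im → t.im ≤ 2 → t ≠ ⟨1 / 2, 1 / 2⟩ →
      -B ≤ (fderiv ℝ (fun x : ℂ => Wf s η v0 v1 x.re x.im) t).det / (4 * ‖Wf s η v0 v1 t.re t.im‖) := by
  have hsm : ContDiff ℝ ∞ (fun x : ℂ => Wf s η v0 v1 x.re x.im) := by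
    have := Wf_smooth h v0 v1 0 0
    simpa only [sub_zero] using this
  have hcf : Continuous (fun t => (fderiv ℝ (fun x : ℂ => Wf s η v0 v1 x.re x.im) t).det) :=
    ContinuousLinearMap.continuous_det.comp (hsm.continuous_fderiv (by simp))
  set S : Set ℂ := (Set.Icc (-1 : ℝ) 2 ×ℂ Set.Icc (-1 : ℝ) 2) ∩
    {t : ℂ | δ ≤ |t.re - 1 / 2| ∨ δ ≤ |t.im - 1 / 2|} with hS
  have hScl : IsClosed {t : ℂ | δ ≤ |t.re - 1 / 2| ∨ δ ≤ |t.im - 1 / 2|} := by
    refine IsClosed.union ?_ ?_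
    · exact isClosed_le continuous_const (Complex.continuous_re.sub continuous_const).abs
    · exact isClosed_le continuous_const (Complex.continuous_im.sub continuous_const).abs
  have hSc : IsCompact S := (isCompact_Icc.reProdIm isCompact_Icc).inter_right hScl
  have hne : ∀ t ∈ S, Wf s η v0 v1 t.re t.im ≠ 0 := by
    rintro t ⟨_, ht⟩ h0
    obtain ⟨e1, e2⟩ := Wf_ne_zero h hq h0
    have hδ := h.δ_pos
    rcases ht with ht | ht
    · rw [e1, sub_self, abs_zero] at ht
      linarith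
    · rw [e2, sub_self, abs_zero] at ht
      linarith
  have hcont : ContinuousOn (fun t : ℂ => (fderiv ℝ (fun x : ℂ => Wf s η v0 v1 x.re x.im) t).det /
      (4 * ‖Wf s η v0 v1 t.re t.im‖)) S := by
    refine ContinuousOn.div hcf.continuousOn (continuousOn_const.mul hsm.continuous.norm.continuousOn) ?_
    intro t ht
    exact mul_ne_zero four_ne_zero (norm_ne_zero_iff.2 (hne t ht))
  obtain ⟨C, hC⟩ := hSc.exists_bound_of_continuousOn hcont
  refine ⟨max C 0, le_max_right _ _, fun t h1 h2 h3 h4 h5 => ?_⟩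
  by_cases hts : δ ≤ |t.re - 1 / 2| ∨ δ ≤ |t.im - 1 / 2|
  · have h6 := hC t ⟨⟨⟨h1, h2⟩, ⟨h3, h4⟩⟩, hts⟩
    rw [Real.norm_eq_abs] at h6
    have h7 := (abs_le.1 h6).1
    have h8 := le_max_left C 0
    linarith
  · rw [not_or, not_le, not_le] at hts
    have hev : (fun x : ℂ => Wf s η v0 v1 x.re x.im) =ᶠ[nhds t]
        fun x => Alin v0 v1 (x - ⟨1 / 2, 1 / 2⟩) := by
      have o1 : IsOpen {x : ℂ | |x.re - 1 / 2| < δ} :=
        isOpen_lt (Complex.continuous_re.sub continuous_const).abs continuous_const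
      have o2 : IsOpen {x : ℂ | |x.im - 1 / 2| < δ} :=
        isOpen_lt (Complex.continuous_im.sub continuous_const).abs continuous_const
      filter_upwards [o1.mem_nhds hts.1, o2.mem_nhds hts.2] with x hx1 hx2
      rw [Wf_lin h v0 v1 hx1 hx2]
      congr 1
    have hfd : fderiv ℝ (fun x : ℂ => Wf s η v0 v1 x.re x.im) t = Alin v0 v1 := by
      rw [hev.fderiv_eq]
      exact ((Alin v0 v1).hasFDerivAt.comp t ((hasFDerivAt_id t).sub_const _)).fderiv
    rw [hfd]
    have h9 : 0 ≤ (Alin v0 v1).det / (4 * ‖Wf s η v0 v1 t.re t.im‖) :=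
      div_nonneg (Alin_det hq).le (mul_nonneg (by norm_num) (norm_nonneg _))
    have h10 := le_max_right C 0
    linarith

private lemma SAf_lat {M : ℕ} {w : ℂ} (hw : w ∈ lat M M) (h : ‖w‖ ^ 2 < (M : ℝ) ^ 2) : w = 0 := by
  obtain ⟨a, b, rfl⟩ := hw
  rw [Complex.sq_norm, Complex.normSq_apply] at h
  have h1 : ((a : ℝ) ^ 2 + (b : ℝ) ^ 2) * (M : ℝ) ^ 2 < 1 * (M : ℝ) ^ 2 := by
    calc _ = (a : ℝ) * M * ((a : ℝ) * M) + (b : ℝ) * M * ((b : ℝ) * M) := by ring
      _ < _ := by rw [one_mul]; exact h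
  have h2 : (a : ℝ) ^ 2 + (b : ℝ) ^ 2 < 1 := lt_of_mul_lt_mul_right h1 (sq_nonneg _)
  have h3 : a ^ 2 + b ^ 2 < 1 := by exact_mod_cast h2
  have ha : a = 0 := by
    by_contra hne
    have := Int.one_le_abs hne
    nlinarith [sq_abs a, sq_nonneg b]
  have hb : b = 0 := by
    by_contra hne
    have := Int.one_le_abs hne
    nlinarith [sq_abs b, sq_nonneg a]
  rw [ha, hb]
  apply Complex.ext <;> simp

private lemma SAf_mem {M : ℕ} {w : ℂ} (hw : w ∈ lat M M) : ∃ m : ℤ × ℤ, w = gc ((M : ℤ) • m) := by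
  obtain ⟨a, b, rfl⟩ := hw
  refine ⟨(a, b), ?_⟩
  apply Complex.ext
  · simp [gc, mul_comm]
  · simp [gc, mul_comm]

/-- the special values stay away from the other sheets -/
private lemma SAf_far {a b : ℤ} {d : Br n} (hB : G.BrCell a b d) {i : Fin n} (h1 : i ≠ d.p) (h2 : i ≠ d.q)
    {z : ℂ} (hz : ‖z‖ ^ 2 ≤ (nsq d.v0 : ℝ) ∨ ‖z‖ ^ 2 ≤ (nsq d.v1 : ℝ))
    (hm : gc d.y0 + z - gc (G.c00 a b i) ∈ lat G.M G.M) : False := by
  obtain ⟨m, hm⟩ := SAf_mem hm
  have e : z = gc (G.c00 a b i - d.y0 - (G.M : ℤ) • (-m)) := by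
    have e1 : gc (G.c00 a b i - d.y0 - (G.M : ℤ) • (-m)) =
        gc (G.c00 a b i) - gc d.y0 + gc ((G.M : ℤ) • m) := by
      apply Complex.ext <;> simp [gc]
    rw [e1, ← hm]
    ring
  have hf := hB.far i h1 h2 (-m)
  rw [e, SAf_nsq] at hz
  rcases hz with hz | hz
  · have : nsq (G.c00 a b i - d.y0 - (G.M : ℤ) • (-m)) ≤ nsq d.v0 := by exact_mod_cast hz
    exact absurd hf.1 (not_lt.2 this)
  · have : nsq (G.c00 a b i - d.y0 - (G.M : ℤ) • (-m)) ≤ nsq d.v1 := by exact_mod_cast hz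
    exact absurd hf.2 (not_lt.2 this)

private lemma SAf_sh {a b : ℤ} {d : Br n} (hB : G.BrCell a b d) {i : Fin n} (h1 : i ≠ d.p) (h2 : i ≠ d.q)
    (x : ℂ) : G.sh s a b i x = gc (G.c00 a b i) := by
  obtain ⟨e1, e2, e3⟩ := hB.const i h1 h2
  unfold Grid.sh bil
  rw [e1, e2, e3]
  push_cast
  ring

private lemma SAf_per (hG : G.Valid) (a b : ℤ) :
    G.br a b = G.br (a % (G.N1 : ℤ)) (b % (G.N2 : ℤ)) := by
  have h1 : Function.Periodic (fun a => G.br a b) (G.N1 : ℤ) := fun a => hG.per.br1 a b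
  have h2 : Function.Periodic (fun b => G.br (a % (G.N1 : ℤ)) b) (G.N2 : ℤ) := fun b => hG.per.br2 _ b
  have e1 := (h1.int_mul (a / (G.N1 : ℤ))) (a % (G.N1 : ℤ))
  have e2 := (h2.int_mul (b / (G.N2 : ℤ))) (b % (G.N2 : ℤ))
  simp only [Int.cast_id] at e1 e2
  rw [mul_comm (a / (G.N1 : ℤ)), Int.emod_add_mul_ediv] at e1
  rw [mul_comm (b / (G.N2 : ℤ)), Int.emod_add_mul_ediv] at e2
  rw [e1, e2]

theorem regular_bra (hG : G.Valid) (h : Step s η δ) :
    ∃ B : ℝ, ∀ K, B < K → ∀ (x₀ : ℂ) (d : Br n), G.br ⌊x₀.re⌋ ⌊x₀.im⌋ = some d →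
      x₀ ≠ ctr ⌊x₀.re⌋ ⌊x₀.im⌋ → RegularAt (lat G.M G.M) K n (G.Surf s η) x₀ := by
  classical
  -- the bounds
  have hex : ∀ v : (ℤ × ℤ) × (ℤ × ℤ), ∃ B : ℝ, 0 ≤ B ∧ (Quad (gc v.1) (gc v.2) →
      ∀ t : ℂ, -1 ≤ t.re → t.re ≤ 2 → -1 ≤ t.im → t.im ≤ 2 → t ≠ ⟨1 / 2, 1 / 2⟩ →
      -B ≤ (fderiv ℝ (fun x : ℂ => Wf s η (gc v.1) (gc v.2) x.re x.im) t).det /
        (4 * ‖Wf s η (gc v.1) (gc v.2) t.re t.im‖)) := by
    intro v
    by_cases hq : Quad (gc v.1) (gc v.2)
    · obtain ⟨B, hB, h1⟩ := SAf_bound h hq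
      exact ⟨B, hB, fun _ => h1⟩
    · exact ⟨0, le_rfl, fun hq' => absurd hq' hq⟩
  choose B0 hB0 hB1 using hex
  set Bc : ℤ → ℤ → ℝ := fun a b => match G.br a b with
    | none => 0
    | some d => B0 (d.v0, d.v1) with hBc
  have hBc0 : ∀ a b, 0 ≤ Bc a b := by
    intro a b
    rw [hBc]
    dsimp only
    cases G.br a b with
    | none => exact le_rfl
    | some d => exact hB0 _
  refine ⟨∑ a ∈ Finset.range G.N1, ∑ b ∈ Finset.range G.N2, Bc a b, fun K hK x₀ d hbr hx₀ => ?_⟩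
  generalize ha : ⌊x₀.re⌋ = a at *
  generalize hb : ⌊x₀.im⌋ = b at *
  have hBr := (hG.bra a b d hbr).1
  have hq : Quad (gc d.v0) (gc d.v1) := SAf_quad hBr.re_pos hBr.im_pos
  have hsum0 : 0 ≤ ∑ a ∈ Finset.range G.N1, ∑ b ∈ Finset.range G.N2, Bc a b :=
    Finset.sum_nonneg fun _ _ => Finset.sum_nonneg fun _ _ => hBc0 _ _
  have hBd : B0 (d.v0, d.v1) < K := by
    refine lt_of_le_of_lt ?_ hK
    have hN1 : (0 : ℤ) < G.N1 := by exact_mod_cast hG.hN1
    have hN2 : (0 : ℤ) < G.N2 := by exact_mod_cast hG.hN2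
    obtain ⟨a', ha'⟩ := Int.eq_ofNat_of_zero_le (Int.emod_nonneg a hN1.ne')
    obtain ⟨b', hb'⟩ := Int.eq_ofNat_of_zero_le (Int.emod_nonneg b hN2.ne')
    have hla : a' < G.N1 := by
      have := Int.emod_lt_of_pos a hN1
      omega
    have hlb : b' < G.N2 := by
      have := Int.emod_lt_of_pos b hN2
      omega
    have hval : Bc a' b' = B0 (d.v0, d.v1) := by
      have e := SAf_per hG a b
      rw [hbr, ha', hb'] at e
      rw [hBc]
      dsimp only
      rw [← e]
    rw [← hval]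
    exact (Finset.single_le_sum (f := fun b : ℕ => Bc a' b) (fun _ _ => hBc0 _ _)
      (Finset.mem_range.2 hlb)).trans
      (Finset.single_le_sum (f := fun a : ℕ => ∑ b ∈ Finset.range G.N2, Bc a b)
        (fun _ _ => Finset.sum_nonneg fun _ _ => hBc0 _ _) (Finset.mem_range.2 hla))
  have hK0 : 0 < K := lt_of_le_of_lt (hB0 _) hBd
  -- the cell
  have e1 := Int.floor_le x₀.re
  have e2 := Int.lt_floor_add_one x₀.re
  have e3 := Int.floor_le x₀.im
  have e4 := Int.lt_floor_add_one x₀.im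
  rw [ha] at e1 e2
  rw [hb] at e3 e4
  have hδ := h.δ_pos
  have hδ' := h.δ_lt
  have hWs : ContDiff ℝ ∞ (fun x : ℂ => Wf s η (gc d.v0) (gc d.v1) (x.re - a) (x.im - b)) :=
    Wf_smooth h _ _ _ _
  have hW0 : ∀ x : ℂ, x ≠ ctr a b → Wf s η (gc d.v0) (gc d.v1) (x.re - a) (x.im - b) ≠ 0 := by
    intro x hx h0
    obtain ⟨q1, q2⟩ := Wf_ne_zero h hq h0
    refine hx (Complex.ext ?_ ?_)
    · show x.re = (a : ℝ) + 1 / 2
      linarith
    · show x.im = (b : ℝ) + 1 / 2
      linarith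
  obtain ⟨V, hV, hxV, z, hzs, hzW, hz0⟩ := SAf_root hWs (hW0 x₀ hx₀)
  set U : Set ℂ := {x : ℂ | (a : ℝ) - δ < x.re ∧ x.re < a + 1 + δ ∧
      (b : ℝ) - δ < x.im ∧ x.im < b + 1 + δ} ∩ V with hU
  have hUo : IsOpen U := ((isOpen_lt continuous_const Complex.continuous_re).inter
      ((isOpen_lt Complex.continuous_re continuous_const).inter
        ((isOpen_lt continuous_const Complex.continuous_im).inter
          (isOpen_lt Complex.continuous_im continuous_const)))).inter hV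
  have hznorm : ∀ x ∈ V, ‖z x‖ ^ 2 ≤ (nsq d.v0 : ℝ) ∨ ‖z x‖ ^ 2 ≤ (nsq d.v1 : ℝ) := by
    intro x hx
    rw [← norm_pow, hzW x hx, ← SAf_nsq, ← SAf_nsq]
    rcases le_total ‖gc d.v0‖ ‖gc d.v1‖ with hle | hle
    · exact Or.inr (Wf_norm h hle le_rfl _ _)
    · exact Or.inl (Wf_norm h le_rfl hle _ _)
  have hdet : ∀ x ∈ U, 0 < K + (fderiv ℝ z x).det := by
    rintro x ⟨⟨q1, q2, q3, q4⟩, hxV'⟩
    have hne : x ≠ ctr a b := by
      rintro rfl
      refine hz0 _ hxV' ?_
      have h5 := hzW _ hxV'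
      have h6 : Wf s η (gc d.v0) (gc d.v1) ((ctr a b).re - a) ((ctr a b).im - b) = 0 := by
        have l1 : (ctr a b).re - (a : ℝ) = 1 / 2 := by simp [ctr]
        have l2 : (ctr a b).im - (b : ℝ) = 1 / 2 := by simp [ctr]
        rw [l1, l2, Wf_lin h _ _ (by simpa using hδ) (by simpa using hδ)]
        have l3 : (⟨1 / 2 - 1 / 2, 1 / 2 - 1 / 2⟩ : ℂ) = 0 := by
          apply Complex.ext <;> simp
        rw [l3, map_zero]
      rw [h6] at h5
      exact pow_eq_zero_iff (two_ne_zero) |>.1 h5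
    set k : ℂ := ⟨(a : ℝ), (b : ℝ)⟩ with hk
    set W0 : ℂ → ℂ := fun x : ℂ => Wf s η (gc d.v0) (gc d.v1) x.re x.im with hW0def
    have hW0s : ContDiff ℝ ∞ W0 := by
      have := Wf_smooth h (gc d.v0) (gc d.v1) 0 0
      simpa only [sub_zero] using this
    have hL : HasFDerivAt (fun x : ℂ => Wf s η (gc d.v0) (gc d.v1) (x.re - a) (x.im - b))
        (fderiv ℝ W0 (x - k)) x := by
      have h1 : HasFDerivAt W0 (fderiv ℝ W0 (x - k)) (x - k) :=
        (hW0s.differentiable (by simp) _).hasFDerivAt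
      exact h1.comp x ((hasFDerivAt_id x).sub_const k)
    rw [SAf_det hV hzs hzW hz0 hxV' hL]
    have r1 : (x - k).re = x.re - a := rfl
    have r2 : (x - k).im = x.im - b := rfl
    have h7 := hB1 (d.v0, d.v1) hq (x - k) (by rw [r1]; linarith) (by rw [r1]; linarith)
      (by rw [r2]; linarith) (by rw [r2]; linarith) (by
        intro h8
        have t1 := congrArg Complex.re h8
        have t2 := congrArg Complex.im h8
        rw [r1] at t1
        rw [r2] at t2
        refine hne (Complex.ext ?_ ?_)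
        · show x.re = (a : ℝ) + 1 / 2
          have t1' : x.re - a = 1 / 2 := t1
          linarith
        · show x.im = (b : ℝ) + 1 / 2
          have t2' : x.im - b = 1 / 2 := t2
          linarith)
    rw [r1, r2] at h7
    linarith
  set f : Fin n → ℂ → ℂ := fun i => if i = d.p then fun x => gc d.y0 + z x else
    if i = d.q then fun x => gc d.y0 - z x else fun _ => gc (G.c00 a b i) with hf
  have hfp : f d.p = fun x => gc d.y0 + z x := if_pos rfl
  have hfq : f d.q = fun x => gc d.y0 - z x := by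
    rw [hf]
    dsimp only
    rw [if_neg (Ne.symm hBr.pq), if_pos rfl]
  have hfi : ∀ i, i ≠ d.p → i ≠ d.q → f i = fun _ => gc (G.c00 a b i) := by
    intro i h1 h2
    rw [hf]
    dsimp only
    rw [if_neg h1, if_neg h2]
  have hUV : U ⊆ V := Set.inter_subset_right
  have hzU : ContDiffOn ℝ ∞ z U := hzs.mono hUV
  -- disjointness of two sheets
  have hpq : ∀ x ∈ V, ∀ w : ℂ, (w = z x ∨ w = -z x) → 2 * w ∉ lat G.M G.M := by
    intro x hx w hw hm
    have hw2 : ‖w‖ = ‖z x‖ := by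
      rcases hw with rfl | rfl
      · rfl
      · exact norm_neg _
    have h0 : 2 * w = 0 := by
      refine SAf_lat hm ?_
      rw [norm_mul, mul_pow, hw2]
      have s0 : (4 : ℝ) * nsq d.v0 < (G.M : ℝ) ^ 2 := by exact_mod_cast hBr.small0
      have s1 : (4 : ℝ) * nsq d.v1 < (G.M : ℝ) ^ 2 := by exact_mod_cast hBr.small1
      have n2 : ‖(2 : ℂ)‖ ^ 2 = 4 := by norm_num
      rw [n2]
      rcases hznorm x hx with h9 | h9
      · linarith
      · linarith
    have h1 : w = 0 := by simpa using h0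
    rw [h1, norm_zero] at hw2
    exact hz0 x hx (norm_eq_zero.1 hw2.symm)
  refine ⟨U, hUo, ⟨⟨by linarith, by linarith, by linarith, by linarith⟩, hxV⟩, f, ⟨?_, ?_, ?_⟩, ?_⟩
  · intro i
    by_cases h1 : i = d.p
    · rw [h1, hfp]
      exact contDiffOn_const.add hzU
    · by_cases h2 : i = d.q
      · rw [h2, hfq]
        exact contDiffOn_const.sub hzU
      · rw [hfi i h1 h2]
        exact contDiffOn_const
  · intro i x hx
    by_cases h1 : i = d.p
    · rw [h1, hfp, fderiv_const_add]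
      exact hdet x hx
    · by_cases h2 : i = d.q
      · rw [h2, hfq, fderiv_const_sub, SAf_det_neg]
        exact hdet x hx
      · rw [hfi i h1 h2, fderiv_fun_const]
        have : (0 : ℂ →L[ℝ] ℂ).det = 0 := by
          rw [det_eq]
          simp
        rw [Pi.zero_apply, this]
        linarith
  · intro i j x hx hm
    have hxV' := hUV hx
    by_contra hij
    have key : ∀ i j : Fin n, i ≠ j → f i x - f j x ∈ lat G.M G.M → (i = d.p ∨ i = d.q) → False := by
      intro i j hij hm hi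
      by_cases hjp : j = d.p ∨ j = d.q
      · rcases hi with rfl | rfl
        · rcases hjp with rfl | rfl
          · exact hij rfl
          · refine hpq x hxV' (z x) (Or.inl rfl) ?_
            rw [hfp, hfq] at hm
            have e : (gc d.y0 + z x) - (gc d.y0 - z x) = 2 * z x := by ring
            rw [← e]
            exact hm
        · rcases hjp with rfl | rfl
          · refine hpq x hxV' (-z x) (Or.inr rfl) ?_
            rw [hfp, hfq] at hm
            have e : (gc d.y0 - z x) - (gc d.y0 + z x) = 2 * -z x := by ring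
            rw [← e]
            exact hm
          · exact hij rfl
      · rw [not_or] at hjp
        rw [hfi j hjp.1 hjp.2] at hm
        rcases hi with rfl | rfl
        · rw [hfp] at hm
          exact SAf_far hBr hjp.1 hjp.2 (hznorm x hxV') hm
        · rw [hfq] at hm
          refine SAf_far hBr hjp.1 hjp.2 (z := -z x) ?_ ?_
          · rw [norm_neg]
            exact hznorm x hxV'
          · rw [← sub_eq_add_neg]
            exact hm
    by_cases hi : i = d.p ∨ i = d.q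
    · exact key i j hij hm hi
    · by_cases hj : j = d.p ∨ j = d.q
      · refine key j i (Ne.symm hij) ?_ hj
        rw [← neg_sub]
        exact neg_mem hm
      · rw [not_or] at hi hj
        rw [hfi i hi.1 hi.2, hfi j hj.1 hj.2] at hm
        refine hBr.disj i j hi.1 hi.2 hj.1 hj.2 hij 0 0 le_rfl zero_le_one le_rfl zero_le_one ?_
        have e : bil 0 0 (gc (G.c00 a b i - G.c00 a b j)) (gc (G.c10 a b i - G.c10 a b j))
            (gc (G.c01 a b i - G.c01 a b j)) (gc (G.c11 a b i - G.c11 a b j)) =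
            gc (G.c00 a b i) - gc (G.c00 a b j) := by
          rw [← SAf_gc_sub]
          simp [bil]
        rw [e]
        exact hm
  · rintro x ⟨⟨q1, q2, q3, q4⟩, hxV'⟩ y
    rw [surf_iff hG h a b x y q1 q2 q3 q4]
    unfold Grid.Fib
    rw [hbr]
    dsimp only
    constructor
    · rintro (⟨w, hw, hy⟩ | ⟨i, h1, h2, hy⟩)
      · rw [← hzW x hxV'] at hw
        rcases sq_eq_sq_iff_eq_or_eq_neg.mp hw with rfl | rfl
        · exact ⟨d.p, by rw [hfp]; exact hy⟩
        · exact ⟨d.q, by rw [hfq]; exact hy⟩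
      · refine ⟨i, ?_⟩
        rw [hfi i h1 h2]
        rw [SAf_sh hBr h1 h2] at hy
        exact hy
    · rintro ⟨i, hy⟩
      by_cases h1 : i = d.p
      · rw [h1, hfp] at hy
        exact Or.inl ⟨z x, hzW x hxV', hy⟩
      · by_cases h2 : i = d.q
        · rw [h2, hfq] at hy
          exact Or.inl ⟨-z x, by rw [neg_sq]; exact hzW x hxV', hy⟩
        · rw [hfi i h1 h2] at hy
          refine Or.inr ⟨i, h1, h2, ?_⟩
          rw [SAf_sh hBr h1 h2]
          exact hy

end Pool.Agent.Helper42.SA
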