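import Pool.Agent.Helper42.SA.Edc
import Pool.Agent.Helper42.SA.Shd
import Pool.Agent.Helper42.SA.Wfb

/-!
# Piece SA-F2: the centre of a branch cell

`U` = the points with `|x.re - a - 1/2| < δ`, `|x.im - b - 1/2| < δ`; there `W = Alin (x - c)` (`Wf_lin`), `A = Alin`,
`Alin_det`; the other `n - 2` sheets are constants (`BrCell.const`: `sh i x = gc (c00 i)`), enumerate the complement of
`{p, q}` by `Fin (n - 2)`.  `z² = W`, `‖2z‖² = 4 ‖W‖ ≤ 4 max < M²` (`Wf_norm`), `far`, `disj` (with `u = w = 0`).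
-/

open Complex
open scoped ContDiff

namespace Pool.Agent.Helper42.SA

variable {s η : ℝ → ℝ} {δ : ℝ} {n : ℕ} {G : Grid n}

private lemma brb_gc_add (p q : ℤ × ℤ) : gc (p + q) = gc p + gc q := by
  apply Complex.ext <;> simp [gc]

private lemma brb_gc_sub (p q : ℤ × ℤ) : gc (p - q) = gc p - gc q := by
  apply Complex.ext <;> simp [gc]

private lemma brb_norm_sq (z : ℂ) : ‖z‖ ^ 2 = z.re ^ 2 + z.im ^ 2 := by
  rw [← Complex.normSq_eq_norm_sq, Complex.normSq_apply]; ring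

private lemma brb_norm_gc (p : ℤ × ℤ) : ‖gc p‖ ^ 2 = (nsq p : ℝ) := by
  rw [brb_norm_sq]; simp [gc, nsq]

private lemma brb_bil_const (u w : ℝ) (c : ℂ) : bil u w c c c c = c := by
  simp only [bil]; push_cast; ring

private lemma brb_quad {a b : ℤ} {d : Br n} (hd : G.BrCell a b d) : Quad (gc d.v0) (gc d.v1) := by
  have h1 := hd.re_pos
  have h2 := hd.im_pos
  constructor
  · have : ((starRingEnd ℂ (gc d.v0)) * gc d.v1).re = ((d.v0.1 * d.v1.1 + d.v0.2 * d.v1.2 : ℤ) : ℝ) := by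
      simp [gc]
    rw [this]
    exact_mod_cast h1
  · have : ((starRingEnd ℂ (gc d.v0)) * gc d.v1).im = ((d.v0.1 * d.v1.2 - d.v0.2 * d.v1.1 : ℤ) : ℝ) := by
      simp [gc]; ring
    rw [this]
    exact_mod_cast h2

/-- a nonzero lattice vector has norm at least `M` -/
private lemma brb_lat_norm {M : ℕ} {z : ℂ} (hz : z ∈ lat M M) (h : ‖z‖ ^ 2 < (M : ℝ) ^ 2) : z = 0 := by
  obtain ⟨k, l, rfl⟩ := hz
  rw [brb_norm_sq] at h
  simp only at h
  have hkl : (k ^ 2 + l ^ 2) * (M : ℤ) ^ 2 < 1 * (M : ℤ) ^ 2 := by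
    have : (((k ^ 2 + l ^ 2) * (M : ℤ) ^ 2 : ℤ) : ℝ) < ((1 * (M : ℤ) ^ 2 : ℤ) : ℝ) := by
      push_cast; nlinarith [h]
    exact_mod_cast this
  have h1 : k ^ 2 + l ^ 2 < 1 := lt_of_mul_lt_mul_right hkl (by positivity)
  have hk : k = 0 := by nlinarith [sq_nonneg k, sq_nonneg l, sq_nonneg (k - 1), sq_nonneg (k + 1)]
  have hl : l = 0 := by
    subst hk
    by_contra h0
    have : 0 < l ^ 2 := by positivity
    omega
  subst hk; subst hl
  apply Complex.ext <;> simp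

theorem branchAt (hG : G.Valid) (h : Step s η δ) {K : ℝ} (hK : 0 < K) {a b : ℤ} {d : Br n}
    (h1 : G.br a b = some d) : BranchAt (lat G.M G.M) K n (G.Surf s η) (ctr a b) := by
  obtain ⟨hd, -⟩ := hG.bra a b d h1
  have hδ := h.δ_pos
  have hδ' := h.δ_lt
  -- the complement of the two labels
  have hcard : Fintype.card {i : Fin n // i ≠ d.p ∧ i ≠ d.q} = n - 2 := by
    have h2 : Fintype.card {i : Fin n // i ≠ d.p ∧ i ≠ d.q} = (({d.p, d.q} : Finset (Fin n))ᶜ).card := by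
      rw [Fintype.card_subtype]
      congr 1
      ext i
      simp
    rw [h2, Finset.card_compl, Finset.card_pair hd.pq, Fintype.card_fin]
  let e : Fin (n - 2) ≃ {i : Fin n // i ≠ d.p ∧ i ≠ d.q} := (Fintype.equivFinOfCardEq hcard).symm
  have hctr : ctr a b = ⟨(a : ℝ) + 1 / 2, (b : ℝ) + 1 / 2⟩ := rfl
  have hopen : IsOpen {x : ℂ | |x.re - a - 1 / 2| < δ ∧ |x.im - b - 1 / 2| < δ} := by
    have c1 : Continuous fun x : ℂ => |x.re - a - 1 / 2| := by fun_prop
    have c2 : Continuous fun x : ℂ => |x.im - b - 1 / 2| := by fun_prop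
    exact (isOpen_lt c1 continuous_const).inter (isOpen_lt c2 continuous_const)
  -- norm bound
  have hW : ∀ x : ℂ, ‖Wf s η (gc d.v0) (gc d.v1) (x.re - a) (x.im - b)‖ ≤ (max ‖gc d.v0‖ ‖gc d.v1‖) ^ 2 :=
    fun x => Wf_norm h (le_max_left _ _) (le_max_right _ _) _ _
  have hmax : ∀ R : ℝ, ‖gc d.v0‖ ^ 2 < R → ‖gc d.v1‖ ^ 2 < R → (max ‖gc d.v0‖ ‖gc d.v1‖) ^ 2 < R := by
    intro R h2 h3
    rcases max_choice ‖gc d.v0‖ ‖gc d.v1‖ with h4 | h4 <;> rw [h4] <;> assumption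
  -- the linear model
  have hlin : ∀ x : ℂ, |x.re - a - 1 / 2| < δ ∧ |x.im - b - 1 / 2| < δ →
      Wf s η (gc d.v0) (gc d.v1) (x.re - a) (x.im - b) = Alin (gc d.v0) (gc d.v1) (x - ctr a b) := by
    intro x hx
    rw [Wf_lin h _ _ hx.1 hx.2]
    congr 1
    rw [hctr]
    apply Complex.ext
    · simp; ring
    · simp; ring
  have hsh : ∀ i, i ≠ d.p → i ≠ d.q → ∀ x, G.sh s a b i x = gc (G.c00 a b i) := by
    intro i hi hi' x
    obtain ⟨e1, e2, e3⟩ := hd.const i hi hi'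
    simp only [Grid.sh]
    rw [e1, e2, e3, brb_bil_const]
  refine ⟨{x | |x.re - a - 1 / 2| < δ ∧ |x.im - b - 1 / 2| < δ}, hopen, ?_, gc d.y0,
    Alin (gc d.v0) (gc d.v1), fun j _ => gc (G.c00 a b (e j).1), Alin_det (brb_quad hd), ?_, ?_, ?_⟩
  · rw [hctr]
    change |(a : ℝ) + 1 / 2 - a - 1 / 2| < δ ∧ |(b : ℝ) + 1 / 2 - b - 1 / 2| < δ
    constructor
    · have : (a : ℝ) + 1 / 2 - a - 1 / 2 = 0 := by ring
      rw [this, abs_zero]; exact hδ
    · have : (b : ℝ) + 1 / 2 - b - 1 / 2 = 0 := by ring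
      rw [this, abs_zero]; exact hδ
  · constructor
    · intro j
      exact contDiffOn_const
    · intro j x hx
      have h0 : fderiv ℝ (fun _ : ℂ => gc (G.c00 a b (e j).1)) x = 0 := by simp
      rw [h0, det_eq]
      simpa using hK
    · intro j k x hx hm
      by_contra hne
      have hne' : (e j).1 ≠ (e k).1 := by
        intro h2
        exact hne (e.injective (Subtype.ext h2))
      have hD := hd.disj (e j).1 (e k).1 (e j).2.1 (e j).2.2 (e k).2.1 (e k).2.2 hne'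
      apply hD 0 0 le_rfl zero_le_one le_rfl zero_le_one
      have hb : bil 0 0 (gc (G.c00 a b (e j).1 - G.c00 a b (e k).1)) (gc (G.c10 a b (e j).1 - G.c10 a b (e k).1))
          (gc (G.c01 a b (e j).1 - G.c01 a b (e k).1)) (gc (G.c11 a b (e j).1 - G.c11 a b (e k).1)) =
          gc (G.c00 a b (e j).1) - gc (G.c00 a b (e k).1) := by
        rw [← brb_gc_sub]
        simp [bil]
      rw [hb]
      exact hm
  · intro x hx z hz
    rw [← hlin x hx] at hz
    have hz2 : ‖z‖ ^ 2 ≤ (max ‖gc d.v0‖ ‖gc d.v1‖) ^ 2 := by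
      rw [← norm_pow, hz]
      exact hW x
    constructor
    · intro h2
      have h3 : ‖2 * z‖ ^ 2 < (G.M : ℝ) ^ 2 := by
        rw [norm_mul, mul_pow]
        have h4 : (max ‖gc d.v0‖ ‖gc d.v1‖) ^ 2 < (G.M : ℝ) ^ 2 / 4 := by
          apply hmax
          · rw [brb_norm_gc]
            have := hd.small0
            have h5 : ((4 * nsq d.v0 : ℤ) : ℝ) < (((G.M : ℤ) ^ 2 : ℤ) : ℝ) := by exact_mod_cast this
            push_cast at h5
            linarith
          · rw [brb_norm_gc]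
            have := hd.small1
            have h5 : ((4 * nsq d.v1 : ℤ) : ℝ) < (((G.M : ℤ) ^ 2 : ℤ) : ℝ) := by exact_mod_cast this
            push_cast at h5
            linarith
        have h6 : ‖(2 : ℂ)‖ = 2 := by simp
        rw [h6]
        nlinarith
      have h4 := brb_lat_norm h2 h3
      simpa using h4
    · intro j h2
      obtain ⟨k, l, hkl⟩ := h2
      have hj := hd.far (e j).1 (e j).2.1 (e j).2.2 (-k, -l)
      have hzz : z = gc (G.c00 a b (e j).1 - d.y0 - (G.M : ℤ) • ((-k, -l) : ℤ × ℤ)) := by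
        have h3 : z = gc (G.c00 a b (e j).1) - gc d.y0 + ⟨(k : ℝ) * G.M, (l : ℝ) * G.M⟩ := by
          rw [← hkl]; ring
        rw [h3, brb_gc_sub, brb_gc_sub]
        apply Complex.ext
        · simp [gc]; ring
        · simp [gc]; ring
      have h4 : ‖z‖ ^ 2 = (nsq (G.c00 a b (e j).1 - d.y0 - (G.M : ℤ) • ((-k, -l) : ℤ × ℤ)) : ℝ) := by
        rw [hzz, brb_norm_gc]
      have h5 : (max ‖gc d.v0‖ ‖gc d.v1‖) ^ 2 <
          (nsq (G.c00 a b (e j).1 - d.y0 - (G.M : ℤ) • ((-k, -l) : ℤ × ℤ)) : ℝ) := by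
        apply hmax
        · rw [brb_norm_gc]; exact_mod_cast hj.1
        · rw [brb_norm_gc]; exact_mod_cast hj.2
      rw [h4] at hz2
      exact absurd hz2 (not_le.mpr h5)
  · intro x hx y
    have hx' : |x.re - a - 1 / 2| < δ ∧ |x.im - b - 1 / 2| < δ := hx
    have ha := abs_lt.mp hx'.1
    have hb := abs_lt.mp hx'.2
    rw [surf_iff hG h a b x y (by linarith [ha.1]) (by linarith [ha.2]) (by linarith [hb.1]) (by linarith [hb.2])]
    have hF : G.Fib s η a b x y ↔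
        (∃ z, z ^ 2 = Wf s η (gc d.v0) (gc d.v1) (x.re - a) (x.im - b) ∧
        y - (gc d.y0 + z) ∈ lat G.M G.M) ∨
      ∃ i, i ≠ d.p ∧ i ≠ d.q ∧ y - G.sh s a b i x ∈ lat G.M G.M := by
      simp only [Grid.Fib, h1]
    rw [hF, hlin x hx']
    apply or_congr Iff.rfl
    constructor
    · rintro ⟨i, hi, hi', hm⟩
      refine ⟨e.symm ⟨i, hi, hi'⟩, ?_⟩
      rw [hsh i hi hi' x] at hm
      simpa using hm
    · rintro ⟨j, hm⟩
      refine ⟨(e j).1, (e j).2.1, (e j).2.2, ?_⟩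
      rw [hsh _ (e j).2.1 (e j).2.2 x]
      exact hm

end Pool.Agent.Helper42.SA
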