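import Pool.Agent.Helper42.SA.Edc

/-!
# Piece SA-H: paths along the grid

`step` moves a strand along an edge; `walk` along a word (`true` = right, `false` = up).  If for every strand `j`
over the vertex `(0, 0)` there is a word which carries the strand `i₀` over `(0, 0)` to the strand `j` over a vertex
congruent to `(0, 0)`, then any two points of the surface over `0` are joined modulo the lattices by a path over the
grid lines (`EdgeH`, `EdgeV`: over an edge the strand `i` is the linear interpolation, `fib_bot`, `fib_left`,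
`surf_iff`).  Reverse a path: `γ (1 - t)` and a translation (`surf_periodic`); concatenate two paths.
Over the grid lines `x.re` or `x.im` is an integer.
-/

open Complex
open scoped ContDiff

namespace Pool.Agent.Helper42.SA

variable {s η : ℝ → ℝ} {δ : ℝ} {n : ℕ} {G : Grid n}

namespace Grid

/-- a state: vertex and strand -/
def walk (G : Grid n) : List Bool → ℤ × ℤ × Fin n → ℤ × ℤ × Fin n
  | [], v => v
  | true :: l, (a, b, i) => walk G l (a + 1, b, G.R a b i)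
  | false :: l, (a, b, i) => walk G l (a, b + 1, G.U a b i)

/-- the words in `w` connect the strand `i₀` over `(0, 0)` to all strands over `(0, 0)` -/
def Conn (G : Grid n) (i₀ : Fin n) (w : Fin n → List Bool) : Prop :=
  ∀ j, (G.N1 : ℤ) ∣ (G.walk (w j) (0, 0, i₀)).1 ∧ (G.N2 : ℤ) ∣ (G.walk (w j) (0, 0, i₀)).2.1 ∧
    (G.walk (w j) (0, 0, i₀)).2.2 = j

end Grid

private lemma SAH_gc_add (p q : ℤ × ℤ) : gc (p + q) = gc p + gc q := by
  apply Complex.ext <;> simp [gc]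

private lemma SAH_gc_mem (M : ℕ) (r : ℤ × ℤ) : gc ((M : ℤ) • r) ∈ lat M M := by
  refine ⟨r.1, r.2, ?_⟩
  apply Complex.ext <;> simp [gc, mul_comm]

/-- the part of the surface over the grid lines -/
private def SAH_T (G : Grid n) (s η : ℝ → ℝ) : Set (ℂ × ℂ) :=
  {z | z ∈ G.Surf s η ∧ ((∃ a : ℤ, z.1.re = a) ∨ ∃ b : ℤ, z.1.im = b)}

private lemma SAH_right (hG : G.Valid) (h : Step s η δ) (a b : ℤ) (i : Fin n) {m : ℂ}
    (hm : m ∈ lat G.M G.M) :
    JoinedIn (SAH_T G s η) (⟨(a : ℝ), (b : ℝ)⟩, gc (G.c00 a b i) + m)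
      (⟨((a + 1 : ℤ) : ℝ), (b : ℝ)⟩, gc (G.c10 a b i) + m) := by
  have hs : Continuous s := h.s_smooth.continuous
  have h0 : s 0 = 0 := h.s_zero 0 (by linarith [h.δ_pos])
  have h1 : s 1 = 1 := h.s_one 1 (by linarith [h.δ_pos])
  have hd := h.δ_pos
  refine JoinedIn.ofLine (f := fun t : ℝ => (((⟨(a : ℝ) + t, (b : ℝ)⟩ : ℂ)),
    ((1 - s t : ℝ) : ℂ) * gc (G.c00 a b i) + ((s t : ℝ) : ℂ) * gc (G.c10 a b i) + m)) ?_ ?_ ?_ ?_
  · refine Continuous.continuousOn ?_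
    have e : (fun t : ℝ => (⟨(a : ℝ) + t, (b : ℝ)⟩ : ℂ)) =
        fun t : ℝ => (((a : ℝ) + t : ℝ) : ℂ) + ((b : ℝ) : ℂ) * I := by
      funext t
      apply Complex.ext <;> simp
    refine Continuous.prodMk ?_ ?_
    · rw [e]
      fun_prop
    · fun_prop
  · simp [h0]
  · simp [h1]
  · rintro _ ⟨t, ht, rfl⟩
    refine ⟨?_, Or.inr ⟨b, rfl⟩⟩
    obtain ⟨ht0, ht1⟩ := ht
    change (_, _) ∈ G.Surf s η
    rw [surf_iff hG h a b _ _ (by simp only; linarith) (by simp only; linarith) (by simp only; linarith)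
      (by simp only; linarith), fib_bot hG h a b _ _ (by simp only; linarith)]
    refine ⟨i, ?_⟩
    simp only [add_sub_cancel_left]
    exact hm

private lemma SAH_up (hG : G.Valid) (h : Step s η δ) (a b : ℤ) (i : Fin n) {m : ℂ}
    (hm : m ∈ lat G.M G.M) :
    JoinedIn (SAH_T G s η) (⟨(a : ℝ), (b : ℝ)⟩, gc (G.c00 a b i) + m)
      (⟨(a : ℝ), ((b + 1 : ℤ) : ℝ)⟩, gc (G.c01 a b i) + m) := by
  have hs : Continuous s := h.s_smooth.continuous
  have h0 : s 0 = 0 := h.s_zero 0 (by linarith [h.δ_pos])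
  have h1 : s 1 = 1 := h.s_one 1 (by linarith [h.δ_pos])
  have hd := h.δ_pos
  refine JoinedIn.ofLine (f := fun t : ℝ => (((⟨(a : ℝ), (b : ℝ) + t⟩ : ℂ)),
    ((1 - s t : ℝ) : ℂ) * gc (G.c00 a b i) + ((s t : ℝ) : ℂ) * gc (G.c01 a b i) + m)) ?_ ?_ ?_ ?_
  · refine Continuous.continuousOn ?_
    have e : (fun t : ℝ => (⟨(a : ℝ), (b : ℝ) + t⟩ : ℂ)) =
        fun t : ℝ => ((a : ℝ) : ℂ) + (((b : ℝ) + t : ℝ) : ℂ) * I := by
      funext t
      apply Complex.ext <;> simp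
    refine Continuous.prodMk ?_ ?_
    · rw [e]
      fun_prop
    · fun_prop
  · simp [h0]
  · simp [h1]
  · rintro _ ⟨t, ht, rfl⟩
    refine ⟨?_, Or.inl ⟨a, rfl⟩⟩
    obtain ⟨ht0, ht1⟩ := ht
    change (_, _) ∈ G.Surf s η
    rw [surf_iff hG h a b _ _ (by simp only; linarith) (by simp only; linarith) (by simp only; linarith)
      (by simp only; linarith), fib_left hG h a b _ _ (by simp only; linarith)]
    refine ⟨i, ?_⟩
    simp only [add_sub_cancel_left]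
    exact hm

private lemma SAH_start (hG : G.Valid) (h : Step s η δ) (a b : ℤ) (i : Fin n) {m : ℂ}
    (hm : m ∈ lat G.M G.M) : ((⟨(a : ℝ), (b : ℝ)⟩ : ℂ), gc (G.val a b i) + m) ∈ SAH_T G s η :=
  (SAH_right hG h a b i hm).source_mem

private lemma SAH_walk (hG : G.Valid) (h : Step s η δ) (l : List Bool) (a b : ℤ) (i : Fin n) {m : ℂ}
    (hm : m ∈ lat G.M G.M) : ∃ m' ∈ lat G.M G.M,
    JoinedIn (SAH_T G s η) (⟨(a : ℝ), (b : ℝ)⟩, gc (G.val a b i) + m)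
      (⟨((G.walk l (a, b, i)).1 : ℝ), ((G.walk l (a, b, i)).2.1 : ℝ)⟩,
        gc (G.val (G.walk l (a, b, i)).1 (G.walk l (a, b, i)).2.1 (G.walk l (a, b, i)).2.2) + m') := by
  induction l generalizing a b i m with
  | nil => exact ⟨m, hm, JoinedIn.refl (SAH_start hG h a b i hm)⟩
  | cons c l ih =>
    cases c with
    | true =>
      obtain ⟨m', hm', hj⟩ := ih (a + 1) b (G.R a b i)
        (m := gc ((G.M : ℤ) • G.rs a b i) + m) (add_mem (SAH_gc_mem _ _) hm)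
      refine ⟨m', hm', (SAH_right hG h a b i hm).trans ?_⟩
      rw [← add_assoc, ← SAH_gc_add] at hj
      exact hj
    | false =>
      obtain ⟨m', hm', hj⟩ := ih a (b + 1) (G.U a b i)
        (m := gc ((G.M : ℤ) • G.us a b i) + m) (add_mem (SAH_gc_mem _ _) hm)
      refine ⟨m', hm', (SAH_up hG h a b i hm).trans ?_⟩
      rw [← add_assoc, ← SAH_gc_add] at hj
      exact hj

private lemma SAH_val (hG : G.Valid) {a b : ℤ} (ha : (G.N1 : ℤ) ∣ a) (hb : (G.N2 : ℤ) ∣ b) :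
    G.val a b = G.val 0 0 := by
  obtain ⟨k, rfl⟩ := ha
  obtain ⟨l, rfl⟩ := hb
  have h1 : ∀ b : ℤ, Function.Periodic (fun a : ℤ => G.val a b) (G.N1 : ℤ) :=
    fun b a => hG.per.val1 a b
  have h2 : ∀ a : ℤ, Function.Periodic (fun b : ℤ => G.val a b) (G.N2 : ℤ) :=
    fun a b => hG.per.val2 a b
  have h3 := (h1 ((G.N2 : ℤ) * l)).int_mul k 0
  have h4 := (h2 0).int_mul l 0
  simp only [zero_add, Int.cast_id] at h3 h4
  rw [mul_comm (G.N1 : ℤ) k, h3, mul_comm, h4]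

private lemma SAH_fibre (hG : G.Valid) (h : Step s η δ) {y : ℂ} (hy : (0, y) ∈ G.Surf s η) :
    ∃ i, ∃ m ∈ lat G.M G.M, y = gc (G.val 0 0 i) + m := by
  have hd := h.δ_pos
  have h0 : s 0 = 0 := h.s_zero 0 (by linarith)
  rw [surf_iff hG h 0 0 0 y (by simp; linarith) (by simp; linarith) (by simp; linarith)
    (by simp; linarith), fib_bot hG h 0 0 0 y (by simp; linarith)] at hy
  obtain ⟨i, hi⟩ := hy
  refine ⟨i, y - gc (G.val 0 0 i), ?_, by ring⟩
  simpa [h0, Grid.c00] using hi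

private lemma SAH_T_shift (hG : G.Valid) (h : Step s η δ) {z : ℂ × ℂ} (hz : z ∈ SAH_T G s η)
    {p q : ℤ} (hp : (G.N1 : ℤ) ∣ p) (hq : (G.N2 : ℤ) ∣ q) {m : ℂ} (hm : m ∈ lat G.M G.M) :
    (z.1 - ⟨(p : ℝ), (q : ℝ)⟩, z.2 + m) ∈ SAH_T G s η := by
  obtain ⟨h1, h2⟩ := hz
  obtain ⟨k, rfl⟩ := hp
  obtain ⟨l, rfl⟩ := hq
  refine ⟨?_, ?_⟩
  · have h3 : (-⟨(((G.N1 : ℤ) * k : ℤ) : ℝ), (((G.N2 : ℤ) * l : ℤ) : ℝ)⟩ : ℂ) ∈ lat G.N1 G.N2 := by
      refine neg_mem ⟨k, l, ?_⟩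
      apply Complex.ext <;> simp [mul_comm]
    rw [sub_eq_add_neg]
    exact (surf_periodic hG h h3 hm z.1 z.2).2 h1
  · rcases h2 with ⟨a, ha⟩ | ⟨b, hb⟩
    · refine Or.inl ⟨a - (G.N1 : ℤ) * k, ?_⟩
      simp [ha]
    · refine Or.inr ⟨b - (G.N2 : ℤ) * l, ?_⟩
      simp [hb]

theorem connected (hG : G.Valid) (h : Step s η δ) {i₀ : Fin n} {w : Fin n → List Bool}
    (hw : G.Conn i₀ w) (y y' : ℂ) (hy : (0, y) ∈ G.Surf s η) (hy' : (0, y') ∈ G.Surf s η) :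
    ∃ γ : ℝ → ℂ × ℂ, ContinuousOn γ (Set.Icc 0 1) ∧
      (∀ t ∈ Set.Icc (0 : ℝ) 1, γ t ∈ G.Surf s η ∧
        ((∃ a : ℤ, (γ t).1.re = a) ∨ ∃ b : ℤ, (γ t).1.im = b)) ∧
      γ 0 = (0, y) ∧ (γ 1).1 ∈ lat G.N1 G.N2 ∧ (γ 1).2 - y' ∈ lat G.M G.M := by
  obtain ⟨i, m, hm, rfl⟩ := SAH_fibre hG h hy
  obtain ⟨j, m', hm', rfl⟩ := SAH_fibre hG h hy'
  obtain ⟨mi, hmi, hi⟩ := SAH_walk hG h (w i) 0 0 i₀ (zero_mem (lat G.M G.M))
  obtain ⟨mj, hmj, hj⟩ := SAH_walk hG h (w j) 0 0 i₀ (zero_mem (lat G.M G.M))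
  obtain ⟨i1, i2, i3⟩ := hw i
  obtain ⟨j1, j2, j3⟩ := hw j
  rw [SAH_val hG i1 i2, i3] at hi
  rw [SAH_val hG j1 j2, j3] at hj
  set A := (G.walk (w i) (0, 0, i₀)).1
  set B := (G.walk (w i) (0, 0, i₀)).2.1
  set A' := (G.walk (w j) (0, 0, i₀)).1
  set B' := (G.walk (w j) (0, 0, i₀)).2.1
  obtain ⟨γ, hγ⟩ := hi.symm.trans hj
  refine ⟨fun t => ((γ.extend t).1 - ⟨(A : ℝ), (B : ℝ)⟩, (γ.extend t).2 + (m - mi)), ?_, ?_, ?_, ?_, ?_⟩
  · have hc : Continuous γ.extend := γ.continuous_extend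
    exact (((continuous_fst.comp hc).sub continuous_const).prodMk
      ((continuous_snd.comp hc).add continuous_const)).continuousOn
  · intro t ht
    have h1 : γ.extend t ∈ SAH_T G s η := by
      rw [γ.extend_apply ht]
      exact hγ _
    exact SAH_T_shift hG h h1 i1 i2 (sub_mem hm hmi)
  · simp only [Path.extend_zero, sub_self, Prod.mk.injEq, true_and]
    ring
  · simp only [Path.extend_one]
    obtain ⟨a, ha⟩ := i1
    obtain ⟨b, hb⟩ := i2
    obtain ⟨a', ha'⟩ := j1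
    obtain ⟨b', hb'⟩ := j2
    refine ⟨a' - a, b' - b, ?_⟩
    rw [ha, hb, ha', hb']
    apply Complex.ext
    · simp only [Complex.sub_re]
      push_cast
      ring
    · simp only [Complex.sub_im]
      push_cast
      ring
  · simp only [Path.extend_one]
    have e : gc (G.val 0 0 j) + mj + (m - mi) - (gc (G.val 0 0 j) + m') = mj + (m - mi) - m' := by
      ring
    rw [e]
    exact sub_mem (add_mem hmj (sub_mem hm hmi)) hm'

end Pool.Agent.Helper42.SA
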