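import Pool.Agent.Helper42.SA.Edc
import Pool.Agent.Helper42.SA.Shd

/-!
# Piece SA-E2: regular cells

`x₀` lies in the floor cell `(a, b)`; `U` = the enlarged open cell `a - δ < x.re < a + 1 + δ`, ..; `f i = G.sh s a b i`;
`surf_iff`; disjointness from `Disj` with `u = s (x.re - a)`, `w = s (x.im - b)` (the difference of two `bil` is the
`bil` of the differences).
-/

open Complex
open scoped ContDiff

namespace Pool.Agent.Helper42.SA

variable {s η : ℝ → ℝ} {δ : ℝ} {n : ℕ} {G : Grid n}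

private lemma rga_gc_sub (p q : ℤ × ℤ) : gc (p - q) = gc p - gc q := by
  apply Complex.ext <;> simp [gc]

private lemma rga_sub (s : ℝ → ℝ) (a b : ℤ) (i j : Fin n) (x : ℂ) :
    G.sh s a b i x - G.sh s a b j x =
      bil (s (x.re - a)) (s (x.im - b)) (gc (G.c00 a b i - G.c00 a b j))
        (gc (G.c10 a b i - G.c10 a b j)) (gc (G.c01 a b i - G.c01 a b j))
        (gc (G.c11 a b i - G.c11 a b j)) := by
  simp only [Grid.sh, bil, rga_gc_sub]
  ring

theorem regular_reg (hG : G.Valid) (h : Step s η δ) {B K : ℝ}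
    (hB : ∀ a b i x, -B ≤ (fderiv ℝ (G.sh s a b i) x).det) (hK : B < K) {x₀ : ℂ}
    (h1 : G.br ⌊x₀.re⌋ ⌊x₀.im⌋ = none) (h2 : G.cl ⌊x₀.re⌋ ⌊x₀.im⌋ = none) :
    RegularAt (lat G.M G.M) K n (G.Surf s η) x₀ := by
  have hδ := h.δ_pos
  refine ⟨{x : ℂ | (⌊x₀.re⌋ : ℝ) - δ < x.re ∧ x.re < ⌊x₀.re⌋ + 1 + δ ∧
      (⌊x₀.im⌋ : ℝ) - δ < x.im ∧ x.im < ⌊x₀.im⌋ + 1 + δ}, ?_, ?_,
    fun i => G.sh s ⌊x₀.re⌋ ⌊x₀.im⌋ i, ⟨?_, ?_, ?_⟩, ?_⟩
  · exact (isOpen_lt continuous_const Complex.continuous_re).inter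
      ((isOpen_lt Complex.continuous_re continuous_const).inter
        ((isOpen_lt continuous_const Complex.continuous_im).inter
          (isOpen_lt Complex.continuous_im continuous_const)))
  · have e1 := Int.floor_le x₀.re
    have e2 := Int.lt_floor_add_one x₀.re
    have e3 := Int.floor_le x₀.im
    have e4 := Int.lt_floor_add_one x₀.im
    exact ⟨by linarith, by linarith, by linarith, by linarith⟩
  · exact fun i => (sh_smooth h _ _ i).contDiffOn
  · intro i x _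
    have := hB ⌊x₀.re⌋ ⌊x₀.im⌋ i x
    linarith
  · intro i j x _ hm
    by_contra hij
    refine (hG.reg _ _ h1 h2).2 i j hij (s (x.re - ⌊x₀.re⌋)) (s (x.im - ⌊x₀.im⌋))
      (h.s_nonneg _) (h.s_le _) (h.s_nonneg _) (h.s_le _) ?_
    rw [← rga_sub]
    exact hm
  · rintro x ⟨e1, e2, e3, e4⟩ y
    rw [surf_iff hG h ⌊x₀.re⌋ ⌊x₀.im⌋ x y e1 e2 e3 e4]
    unfold Grid.Fib
    rw [h1]

end Pool.Agent.Helper42.SA
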