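import Pool.Agent.Helper42.SA.Edc
import Pool.Agent.Helper42.SA.Shd

/-!
# Piece SA-E3: cluster cells

In a cluster cell `sh i x = y_c + A_i ((u - 1/2) + I (w - 1/2))` for the labels of the cluster (`u = s (x.re - a)`,
`w = s (x.im - b)`, `2 y_c = y2`), so `sh i x - sh j x ∈ Λ` has norm at most `|A_i - A_j| / √2 < M` and vanishes, hence
`u = w = 1/2`, `x` = centre (`Step.s_mid`).  Off the centre: as in a regular cell, `U` = enlarged open cell minus the
centre.  At the centre: `U` = the points with `|x.re - a - 1/2| < δ`, `|x.im - b - 1/2| < δ`, where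
`sh i x = y_c + A_i (x - c)` (`Step.s_lin`); enumerate `c.lab` by `Fin c.lab.card` and the complement by
`Fin (n - c.lab.card)` (`Finset.card_compl`).
-/

open Complex
open scoped ContDiff

namespace Pool.Agent.Helper42.SA

variable {s η : ℝ → ℝ} {δ : ℝ} {n : ℕ} {G : Grid n}

private lemma rgb_gc_sub (p q : ℤ × ℤ) : gc (p - q) = gc p - gc q := by
  apply Complex.ext <;> simp [gc]

private lemma rgb_gc_add (p q : ℤ × ℤ) : gc (p + q) = gc p + gc q := by
  apply Complex.ext <;> simp [gc]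

private lemma rgb_gc_mulI (p : ℤ × ℤ) : gc (mulI p) = I * gc p := by
  apply Complex.ext <;> simp [gc, mulI]

private lemma rgb_gc_inj {p q : ℤ × ℤ} (h : gc p = gc q) : p = q := by
  have h1 := congrArg Complex.re h
  have h2 := congrArg Complex.im h
  simp only [gc] at h1 h2
  exact Prod.ext (by exact_mod_cast h1) (by exact_mod_cast h2)

private lemma rgb_sub (s : ℝ → ℝ) (a b : ℤ) (i j : Fin n) (x : ℂ) :
    G.sh s a b i x - G.sh s a b j x =
      bil (s (x.re - a)) (s (x.im - b)) (gc (G.c00 a b i - G.c00 a b j))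
        (gc (G.c10 a b i - G.c10 a b j)) (gc (G.c01 a b i - G.c01 a b j))
        (gc (G.c11 a b i - G.c11 a b j)) := by
  simp only [Grid.sh, bil, rgb_gc_sub]
  ring

private lemma rgb_disj (h : Step s η δ) {a b : ℤ} {i j : Fin n} (hd : G.Disj a b i j) (x : ℂ) :
    G.sh s a b i x - G.sh s a b j x ∉ lat G.M G.M := by
  rw [rgb_sub]
  exact hd _ _ (h.s_nonneg _) (h.s_le _) (h.s_nonneg _) (h.s_le _)

private lemma rgb_sh {a b : ℤ} {c : Cl n} (hc : G.ClCell a b c) {i : Fin n} (hi : i ∈ c.lab) (x : ℂ) :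
    G.sh s a b i x = gc c.y2 / 2 + gc (c.A i) *
      (((s (x.re - a) - 1 / 2 : ℝ) : ℂ) + I * ((s (x.im - b) - 1 / 2 : ℝ) : ℂ)) := by
  have e2 : gc c.y2 = 2 * gc (G.c00 a b i) + gc (c.A i) + I * gc (c.A i) := by
    rw [← hc.ey i hi, rgb_gc_add, rgb_gc_add, rgb_gc_mulI, two_smul, rgb_gc_add]
    ring
  unfold Grid.sh
  rw [hc.e10 i hi, hc.e01 i hi, hc.e11 i hi, rgb_gc_add, rgb_gc_add, rgb_gc_add, rgb_gc_add,
    rgb_gc_mulI, e2]
  unfold bil
  push_cast
  ring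

private lemma rgb_lat_small {M : ℕ} {z : ℂ} (hz : z ∈ lat M M) (h : Complex.normSq z < (M : ℝ) ^ 2) :
    z = 0 := by
  obtain ⟨a, b, rfl⟩ := hz
  rw [Complex.normSq_mk] at h
  have h1 : ((a : ℝ) ^ 2 + (b : ℝ) ^ 2) * (M : ℝ) ^ 2 < 1 * (M : ℝ) ^ 2 := by
    nlinarith
  have h2 : (a : ℝ) ^ 2 + (b : ℝ) ^ 2 < 1 := lt_of_mul_lt_mul_right h1 (by positivity)
  have h3 : a ^ 2 + b ^ 2 < 1 := by exact_mod_cast h2
  have ha : a = 0 := by
    have : a ^ 2 < 1 := by nlinarith [sq_nonneg b]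
    have h5 : a ^ 2 = 0 := le_antisymm (by omega) (sq_nonneg a)
    exact pow_eq_zero_iff (two_ne_zero) |>.1 h5
  have hb : b = 0 := by
    have : b ^ 2 < 1 := by nlinarith [sq_nonneg a]
    have h5 : b ^ 2 = 0 := le_antisymm (by omega) (sq_nonneg b)
    exact pow_eq_zero_iff (two_ne_zero) |>.1 h5
  subst ha
  subst hb
  apply Complex.ext <;> simp

private lemma rgb_normSq_gc (z : ℤ × ℤ) : Complex.normSq (gc z) = (nsq z : ℝ) := by
  simp only [gc, Complex.normSq_mk, nsq]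
  push_cast
  ring

/-- two sheets of the cluster meet only over the centre -/
private lemma rgb_meet (h : Step s η δ) {a b : ℤ} {c : Cl n} (hc : G.ClCell a b c) {i j : Fin n}
    (hi : i ∈ c.lab) (hj : j ∈ c.lab) (hij : i ≠ j) {x : ℂ}
    (hm : G.sh s a b i x - G.sh s a b j x ∈ lat G.M G.M) : x = ctr a b := by
  obtain ⟨hA, hN⟩ := hc.inj i hi j hj hij
  have e1 : G.sh s a b i x - G.sh s a b j x = gc (c.A i - c.A j) *
      (((s (x.re - a) - 1 / 2 : ℝ) : ℂ) + I * ((s (x.im - b) - 1 / 2 : ℝ) : ℂ)) := by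
    rw [rgb_sh hc hi, rgb_sh hc hj, rgb_gc_sub]
    ring
  rw [e1] at hm
  set u := s (x.re - a) with hu
  set w := s (x.im - b) with hw
  have hz : Complex.normSq (((u - 1 / 2 : ℝ) : ℂ) + I * ((w - 1 / 2 : ℝ) : ℂ)) =
      (u - 1 / 2) ^ 2 + (w - 1 / 2) ^ 2 := by
    rw [mul_comm I, Complex.normSq_add_mul_I]
  have hu0 : 0 ≤ u := h.s_nonneg _
  have hu1 : u ≤ 1 := h.s_le _
  have hw0 : 0 ≤ w := h.s_nonneg _
  have hw1 : w ≤ 1 := h.s_le _
  have hle : (u - 1 / 2) ^ 2 + (w - 1 / 2) ^ 2 ≤ 1 / 2 := by nlinarith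
  have hN' : (nsq (c.A i - c.A j) : ℝ) < 2 * (G.M : ℝ) ^ 2 := by exact_mod_cast hN
  have hN0 : (0 : ℝ) ≤ (nsq (c.A i - c.A j) : ℝ) := by
    rw [← rgb_normSq_gc]
    exact Complex.normSq_nonneg _
  have hlt : Complex.normSq (gc (c.A i - c.A j) *
      (((u - 1 / 2 : ℝ) : ℂ) + I * ((w - 1 / 2 : ℝ) : ℂ))) < (G.M : ℝ) ^ 2 := by
    rw [Complex.normSq_mul, hz, rgb_normSq_gc]
    have h1 : (nsq (c.A i - c.A j) : ℝ) * ((u - 1 / 2) ^ 2 + (w - 1 / 2) ^ 2) ≤
        (nsq (c.A i - c.A j) : ℝ) * (1 / 2) := mul_le_mul_of_nonneg_left hle hN0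
    linarith
  have h0 := rgb_lat_small hm hlt
  rcases mul_eq_zero.1 h0 with h2 | h2
  · exfalso
    apply hA
    rw [rgb_gc_sub] at h2
    exact rgb_gc_inj (sub_eq_zero.1 h2)
  · have h3 : (u - 1 / 2) ^ 2 + (w - 1 / 2) ^ 2 = 0 := by rw [← hz, h2, Complex.normSq_zero]
    have h4 : u = 1 / 2 := by nlinarith [sq_nonneg (u - 1 / 2), sq_nonneg (w - 1 / 2)]
    have h5 : w = 1 / 2 := by nlinarith [sq_nonneg (u - 1 / 2), sq_nonneg (w - 1 / 2)]
    have h6 := h.s_mid _ h4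
    have h7 := h.s_mid _ h5
    apply Complex.ext
    · show x.re = (a : ℝ) + 1 / 2
      linarith
    · show x.im = (b : ℝ) + 1 / 2
      linarith

/-- the enlarged open cell -/
private def rgbCell (δ : ℝ) (a b : ℤ) : Set ℂ :=
  {x : ℂ | (a : ℝ) - δ < x.re ∧ x.re < a + 1 + δ ∧ (b : ℝ) - δ < x.im ∧ x.im < b + 1 + δ}

private lemma rgbCell_open (δ : ℝ) (a b : ℤ) : IsOpen (rgbCell δ a b) :=
  (isOpen_lt continuous_const Complex.continuous_re).inter
    ((isOpen_lt Complex.continuous_re continuous_const).inter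
      ((isOpen_lt continuous_const Complex.continuous_im).inter
        (isOpen_lt Complex.continuous_im continuous_const)))

theorem regular_clu (hG : G.Valid) (h : Step s η δ) {B K : ℝ}
    (hB : ∀ a b i x, -B ≤ (fderiv ℝ (G.sh s a b i) x).det) (hK : B < K) {x₀ : ℂ} {c : Cl n}
    (h1 : G.br ⌊x₀.re⌋ ⌊x₀.im⌋ = none) (h2 : G.cl ⌊x₀.re⌋ ⌊x₀.im⌋ = some c)
    (h3 : x₀ ≠ ctr ⌊x₀.re⌋ ⌊x₀.im⌋) :
    RegularAt (lat G.M G.M) K n (G.Surf s η) x₀ := by
  have hδ := h.δ_pos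
  have hc := hG.clu _ _ _ h1 h2
  refine ⟨rgbCell δ ⌊x₀.re⌋ ⌊x₀.im⌋ ∩ {ctr ⌊x₀.re⌋ ⌊x₀.im⌋}ᶜ, ?_, ?_,
    fun i => G.sh s ⌊x₀.re⌋ ⌊x₀.im⌋ i, ⟨?_, ?_, ?_⟩, ?_⟩
  · exact (rgbCell_open _ _ _).inter isOpen_compl_singleton
  · have e1 := Int.floor_le x₀.re
    have e2 := Int.lt_floor_add_one x₀.re
    have e3 := Int.floor_le x₀.im
    have e4 := Int.lt_floor_add_one x₀.im
    exact ⟨⟨by linarith, by linarith, by linarith, by linarith⟩, h3⟩
  · exact fun i => (sh_smooth h _ _ i).contDiffOn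
  · intro i x _
    have := hB ⌊x₀.re⌋ ⌊x₀.im⌋ i x
    linarith
  · intro i j x hx hm
    by_contra hij
    by_cases hl : i ∈ c.lab ∧ j ∈ c.lab
    · exact hx.2 (rgb_meet h hc hl.1 hl.2 hij hm)
    · exact rgb_disj h (hc.disj i j hij hl) x hm
  · rintro x ⟨⟨e1, e2, e3, e4⟩, -⟩ y
    rw [surf_iff hG h ⌊x₀.re⌋ ⌊x₀.im⌋ x y e1 e2 e3 e4]
    unfold Grid.Fib
    rw [h1]

theorem clusterAt (hG : G.Valid) (h : Step s η δ) {B K : ℝ}
    (hB : ∀ a b i x, -B ≤ (fderiv ℝ (G.sh s a b i) x).det) (hK : B < K) {a b : ℤ} {c : Cl n}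
    (h1 : G.br a b = none) (h2 : G.cl a b = some c) :
    ClusterAt (lat G.M G.M) K n c.lab.card (G.Surf s η) (ctr a b) := by
  classical
  have hδ := h.δ_pos
  have hδ' := h.δ_lt
  have hc := hG.clu _ _ _ h1 h2
  let e : Fin c.lab.card ≃ c.lab := c.lab.equivFin.symm
  have hcard : (c.labᶜ).card = n - c.lab.card := by
    rw [Finset.card_compl, Fintype.card_fin]
  let e' : Fin (n - c.lab.card) ≃ (c.labᶜ : Finset (Fin n)) := (Finset.equivFinOfCardEq hcard).symm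
  have he' : ∀ j, (e' j : Fin n) ∉ c.lab := fun j => Finset.mem_compl.1 (e' j).2
  -- the sheets of the cluster near the centre
  have key : ∀ x : ℂ, |x.re - a - 1 / 2| < δ → |x.im - b - 1 / 2| < δ → ∀ i ∈ c.lab,
      G.sh s a b i x = gc c.y2 / 2 + gc (c.A i) * (x - ctr a b) := by
    intro x hx hy i hi
    rw [rgb_sh hc hi, h.s_lin _ hx, h.s_lin _ hy]
    congr 2
    apply Complex.ext
    · simp [ctr]
      ring
    · simp [ctr]
      ring
  have hcell : ∀ x : ℂ, |x.re - a - 1 / 2| < δ → |x.im - b - 1 / 2| < δ → ∀ y,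
      (x, y) ∈ G.Surf s η ↔ ∃ i, y - G.sh s a b i x ∈ lat G.M G.M := by
    intro x hx hy y
    rw [abs_lt] at hx hy
    rw [surf_iff hG h a b x y (by linarith [hx.1]) (by linarith [hx.2]) (by linarith [hy.1])
      (by linarith [hy.2])]
    unfold Grid.Fib
    rw [h1]
  refine ⟨{x : ℂ | |x.re - a - 1 / 2| < δ ∧ |x.im - b - 1 / 2| < δ}, ?_, ?_, gc c.y2 / 2,
    fun i => gc (c.A (e i)), fun j => G.sh s a b (e' j), ?_, ⟨?_, ?_, ?_⟩, ?_, ?_, ?_⟩
  · exact (isOpen_lt ((Complex.continuous_re.sub continuous_const).sub continuous_const).abs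
      continuous_const).inter
      (isOpen_lt ((Complex.continuous_im.sub continuous_const).sub continuous_const).abs
        continuous_const)
  · constructor
    · show |((a : ℝ) + 1 / 2) - a - 1 / 2| < δ
      rw [show ((a : ℝ) + 1 / 2) - a - 1 / 2 = 0 by ring, abs_zero]
      exact hδ
    · show |((b : ℝ) + 1 / 2) - b - 1 / 2| < δ
      rw [show ((b : ℝ) + 1 / 2) - b - 1 / 2 = 0 by ring, abs_zero]
      exact hδ
  · intro i j hij
    by_contra hne
    have h4 : (e i : Fin n) ≠ e j := fun h5 => hne (e.injective (Subtype.ext h5))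
    exact (hc.inj _ (e i).2 _ (e j).2 h4).1 (rgb_gc_inj hij)
  · exact fun j => (sh_smooth h _ _ _).contDiffOn
  · intro j x _
    have := hB a b (e' j) x
    linarith
  · intro i j x _ hm
    by_contra hne
    have h4 : (e' i : Fin n) ≠ e' j := fun h5 => hne (e'.injective (Subtype.ext h5))
    exact rgb_disj h (hc.disj _ _ h4 fun h5 => he' i h5.1) x hm
  · rintro x ⟨hx, hy⟩ i j hm
    by_cases hij : i = j
    · exact Or.inl hij
    · right
      have h4 : (e i : Fin n) ≠ e j := fun h5 => hij (e.injective (Subtype.ext h5))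
      refine rgb_meet h hc (e i).2 (e j).2 h4 ?_
      rw [key x hx hy _ (e i).2, key x hx hy _ (e j).2]
      have h6 : gc c.y2 / 2 + gc (c.A (e i)) * (x - ctr a b) -
          (gc c.y2 / 2 + gc (c.A (e j)) * (x - ctr a b)) =
          (gc (c.A (e i)) - gc (c.A (e j))) * (x - ctr a b) := by ring
      rw [h6]
      exact hm
  · rintro x ⟨hx, hy⟩ i j hm
    have h4 : (e i : Fin n) ≠ e' j := fun h5 => he' j (h5 ▸ (e i).2)
    refine rgb_disj h (hc.disj _ _ h4 fun h5 => he' j h5.2) x ?_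
    rw [key x hx hy _ (e i).2]
    exact hm
  · rintro x ⟨hx, hy⟩ y
    rw [hcell x hx hy]
    constructor
    · rintro ⟨i, hi⟩
      by_cases hl : i ∈ c.lab
      · left
        refine ⟨e.symm ⟨i, hl⟩, ?_⟩
        show y - (gc c.y2 / 2 + gc (c.A (e (e.symm ⟨i, hl⟩))) * (x - ctr a b)) ∈ lat G.M G.M
        rw [Equiv.apply_symm_apply, ← key x hx hy i hl]
        exact hi
      · right
        refine ⟨e'.symm ⟨i, Finset.mem_compl.2 hl⟩, ?_⟩
        show y - G.sh s a b (e' (e'.symm ⟨i, Finset.mem_compl.2 hl⟩)) x ∈ lat G.M G.M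
        rw [Equiv.apply_symm_apply]
        exact hi
    · rintro (⟨i, hi⟩ | ⟨j, hj⟩)
      · refine ⟨e i, ?_⟩
        rw [key x hx hy _ (e i).2]
        exact hi
      · exact ⟨e' j, hj⟩

end Pool.Agent.Helper42.SA
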