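import Pool.Agent.Helper42.SA.Stp
import Pool.Agent.Helper42.SA.Rga
import Pool.Agent.Helper42.SA.Rgb
import Pool.Agent.Helper42.SA.Bra
import Pool.Agent.Helper42.SA.Brb
import Pool.Agent.Helper42.SA.Pth

/-!
# From a valid grid certificate to the multisection
-/

open Complex
open scoped ContDiff

namespace Pool.Agent.Helper42.SA

variable {n : ℕ} {G : Grid n}

lemma mem_lat {p q : ℕ} {z : ℂ} : z ∈ lat p q ↔ ∃ a b : ℤ, z = ⟨(a : ℝ) * p, (b : ℝ) * q⟩ := Iff.rfl

/-- congruence of two cells -/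
def Cong (N1 N2 : ℕ) (a b e f : ℤ) : Prop := (N1 : ℤ) ∣ a - e ∧ (N2 : ℤ) ∣ b - f

lemma ctr_sub_mem {N1 N2 : ℕ} {a b e f : ℤ} : ctr a b - ctr e f ∈ lat N1 N2 ↔ Cong N1 N2 a b e f := by
  rw [mem_lat]
  unfold Cong ctr
  constructor
  · rintro ⟨k, l, h⟩
    have h1 := congrArg Complex.re h
    have h2 := congrArg Complex.im h
    simp only [Complex.sub_re, Complex.sub_im] at h1 h2
    refine ⟨⟨k, ?_⟩, ⟨l, ?_⟩⟩
    · have : ((a - e : ℤ) : ℝ) = ((N1 * k : ℤ) : ℝ) := by push_cast; linarith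
      exact_mod_cast this
    · have : ((b - f : ℤ) : ℝ) = ((N2 * l : ℤ) : ℝ) := by push_cast; linarith
      exact_mod_cast this
  · rintro ⟨⟨k, hk⟩, ⟨l, hl⟩⟩
    refine ⟨k, l, ?_⟩
    have h1 : ((a - e : ℤ) : ℝ) = ((N1 * k : ℤ) : ℝ) := by rw [hk]
    have h2 : ((b - f : ℤ) : ℝ) = ((N2 * l : ℤ) : ℝ) := by rw [hl]
    push_cast at h1 h2
    apply Complex.ext
    · simp only [Complex.sub_re]
      linarith
    · simp only [Complex.sub_im]
      linarith

/-- points on the grid lines are not congruent to centres of cells -/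
lemma grid_line_not_ctr {N1 N2 : ℕ} {x : ℂ} (hx : (∃ a : ℤ, x.re = a) ∨ ∃ b : ℤ, x.im = b) (e f : ℤ) :
    x - ctr e f ∉ lat N1 N2 := by
  rw [mem_lat]
  rintro ⟨k, l, h⟩
  have h1 := congrArg Complex.re h
  have h2 := congrArg Complex.im h
  simp only [Complex.sub_re, Complex.sub_im, ctr] at h1 h2
  rcases hx with ⟨a, ha⟩ | ⟨b, hb⟩
  · rw [ha] at h1
    have h3 : ((2 * a - 2 * e - 1 : ℤ) : ℝ) = ((2 * (k * N1) : ℤ) : ℝ) := by push_cast; linarith
    have h4 : (2 * a - 2 * e - 1 : ℤ) = 2 * (k * N1) := by exact_mod_cast h3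
    omega
  · rw [hb] at h2
    have h3 : ((2 * b - 2 * f - 1 : ℤ) : ℝ) = ((2 * (l * N2) : ℤ) : ℝ) := by push_cast; linarith
    have h4 : (2 * b - 2 * f - 1 : ℤ) = 2 * (l * N2) := by exact_mod_cast h3
    omega

theorem multisection_of_valid {r : ℕ} (hG : G.Valid) {e₁ f₁ e₂ f₂ a₁ b₁ a₂ b₂ : ℤ}
    (hcl : ∀ a b, G.cl a b ≠ none ↔ Cong G.N1 G.N2 a b e₁ f₁ ∨ Cong G.N1 G.N2 a b e₂ f₂)
    (hbr : ∀ a b, G.br a b ≠ none ↔ Cong G.N1 G.N2 a b a₁ b₁ ∨ Cong G.N1 G.N2 a b a₂ b₂)
    (hr : ∀ a b c, G.cl a b = some c → c.lab.card = r)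
    (hcc : ¬ Cong G.N1 G.N2 e₁ f₁ e₂ f₂) (hbb : ¬ Cong G.N1 G.N2 a₁ b₁ a₂ b₂)
    {i₀ : Fin n} {w : Fin n → List Bool} (hw : G.Conn i₀ w) :
    ∃ K C, Multisection G.N1 G.N2 G.M K n r C (ctr e₁ f₁) (ctr e₂ f₂) (ctr a₁ b₁) (ctr a₂ b₂) := by
  obtain ⟨s, η, δ, h⟩ := exists_step
  obtain ⟨B, hB⟩ := sh_det (s := s) hG h
  obtain ⟨B', hB'⟩ := regular_bra (G := G) hG h
  set K : ℝ := max (max B B') 0 + 1 with hKd
  have hK : B < K := by
    have := le_max_left (max B B') 0
    have := le_max_left B B'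
    linarith
  have hK' : B' < K := by
    have := le_max_left (max B B') 0
    have := le_max_right B B'
    linarith
  have hK0 : 0 < K := by
    have := le_max_right (max B B') 0
    linarith
  have brno : ∀ a b, G.cl a b ≠ none → G.br a b = none := by
    intro a b hc
    by_contra hne
    obtain ⟨d, hd⟩ := Option.ne_none_iff_exists'.1 hne
    exact hc (hG.bra a b d hd).2
  refine ⟨K, G.Surf s η, ?_⟩
  refine { hp := hG.hN1, hq := hG.hN2, hM := hG.hM, hK := hK0,
           periodic := ?_, cc := ?_, bb := ?_, cb := ?_, cluster := ?_, branch := ?_,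
           regular := ?_, connected := ?_ }
  · intro a ha m hm x y
    exact surf_periodic hG h ha hm x y
  · rw [ctr_sub_mem]; exact hcc
  · rw [ctr_sub_mem]; exact hbb
  · -- a cluster cell is not a branch cell
    have key : ∀ e f a b, G.cl e f ≠ none → G.br a b ≠ none → ctr e f - ctr a b ∉ lat G.N1 G.N2 := by
      intro e f a b hc hb hmem
      rw [ctr_sub_mem] at hmem
      have h1 := (hbr a b).1 hb
      have h2 : G.br e f ≠ none := by
        rw [hbr]
        unfold Cong at *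
        obtain ⟨h3, h4⟩ := hmem
        rcases h1 with ⟨h5, h6⟩ | ⟨h5, h6⟩
        · left
          refine ⟨?_, ?_⟩
          · have := dvd_add h3 h5
            simpa using this
          · have := dvd_add h4 h6
            simpa using this
        · right
          refine ⟨?_, ?_⟩
          · have := dvd_add h3 h5
            simpa using this
          · have := dvd_add h4 h6
            simpa using this
      exact h2 (brno e f hc)
    have c1 : G.cl e₁ f₁ ≠ none := (hcl _ _).2 (Or.inl ⟨by simp, by simp⟩)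
    have c2 : G.cl e₂ f₂ ≠ none := (hcl _ _).2 (Or.inr ⟨by simp, by simp⟩)
    have d1 : G.br a₁ b₁ ≠ none := (hbr _ _).2 (Or.inl ⟨by simp, by simp⟩)
    have d2 : G.br a₂ b₂ ≠ none := (hbr _ _).2 (Or.inr ⟨by simp, by simp⟩)
    intro c hc b hb
    simp only [Set.mem_insert_iff, Set.mem_singleton_iff] at hc hb
    rcases hc with rfl | rfl <;> rcases hb with rfl | rfl
    · exact key _ _ _ _ c1 d1
    · exact key _ _ _ _ c1 d2
    · exact key _ _ _ _ c2 d1
    · exact key _ _ _ _ c2 d2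
  · have key : ∀ e f, G.cl e f ≠ none → ClusterAt (lat G.M G.M) K n r (G.Surf s η) (ctr e f) := by
      intro e f hc
      obtain ⟨c, hcs⟩ := Option.ne_none_iff_exists'.1 hc
      have := clusterAt hG h hB hK (brno e f hc) hcs
      rwa [hr e f c hcs] at this
    intro c hc
    simp only [Set.mem_insert_iff, Set.mem_singleton_iff] at hc
    rcases hc with rfl | rfl
    · exact key _ _ ((hcl _ _).2 (Or.inl ⟨by simp, by simp⟩))
    · exact key _ _ ((hcl _ _).2 (Or.inr ⟨by simp, by simp⟩))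
  · have key : ∀ e f, G.br e f ≠ none → BranchAt (lat G.M G.M) K n (G.Surf s η) (ctr e f) := by
      intro e f hc
      obtain ⟨c, hcs⟩ := Option.ne_none_iff_exists'.1 hc
      exact branchAt hG h hK0 hcs
    intro c hc
    simp only [Set.mem_insert_iff, Set.mem_singleton_iff] at hc
    rcases hc with rfl | rfl
    · exact key _ _ ((hbr _ _).2 (Or.inl ⟨by simp, by simp⟩))
    · exact key _ _ ((hbr _ _).2 (Or.inr ⟨by simp, by simp⟩))
  · intro x hx
    set a := ⌊x.re⌋ with ha
    set b := ⌊x.im⌋ with hb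
    have hne : ∀ e f, (ctr e f = ctr e₁ f₁ ∨ ctr e f = ctr e₂ f₂ ∨ ctr e f = ctr a₁ b₁ ∨
        ctr e f = ctr a₂ b₂) → Cong G.N1 G.N2 a b e f → x ≠ ctr a b := by
      intro e f hef hc hxe
      apply hx (ctr e f) (by
        simp only [Set.mem_insert_iff, Set.mem_singleton_iff]
        exact hef)
      rw [hxe, ctr_sub_mem]
      exact hc
    cases hbo : G.br a b with
    | some d =>
      have h1 : G.br a b ≠ none := by rw [hbo]; simp
      have h2 : x ≠ ctr a b := by
        rcases (hbr a b).1 h1 with h3 | h3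
        · exact hne _ _ (by simp) h3
        · exact hne _ _ (by simp) h3
      exact hB' K hK' x d hbo h2
    | none =>
      cases hco : G.cl a b with
      | none => exact regular_reg hG h hB hK hbo hco
      | some c =>
        have h1 : G.cl a b ≠ none := by rw [hco]; simp
        have h2 : x ≠ ctr a b := by
          rcases (hcl a b).1 h1 with h3 | h3
          · exact hne _ _ (by simp) h3
          · exact hne _ _ (by simp) h3
        exact regular_clu hG h hB hK hbo hco h2
  · intro y y' hy hy'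
    obtain ⟨γ, h1, h2, h3, h4, h5⟩ := connected hG h hw y y' hy hy'
    refine ⟨γ, h1, fun t ht => ⟨(h2 t ht).1, ?_⟩, h3, h4, h5⟩
    intro c hc
    simp only [Set.mem_insert_iff, Set.mem_singleton_iff] at hc
    rcases hc with rfl | rfl | rfl | rfl <;> exact grid_line_not_ctr (h2 t ht).2 _ _

end Pool.Agent.Helper42.SA
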