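import Pool.Agent.Helper42.SA.Chk0
import Pool.Agent.Helper42.SA.Main

/-!
# Soundness of the kernel test of a list certificate
-/

namespace Pool.Agent.Helper42.SA

/-! ## Remaining parts of the test -/

/-- the corner data of sheet number `i` -/
def cnr (M : ℤ) (v00 v10 v01 v11 : List Strand) (i : ℕ) : Corner :=
  cornerOf M v10 v01 v11 false (getS v00 i)

/-- test of a cluster cell -/
def cluB {n : ℕ} (M : ℕ) (c : Cl n) (v00 v10 v01 v11 : List Strand) : Bool :=
  v00.all (fun s => commB v10 v01 s) &&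
  decide (∀ i j : Fin n, i ≠ j → ¬ (i ∈ c.lab ∧ j ∈ c.lab) →
    avoidB M ((cnr M v00 v10 v01 v11 i).p - (cnr M v00 v10 v01 v11 j).p)
      ((cnr M v00 v10 v01 v11 i).q - (cnr M v00 v10 v01 v11 j).q)
      ((cnr M v00 v10 v01 v11 i).r - (cnr M v00 v10 v01 v11 j).r)
      ((cnr M v00 v10 v01 v11 i).t - (cnr M v00 v10 v01 v11 j).t) = true) &&
  decide (∀ i ∈ c.lab, (cnr M v00 v10 v01 v11 i).q = (cnr M v00 v10 v01 v11 i).p + c.A i ∧
    (cnr M v00 v10 v01 v11 i).r = (cnr M v00 v10 v01 v11 i).p + mulI (c.A i) ∧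
    (cnr M v00 v10 v01 v11 i).t = (cnr M v00 v10 v01 v11 i).p + c.A i + mulI (c.A i) ∧
    (cnr M v00 v10 v01 v11 i).p + (cnr M v00 v10 v01 v11 i).p + c.A i + mulI (c.A i) = c.y2) &&
  decide (∀ i ∈ c.lab, ∀ j ∈ c.lab, i ≠ j → c.A i ≠ c.A j ∧ nsq (c.A i - c.A j) < 2 * (M : ℤ) ^ 2)

/-- `x` is nearer than `y` to no point of `M ℤ`: test for `N < nsq (d - M m)` for all `m` -/
def farB (M : ℤ) (N : ℤ) (d : ℤ × ℤ) : Bool :=
  let e := d.1 % M
  let f := d.2 % M
  decide (N < nsq (e, f)) && decide (N < nsq (e - M, f)) && decide (N < nsq (e, f - M)) &&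
    decide (N < nsq (e - M, f - M))

/-- test of a branch cell -/
def braB {n : ℕ} (M : ℕ) (d : Br n) (v00 v10 v01 v11 : List Strand) : Bool :=
  let p := cnr M v00 v10 v01 v11 d.p
  let q := cnr M v00 v10 v01 v11 d.q
  -- the corner 11 reached by up and right
  let wp := getS v01 (getS v00 d.p).u
  let wq := getS v01 (getS v00 d.q).u
  let zp := getS v11 wp.r
  let zq := getS v11 wq.r
  let up : ℤ × ℤ := (zp.x + M * ((getS v00 d.p).ux + wp.rx), zp.y + M * ((getS v00 d.p).uy + wp.ry))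
  let uq : ℤ × ℤ := (zq.x + M * ((getS v00 d.q).ux + wq.rx), zq.y + M * ((getS v00 d.q).uy + wq.ry))
  decide (d.p ≠ d.q) &&
  decide (p.p = d.y0 + d.v0) && decide (q.p = d.y0 - d.v0) &&
  decide (p.q = d.y0 + d.v1) && decide (q.q = d.y0 - d.v1) &&
  decide (p.r = d.y0 - mulI d.v1) && decide (q.r = d.y0 + mulI d.v1) &&
  decide (p.t = d.y0 + mulI d.v0) && decide (q.t = d.y0 - mulI d.v0) &&
  decide (up = d.y0 - mulI d.v0) && decide (uq = d.y0 + mulI d.v0) &&
  decide (0 < d.v0.1 * d.v1.1 + d.v0.2 * d.v1.2) && decide (0 < d.v0.1 * d.v1.2 - d.v0.2 * d.v1.1) &&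
  decide (4 * nsq d.v0 < (M : ℤ) ^ 2) && decide (4 * nsq d.v1 < (M : ℤ) ^ 2) &&
  decide (∀ i : Fin n, i ≠ d.p → i ≠ d.q → commB v10 v01 (getS v00 i) = true ∧
    (cnr M v00 v10 v01 v11 i).q = (cnr M v00 v10 v01 v11 i).p ∧
    (cnr M v00 v10 v01 v11 i).r = (cnr M v00 v10 v01 v11 i).p ∧
    (cnr M v00 v10 v01 v11 i).t = (cnr M v00 v10 v01 v11 i).p ∧
    farB M (nsq d.v0) ((cnr M v00 v10 v01 v11 i).p - d.y0) = true ∧
    farB M (nsq d.v1) ((cnr M v00 v10 v01 v11 i).p - d.y0) = true) &&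
  decide (∀ i j : Fin n, i ≠ d.p → i ≠ d.q → j ≠ d.p → j ≠ d.q → i ≠ j →
    avoidB M ((cnr M v00 v10 v01 v11 i).p - (cnr M v00 v10 v01 v11 j).p)
      ((cnr M v00 v10 v01 v11 i).q - (cnr M v00 v10 v01 v11 j).q)
      ((cnr M v00 v10 v01 v11 i).r - (cnr M v00 v10 v01 v11 j).r)
      ((cnr M v00 v10 v01 v11 i).t - (cnr M v00 v10 v01 v11 j).t) = true)

/-- the vertex `(a, b)` -/
def Cert.vert {n : ℕ} (C : Cert n) (a b : ℕ) : List Strand := (C.rows b).getD a []

/-- test of the cell `(a, b)` (and of its lower left vertex), natural numbers `a < N1`, `b < N2` -/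
def Cert.cellB {n : ℕ} (C : Cert n) (v00 v10 v01 v11 : List Strand) (a b : ℕ) : Bool :=
  vertexB n v00 &&
  match C.brs.lookup (a, b) with
  | some d => braB C.M d v00 v10 v01 v11 && (C.cls.lookup (a, b)).isNone
  | none =>
    match C.cls.lookup (a, b) with
    | some c => cluB C.M c v00 v10 v01 v11
    | none => regB C.M v00 v10 v01 v11

/-- test of the row `b` -/
def Cert.rowB {n : ℕ} (C : Cert n) (b : ℕ) : Bool :=
  (List.range C.N1).all fun a =>
    C.cellB (C.vert a b) (C.vert ((a + 1) % C.N1) b) (C.vert a ((b + 1) % C.N2))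
      (C.vert ((a + 1) % C.N1) ((b + 1) % C.N2)) a b

/-! ## The grid of a certificate -/

section

variable {n : ℕ} [NeZero n] (C : Cert n)

/-- the strand at an integer vertex -/
def Cert.at (a b : ℤ) (i : ℕ) : Strand :=
  getS (C.vert (a % C.N1).toNat (b % C.N2).toNat) i

/-- the grid certificate -/
def Cert.grid : Grid n where
  N1 := C.N1
  N2 := C.N2
  M := C.M
  val a b i := ((C.at a b i).x, (C.at a b i).y)
  R a b i := Fin.ofNat n (C.at a b i).r
  rs a b i := ((C.at a b i).rx, (C.at a b i).ry)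
  U a b i := Fin.ofNat n (C.at a b i).u
  us a b i := ((C.at a b i).ux, (C.at a b i).uy)
  br a b := C.brs.lookup ((a % C.N1).toNat, (b % C.N2).toNat)
  cl a b := C.cls.lookup ((a % C.N1).toNat, (b % C.N2).toNat)

end

end Pool.Agent.Helper42.SA
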