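import Pool.Agent.Helper42.SA.Hul

/-!
# The list form of a grid certificate and its kernel-checkable test
-/

namespace Pool.Agent.Helper42.SA

/-- a strand at a vertex: position, continuation to the right (label, shift), continuation upwards -/
structure Strand where
  x : ℤ
  y : ℤ
  r : ℕ
  rx : ℤ
  ry : ℤ
  u : ℕ
  ux : ℤ
  uy : ℤ

/-- the default strand -/
def Strand.dflt : Strand := ⟨0, 0, 0, 0, 0, 0, 0, 0⟩

/-- the four corner positions of a sheet over a cell, with a flag -/
structure Corner where
  f : Bool
  p : ℤ × ℤ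
  q : ℤ × ℤ
  r : ℤ × ℤ
  t : ℤ × ℤ

/-- the list form of a certificate -/
structure Cert (n : ℕ) where
  N1 : ℕ
  N2 : ℕ
  M : ℕ
  rows : ℕ → List (List Strand)
  brs : List ((ℕ × ℕ) × Br n)
  cls : List ((ℕ × ℕ) × Cl n)

/-- strand number `i` -/
def getS (v : List Strand) (i : ℕ) : Strand := v.getD i Strand.dflt

/-- the corners of the sheet through the strand `s` -/
def cornerOf (M : ℤ) (v10 v01 v11 : List Strand) (f : Bool) (s : Strand) : Corner :=
  let t := getS v10 s.r
  let w := getS v01 s.u
  let z := getS v11 t.u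
  ⟨f, (s.x, s.y), (t.x + M * s.rx, t.y + M * s.ry), (w.x + M * s.ux, w.y + M * s.uy),
    (z.x + M * (s.rx + t.ux), z.y + M * (s.ry + t.uy))⟩

/-- right-then-up agrees with up-then-right -/
def commB (v10 v01 : List Strand) (s : Strand) : Bool :=
  let t := getS v10 s.r
  let w := getS v01 s.u
  (t.u == w.r) && (s.rx + t.ux == s.ux + w.rx) && (s.ry + t.uy == s.uy + w.ry)

/-- the test for two sheets -/
def pairB (M : ℕ) (c d : Corner) : Bool :=
  (c.f && d.f) ||
    avoidB M (c.p - d.p) (c.q - d.q) (c.r - d.r) (c.t - d.t)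

/-- all pairs of a list -/
def pairsB (M : ℕ) : List Corner → Bool
  | [] => true
  | c :: cs => cs.all (fun d => pairB M c d) && pairsB M cs

/-- no natural number occurs twice -/
def nodupB : List ℕ → Bool
  | [] => true
  | a :: l => l.all (fun b => !(a == b)) && nodupB l

/-- test of a vertex -/
def vertexB (n : ℕ) (v : List Strand) : Bool :=
  (v.length == n) && v.all (fun s => decide (s.r < n) && decide (s.u < n)) &&
    nodupB (v.map Strand.r) && nodupB (v.map Strand.u)

/-- test of a regular cell -/
def regB (M : ℕ) (v00 v10 v01 v11 : List Strand) : Bool :=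
  v00.all (fun s => commB v10 v01 s) && pairsB M (v00.map (cornerOf M v10 v01 v11 false))

end Pool.Agent.Helper42.SA
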