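import Mathlib

/-!
# Symplectic multisections of the 4-torus: definitions for the final statement

The 4-torus is `(ℂ ⧸ (p ℤ + i q ℤ)) × (ℂ ⧸ M (ℤ + i ℤ))` with the constant symplectic form
`K dA(x) + dA(y)`.  A surface in it is given by a periodic subset `C` of `ℂ × ℂ`.
-/

open Complex
open scoped ContDiff

namespace Pool.Agent.Helper42.SA

/-- the lattice `p ℤ + i q ℤ` in `ℂ` -/
def lat (p q : ℕ) : AddSubgroup ℂ where
  carrier := {z | ∃ a b : ℤ, z = ⟨(a : ℝ) * p, (b : ℝ) * q⟩}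
  add_mem' := by
    rintro _ _ ⟨a, b, rfl⟩ ⟨c, d, rfl⟩
    refine ⟨a + c, b + d, ?_⟩
    apply Complex.ext
    · simp [add_mul]
    · simp [add_mul]
  zero_mem' := ⟨0, 0, by apply Complex.ext <;> simp⟩
  neg_mem' := by
    rintro _ ⟨a, b, rfl⟩
    refine ⟨-a, -b, ?_⟩
    apply Complex.ext <;> simp

/-- Over the open set `U` the functions `f i` are smooth, their graphs are symplectic surfaces for the form
`K dA(x) + dA(y)` (whose restriction to the graph of `f` is `(K + det Df) dA(x)`), and the graphs are pairwise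
disjoint modulo `Λ`. -/
structure Sheets (Λ : AddSubgroup ℂ) (K : ℝ) (U : Set ℂ) {m : ℕ} (f : Fin m → ℂ → ℂ) : Prop where
  smooth : ∀ i, ContDiffOn ℝ ∞ (f i) U
  pos : ∀ i, ∀ x ∈ U, 0 < K + (fderiv ℝ (f i) x).det
  disj : ∀ i j, ∀ x ∈ U, f i x - f j x ∈ Λ → i = j

/-- Near the fibre over `x₀` the set `C` is the disjoint union of `n` smooth symplectic graphs (modulo `Λ`). -/
def RegularAt (Λ : AddSubgroup ℂ) (K : ℝ) (n : ℕ) (C : Set (ℂ × ℂ)) (x₀ : ℂ) : Prop :=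
  ∃ U : Set ℂ, IsOpen U ∧ x₀ ∈ U ∧ ∃ f : Fin n → ℂ → ℂ, Sheets Λ K U f ∧
    ∀ x ∈ U, ∀ y, (x, y) ∈ C ↔ ∃ i, y - f i x ∈ Λ

/-- Near the fibre over `c` the set `C` is (modulo `Λ`) the union of `r` distinct complex lines through one point
`(c, y₀)`, meeting only there, and of `n - r` smooth symplectic graphs, disjoint from each other and from the lines:
`(c, y₀)` is an ordinary `r`-fold point. -/
def ClusterAt (Λ : AddSubgroup ℂ) (K : ℝ) (n r : ℕ) (C : Set (ℂ × ℂ)) (c : ℂ) : Prop :=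
  ∃ U : Set ℂ, IsOpen U ∧ c ∈ U ∧ ∃ (y₀ : ℂ) (a : Fin r → ℂ) (g : Fin (n - r) → ℂ → ℂ),
    Function.Injective a ∧ Sheets Λ K U g ∧
    (∀ x ∈ U, ∀ i j, (a i - a j) * (x - c) ∈ Λ → i = j ∨ x = c) ∧
    (∀ x ∈ U, ∀ i j, y₀ + a i * (x - c) - g j x ∉ Λ) ∧
    ∀ x ∈ U, ∀ y, (x, y) ∈ C ↔ (∃ i, y - (y₀ + a i * (x - c)) ∈ Λ) ∨ ∃ j, y - g j x ∈ Λ

/-- Near the fibre over `b` the set `C` is (modulo `Λ`) the disjoint union of the smooth surface
`(y - y₀)² = A (x - b)`, `A` an orientation preserving real linear map, and of `n - 2` smooth symplectic graphs: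
the projection to the `x`-torus has one simple branch point over `b`.  (The surface `(y - y₀)² = A (x - b)` is
symplectic for every form `K dA(x) + dA(y)`, `K > 0`.) -/
def BranchAt (Λ : AddSubgroup ℂ) (K : ℝ) (n : ℕ) (C : Set (ℂ × ℂ)) (b : ℂ) : Prop :=
  ∃ U : Set ℂ, IsOpen U ∧ b ∈ U ∧ ∃ (y₀ : ℂ) (A : ℂ →L[ℝ] ℂ) (g : Fin (n - 2) → ℂ → ℂ),
    0 < A.det ∧ Sheets Λ K U g ∧
    (∀ x ∈ U, ∀ z, z ^ 2 = A (x - b) → (2 * z ∈ Λ → z = 0) ∧ ∀ j, y₀ + z - g j x ∉ Λ) ∧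
    ∀ x ∈ U, ∀ y, (x, y) ∈ C ↔
      (∃ z, z ^ 2 = A (x - b) ∧ y - (y₀ + z) ∈ Λ) ∨ ∃ j, y - g j x ∈ Λ

/-- `C` is a compact connected symplectic surface in the 4-torus `(ℂ ⧸ L) × (ℂ ⧸ Λ)`, `L = p ℤ + i q ℤ`,
`Λ = M (ℤ + i ℤ)`, with the constant symplectic form `K dA(x) + dA(y)`; it is an `n`-fold multisection of the
projection to `ℂ ⧸ L`, with exactly two (simple) branch points, over `b₁` and `b₂`, and its only singularities are two
ordinary `r`-fold points, over `c₁` and `c₂`.  (So its normalisation is a connected surface of Euler number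
`n · 0 - 2`, that is of genus 2.) -/
structure Multisection (p q M : ℕ) (K : ℝ) (n r : ℕ) (C : Set (ℂ × ℂ)) (c₁ c₂ b₁ b₂ : ℂ) : Prop where
  hp : 0 < p
  hq : 0 < q
  hM : 0 < M
  hK : 0 < K
  periodic : ∀ a ∈ lat p q, ∀ m ∈ lat M M, ∀ x y, (x + a, y + m) ∈ C ↔ (x, y) ∈ C
  cc : c₁ - c₂ ∉ lat p q
  bb : b₁ - b₂ ∉ lat p q
  cb : ∀ c ∈ ({c₁, c₂} : Set ℂ), ∀ b ∈ ({b₁, b₂} : Set ℂ), c - b ∉ lat p q
  cluster : ∀ c ∈ ({c₁, c₂} : Set ℂ), ClusterAt (lat M M) K n r C c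
  branch : ∀ b ∈ ({b₁, b₂} : Set ℂ), BranchAt (lat M M) K n C b
  regular : ∀ x, (∀ s ∈ ({c₁, c₂, b₁, b₂} : Set ℂ), x - s ∉ lat p q) → RegularAt (lat M M) K n C x
  /-- any two points of `C` over `0` are joined, modulo the lattices, by a path in `C` which avoids the fibres over
  the four special points -/
  connected : ∀ y y', (0, y) ∈ C → (0, y') ∈ C → ∃ γ : ℝ → ℂ × ℂ, ContinuousOn γ (Set.Icc 0 1) ∧
    (∀ t ∈ Set.Icc (0 : ℝ) 1, γ t ∈ C ∧ ∀ s ∈ ({c₁, c₂, b₁, b₂} : Set ℂ), (γ t).1 - s ∉ lat p q) ∧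
    γ 0 = (0, y) ∧ (γ 1).1 ∈ lat p q ∧ (γ 1).2 - y' ∈ lat M M

end Pool.Agent.Helper42.SA
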