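import Pool.Agent.Helper42.SA.Df

/-!
# Symplectic multisections of the 4-torus with any number of clusters and branch points
-/

open Complex
open scoped ContDiff

namespace Pool.Agent.Helper42.SA

/-- `C` is a compact symplectic surface in the 4-torus `(ℂ ⧸ L) × (ℂ ⧸ Λ)`, `L = p ℤ + i q ℤ`,
`Λ = M (ℤ + i ℤ)`, with the constant symplectic form `K dA(x) + dA(y)`; it is an `n`-fold multisection of the
projection to `ℂ ⧸ L`, with exactly one simple branch point over each point of the list `br` and no others, and its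
only singularities are one ordinary `r`-fold point over `c` for each member `(c, r)` of the list `cl`. -/
structure Multi (p q M : ℕ) (K : ℝ) (n : ℕ) (cl : List (ℂ × ℕ)) (br : List ℂ) (C : Set (ℂ × ℂ)) : Prop where
  hp : 0 < p
  hq : 0 < q
  hM : 0 < M
  hK : 0 < K
  periodic : ∀ a ∈ lat p q, ∀ m ∈ lat M M, ∀ x y, (x + a, y + m) ∈ C ↔ (x, y) ∈ C
  inequiv : (cl.map Prod.fst ++ br).Pairwise fun z w => z - w ∉ lat p q
  cluster : ∀ c ∈ cl, ClusterAt (lat M M) K n c.2 C c.1
  branch : ∀ b ∈ br, BranchAt (lat M M) K n C b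
  regular : ∀ x, (∀ s ∈ cl.map Prod.fst ++ br, x - s ∉ lat p q) → RegularAt (lat M M) K n C x

/-- any two points of `C` over `0` are joined, modulo the lattices, by a path in `C` which avoids the fibres over
the special points `S` -/
def Joined (p q M : ℕ) (S : List ℂ) (C : Set (ℂ × ℂ)) : Prop :=
  ∀ y y', (0, y) ∈ C → (0, y') ∈ C → ∃ γ : ℝ → ℂ × ℂ, ContinuousOn γ (Set.Icc 0 1) ∧
    (∀ t ∈ Set.Icc (0 : ℝ) 1, γ t ∈ C ∧ ∀ s ∈ S, (γ t).1 - s ∉ lat p q) ∧
    γ 0 = (0, y) ∧ (γ 1).1 ∈ lat p q ∧ (γ 1).2 - y' ∈ lat M M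

end Pool.Agent.Helper42.SA
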