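import Pool.Agent.Helper42.SA.Wfa

/-!
`EdgeH a b`: the fibre over the horizontal edge from `(a, b)` to `(a+1, b)`; `EdgeV a b`: vertical edge from `(a, b)`
to `(a, b+1)`.
-/

open Complex
open scoped ContDiff

namespace Pool.Agent.Helper42.SA

variable {s η : ℝ → ℝ} {δ : ℝ} {n : ℕ} {G : Grid n}

namespace Grid

variable (G)

/-- the fibre over the horizontal edge from `(a, b)` to `(a+1, b)` -/
def EdgeH (s : ℝ → ℝ) (a b : ℤ) (x y : ℂ) : Prop :=
  ∃ i, y - (((1 - s (x.re - a) : ℝ) : ℂ) * gc (G.c00 a b i) + ((s (x.re - a) : ℝ) : ℂ) * gc (G.c10 a b i))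
    ∈ lat G.M G.M

/-- the fibre over the vertical edge from `(a, b)` to `(a, b+1)` -/
def EdgeV (s : ℝ → ℝ) (a b : ℤ) (x y : ℂ) : Prop :=
  ∃ i, y - (((1 - s (x.im - b) : ℝ) : ℂ) * gc (G.c00 a b i) + ((s (x.im - b) : ℝ) : ℂ) * gc (G.c01 a b i))
    ∈ lat G.M G.M

end Grid

end Pool.Agent.Helper42.SA
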