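import Pool.Agent.Helper42.SA.Ed0

/-!
# Piece SA-D1: a cell agrees with the edge description near its bottom and left edges

`s (x.im - b) = 0` for `x.im - b ≤ δ`, so `sh i x` is the edge interpolation; in a branch cell `z² = W` and
`W = (edge value)²` (`Wf_bot`, `Wf_left`) give `z = ± edge value`; `BrCell.p00, q00, p10, q10, p01, q01`.
-/

open Complex
open scoped ContDiff

namespace Pool.Agent.Helper42.SA

variable {s η : ℝ → ℝ} {δ : ℝ} {n : ℕ} {G : Grid n}

private theorem eda_gc_add (u v : ℤ × ℤ) : gc (u + v) = gc u + gc v := by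
  apply Complex.ext <;> simp [gc]

private theorem eda_gc_sub (u v : ℤ × ℤ) : gc (u - v) = gc u - gc v := by
  apply Complex.ext <;> simp [gc]

private theorem eda_gc_mulI (u : ℤ × ℤ) : gc (mulI u) = I * gc u := by
  apply Complex.ext <;> simp [gc, mulI]

private theorem eda_bil_bot (u : ℝ) (p q r t : ℂ) :
    bil u 0 p q r t = ((1 - u : ℝ) : ℂ) * p + ((u : ℝ) : ℂ) * q := by
  simp [bil]

private theorem eda_bil_left (w : ℝ) (p q r t : ℂ) :
    bil 0 w p q r t = ((1 - w : ℝ) : ℂ) * p + ((w : ℝ) : ℂ) * r := by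
  simp [bil]

theorem fib_bot (hG : G.Valid) (h : Step s η δ) (a b : ℤ) (x y : ℂ) (hx : x.im - b ≤ δ) :
    G.Fib s η a b x y ↔ G.EdgeH s a b x y := by
  have hs : s (x.im - b) = 0 := h.s_zero _ (by have := h.δ_pos; linarith)
  have hsh : ∀ i, G.sh s a b i x = ((1 - s (x.re - a) : ℝ) : ℂ) * gc (G.c00 a b i)
      + ((s (x.re - a) : ℝ) : ℂ) * gc (G.c10 a b i) := by
    intro i
    unfold Grid.sh
    rw [hs, eda_bil_bot]
  unfold Grid.Fib Grid.EdgeH
  cases hbr : G.br a b with
  | none =>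
    simp only [hsh]
  | some d =>
    have hB := (hG.bra a b d hbr).1
    have hW := Wf_bot h (gc d.v0) (gc d.v1) (t1 := x.re - a) hx
    set e : ℂ := ((1 - s (x.re - a) : ℝ) : ℂ) * gc d.v0 + ((s (x.re - a) : ℝ) : ℂ) * gc d.v1
      with he
    have hp : ((1 - s (x.re - a) : ℝ) : ℂ) * gc (G.c00 a b d.p)
        + ((s (x.re - a) : ℝ) : ℂ) * gc (G.c10 a b d.p) = gc d.y0 + e := by
      rw [hB.p00, hB.p10, eda_gc_add, eda_gc_add, he]
      push_cast
      ring
    have hq : ((1 - s (x.re - a) : ℝ) : ℂ) * gc (G.c00 a b d.q)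
        + ((s (x.re - a) : ℝ) : ℂ) * gc (G.c10 a b d.q) = gc d.y0 + -e := by
      rw [hB.q00, hB.q10, eda_gc_sub, eda_gc_sub, he]
      push_cast
      ring
    constructor
    · rintro (⟨z, hz, hy⟩ | ⟨i, _, _, hy⟩)
      · rw [hW] at hz
        rcases sq_eq_sq_iff_eq_or_eq_neg.mp hz with hz | hz
        · refine ⟨d.p, ?_⟩
          rw [hp, ← hz]
          exact hy
        · refine ⟨d.q, ?_⟩
          rw [hq, ← hz]
          exact hy
      · exact ⟨i, by rw [← hsh i]; exact hy⟩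
    · rintro ⟨i, hy⟩
      by_cases hip : i = d.p
      · subst hip
        rw [hp] at hy
        exact Or.inl ⟨e, hW.symm, hy⟩
      · by_cases hiq : i = d.q
        · subst hiq
          rw [hq] at hy
          exact Or.inl ⟨-e, by rw [hW, neg_sq], hy⟩
        · exact Or.inr ⟨i, hip, hiq, by rw [hsh i]; exact hy⟩

theorem fib_left (hG : G.Valid) (h : Step s η δ) (a b : ℤ) (x y : ℂ) (hx : x.re - a ≤ δ) :
    G.Fib s η a b x y ↔ G.EdgeV s a b x y := by
  have hs : s (x.re - a) = 0 := h.s_zero _ (by have := h.δ_pos; linarith)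
  have hsh : ∀ i, G.sh s a b i x = ((1 - s (x.im - b) : ℝ) : ℂ) * gc (G.c00 a b i)
      + ((s (x.im - b) : ℝ) : ℂ) * gc (G.c01 a b i) := by
    intro i
    unfold Grid.sh
    rw [hs, eda_bil_left]
  unfold Grid.Fib Grid.EdgeV
  cases hbr : G.br a b with
  | none =>
    simp only [hsh]
  | some d =>
    have hB := (hG.bra a b d hbr).1
    have hW := Wf_left h (gc d.v0) (gc d.v1) (t2 := x.im - b) hx
    set e : ℂ := ((1 - s (x.im - b) : ℝ) : ℂ) * gc d.v0
      - ((s (x.im - b) : ℝ) : ℂ) * (I * gc d.v1) with he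
    have hp : ((1 - s (x.im - b) : ℝ) : ℂ) * gc (G.c00 a b d.p)
        + ((s (x.im - b) : ℝ) : ℂ) * gc (G.c01 a b d.p) = gc d.y0 + e := by
      rw [hB.p00, hB.p01, eda_gc_add, eda_gc_sub, eda_gc_mulI, he]
      push_cast
      ring
    have hq : ((1 - s (x.im - b) : ℝ) : ℂ) * gc (G.c00 a b d.q)
        + ((s (x.im - b) : ℝ) : ℂ) * gc (G.c01 a b d.q) = gc d.y0 + -e := by
      rw [hB.q00, hB.q01, eda_gc_sub, eda_gc_add, eda_gc_mulI, he]
      push_cast
      ring
    constructor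
    · rintro (⟨z, hz, hy⟩ | ⟨i, _, _, hy⟩)
      · rw [hW] at hz
        rcases sq_eq_sq_iff_eq_or_eq_neg.mp hz with hz | hz
        · refine ⟨d.p, ?_⟩
          rw [hp, ← hz]
          exact hy
        · refine ⟨d.q, ?_⟩
          rw [hq, ← hz]
          exact hy
      · exact ⟨i, by rw [← hsh i]; exact hy⟩
    · rintro ⟨i, hy⟩
      by_cases hip : i = d.p
      · subst hip
        rw [hp] at hy
        exact Or.inl ⟨e, hW.symm, hy⟩
      · by_cases hiq : i = d.q
        · subst hiq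
          rw [hq] at hy
          exact Or.inl ⟨-e, by rw [hW, neg_sq], hy⟩
        · exact Or.inr ⟨i, hip, hiq, by rw [hsh i]; exact hy⟩

end Pool.Agent.Helper42.SA
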