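import Pool.Agent.Helper42.SA.Ed0

/-!
# Piece SA-D2: a cell agrees with the edge description near its top and right edges

Top: the strand `i` of the cell is the strand `U a b i` at `(a, b+1)`, shifted by `M us a b i`; for `Comm` strands
`c11 a b i = d11 a b i`, and `d11 a b i = c10 a (b+1) (U a b i) + M us a b i`.  Right: strand `R a b i` at `(a+1, b)`,
`c11 a b i = c01 (a+1) b (R a b i) + M rs a b i` by definition.  `R a b`, `U a b` are injective, hence bijective.  In a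
branch cell `z² = W` and `W = (edge value)²` (`Wf_top`, `Wf_right`) give `z = ± edge value`; `BrCell.p11', q11'` (top),
`p11, q11` (right).
-/

open Complex
open scoped ContDiff

namespace Pool.Agent.Helper42.SA

variable {s η : ℝ → ℝ} {δ : ℝ} {n : ℕ} {G : Grid n}

private theorem edb_gc_add (u v : ℤ × ℤ) : gc (u + v) = gc u + gc v := by
  apply Complex.ext <;> simp [gc]

private theorem edb_gc_sub (u v : ℤ × ℤ) : gc (u - v) = gc u - gc v := by
  apply Complex.ext <;> simp [gc]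

private theorem edb_gc_mulI (u : ℤ × ℤ) : gc (mulI u) = I * gc u := by
  apply Complex.ext <;> simp [gc, mulI]

private theorem edb_mem (M : ℕ) (z : ℤ × ℤ) : gc ((M : ℤ) • z) ∈ lat M M := by
  refine ⟨z.1, z.2, ?_⟩
  apply Complex.ext
  · simp [gc, mul_comm]
  · simp [gc, mul_comm]

private theorem edb_bil_top (u : ℝ) (p q r t : ℂ) :
    bil u 1 p q r t = ((1 - u : ℝ) : ℂ) * r + ((u : ℝ) : ℂ) * t := by
  simp [bil]

private theorem edb_bil_right (w : ℝ) (p q r t : ℂ) :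
    bil 1 w p q r t = ((1 - w : ℝ) : ℂ) * q + ((w : ℝ) : ℂ) * t := by
  simp [bil]

/-- shifting both ends of an interpolation by a lattice vector -/
private theorem edb_shift (M : ℕ) (u : ℝ) (p q z : ℤ × ℤ) (y : ℂ) :
    y - (((1 - u : ℝ) : ℂ) * gc (p + (M : ℤ) • z) + ((u : ℝ) : ℂ) * gc (q + (M : ℤ) • z)) ∈ lat M M
      ↔ y - (((1 - u : ℝ) : ℂ) * gc p + ((u : ℝ) : ℂ) * gc q) ∈ lat M M := by
  have h : y - (((1 - u : ℝ) : ℂ) * gc (p + (M : ℤ) • z) + ((u : ℝ) : ℂ) * gc (q + (M : ℤ) • z))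
      = (y - (((1 - u : ℝ) : ℂ) * gc p + ((u : ℝ) : ℂ) * gc q)) + -gc ((M : ℤ) • z) := by
    rw [edb_gc_add, edb_gc_add]
    push_cast
    ring
  rw [h]
  exact AddSubgroup.add_mem_cancel_right _ (neg_mem (edb_mem M z))

private theorem edb_edgeH (hG : G.Valid) (a b : ℤ) (x y : ℂ) :
    G.EdgeH s a (b + 1) x y ↔ ∃ i, y - (((1 - s (x.re - a) : ℝ) : ℂ) * gc (G.c01 a b i)
      + ((s (x.re - a) : ℝ) : ℂ) * gc (G.d11 a b i)) ∈ lat G.M G.M := by
  have hbij : Function.Surjective (G.U a b) := Finite.surjective_of_injective (hG.injU a b)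
  have key : ∀ i, G.d11 a b i = G.c10 a (b + 1) (G.U a b i) + (G.M : ℤ) • G.us a b i := by
    intro i
    unfold Grid.d11 Grid.c10
    rw [smul_add, add_assoc, add_comm ((G.M : ℤ) • G.rs a (b + 1) (G.U a b i))]
  have key2 : ∀ i, G.c01 a b i = G.c00 a (b + 1) (G.U a b i) + (G.M : ℤ) • G.us a b i := fun i => rfl
  unfold Grid.EdgeH
  constructor
  · rintro ⟨j, hj⟩
    obtain ⟨i, rfl⟩ := hbij j
    refine ⟨i, ?_⟩
    rw [key i, key2 i, edb_shift]
    exact hj
  · rintro ⟨i, hi⟩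
    rw [key i, key2 i, edb_shift] at hi
    exact ⟨_, hi⟩

private theorem edb_edgeV (hG : G.Valid) (a b : ℤ) (x y : ℂ) :
    G.EdgeV s (a + 1) b x y ↔ ∃ i, y - (((1 - s (x.im - b) : ℝ) : ℂ) * gc (G.c10 a b i)
      + ((s (x.im - b) : ℝ) : ℂ) * gc (G.c11 a b i)) ∈ lat G.M G.M := by
  have hbij : Function.Surjective (G.R a b) := Finite.surjective_of_injective (hG.injR a b)
  have key : ∀ i, G.c11 a b i = G.c01 (a + 1) b (G.R a b i) + (G.M : ℤ) • G.rs a b i := by
    intro i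
    unfold Grid.c11 Grid.c01
    rw [smul_add, add_assoc, add_comm ((G.M : ℤ) • G.rs a b i)]
  have key2 : ∀ i, G.c10 a b i = G.c00 (a + 1) b (G.R a b i) + (G.M : ℤ) • G.rs a b i := fun i => rfl
  unfold Grid.EdgeV
  constructor
  · rintro ⟨j, hj⟩
    obtain ⟨i, rfl⟩ := hbij j
    refine ⟨i, ?_⟩
    rw [key i, key2 i, edb_shift]
    exact hj
  · rintro ⟨i, hi⟩
    rw [key i, key2 i, edb_shift] at hi
    exact ⟨_, hi⟩

private theorem edb_comm {a b : ℤ} {i : Fin n} (hc : G.Comm a b i) : G.c11 a b i = G.d11 a b i := by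
  unfold Grid.c11 Grid.d11
  rw [hc.1, hc.2]

theorem fib_top (hG : G.Valid) (h : Step s η δ) (a b : ℤ) (x y : ℂ) (hx : 1 - δ ≤ x.im - b) :
    G.Fib s η a b x y ↔ G.EdgeH s a (b + 1) x y := by
  rw [edb_edgeH hG]
  have hs : s (x.im - b) = 1 := h.s_one _ (by have := h.δ_pos; linarith)
  have hsh : ∀ i, G.Comm a b i → G.sh s a b i x = ((1 - s (x.re - a) : ℝ) : ℂ) * gc (G.c01 a b i)
      + ((s (x.re - a) : ℝ) : ℂ) * gc (G.d11 a b i) := by
    intro i hc
    unfold Grid.sh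
    rw [hs, edb_bil_top, edb_comm hc]
  unfold Grid.Fib
  cases hbr : G.br a b with
  | none =>
    have hcomm : ∀ i, G.Comm a b i := by
      cases hcl : G.cl a b with
      | none => exact (hG.reg a b hbr hcl).1
      | some c => exact (hG.clu a b c hbr hcl).comm
    constructor
    · rintro ⟨i, hy⟩
      exact ⟨i, by rw [← hsh i (hcomm i)]; exact hy⟩
    · rintro ⟨i, hy⟩
      exact ⟨i, by rw [hsh i (hcomm i)]; exact hy⟩
  | some d =>
    have hB := (hG.bra a b d hbr).1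
    have hW := Wf_top h (gc d.v0) (gc d.v1) (t1 := x.re - a) hx
    set e : ℂ := ((1 - s (x.re - a) : ℝ) : ℂ) * (I * gc d.v1)
      + ((s (x.re - a) : ℝ) : ℂ) * (I * gc d.v0) with he
    have hp : ((1 - s (x.re - a) : ℝ) : ℂ) * gc (G.c01 a b d.p)
        + ((s (x.re - a) : ℝ) : ℂ) * gc (G.d11 a b d.p) = gc d.y0 + -e := by
      rw [hB.p01, hB.p11', edb_gc_sub, edb_gc_sub, edb_gc_mulI, edb_gc_mulI, he]
      push_cast
      ring
    have hq : ((1 - s (x.re - a) : ℝ) : ℂ) * gc (G.c01 a b d.q)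
        + ((s (x.re - a) : ℝ) : ℂ) * gc (G.d11 a b d.q) = gc d.y0 + e := by
      rw [hB.q01, hB.q11', edb_gc_add, edb_gc_add, edb_gc_mulI, edb_gc_mulI, he]
      push_cast
      ring
    constructor
    · rintro (⟨z, hz, hy⟩ | ⟨i, hi1, hi2, hy⟩)
      · rw [hW] at hz
        rcases sq_eq_sq_iff_eq_or_eq_neg.mp hz with hz | hz
        · refine ⟨d.q, ?_⟩
          rw [hq, ← hz]
          exact hy
        · refine ⟨d.p, ?_⟩
          rw [hp, ← hz]
          exact hy
      · exact ⟨i, by rw [← hsh i (hB.comm i hi1 hi2)]; exact hy⟩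
    · rintro ⟨i, hy⟩
      by_cases hip : i = d.p
      · subst hip
        rw [hp] at hy
        exact Or.inl ⟨-e, by rw [hW, neg_sq], hy⟩
      · by_cases hiq : i = d.q
        · subst hiq
          rw [hq] at hy
          exact Or.inl ⟨e, hW.symm, hy⟩
        · exact Or.inr ⟨i, hip, hiq, by rw [hsh i (hB.comm i hip hiq)]; exact hy⟩

theorem fib_right (hG : G.Valid) (h : Step s η δ) (a b : ℤ) (x y : ℂ) (hx : 1 - δ ≤ x.re - a) :
    G.Fib s η a b x y ↔ G.EdgeV s (a + 1) b x y := by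
  rw [edb_edgeV hG]
  have hs : s (x.re - a) = 1 := h.s_one _ (by have := h.δ_pos; linarith)
  have hsh : ∀ i, G.sh s a b i x = ((1 - s (x.im - b) : ℝ) : ℂ) * gc (G.c10 a b i)
      + ((s (x.im - b) : ℝ) : ℂ) * gc (G.c11 a b i) := by
    intro i
    unfold Grid.sh
    rw [hs, edb_bil_right]
  unfold Grid.Fib
  cases hbr : G.br a b with
  | none =>
    simp only [hsh]
  | some d =>
    have hB := (hG.bra a b d hbr).1
    have hW := Wf_right h (gc d.v0) (gc d.v1) (t2 := x.im - b) hx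
    set e : ℂ := ((1 - s (x.im - b) : ℝ) : ℂ) * gc d.v1
      + ((s (x.im - b) : ℝ) : ℂ) * (I * gc d.v0) with he
    have hp : ((1 - s (x.im - b) : ℝ) : ℂ) * gc (G.c10 a b d.p)
        + ((s (x.im - b) : ℝ) : ℂ) * gc (G.c11 a b d.p) = gc d.y0 + e := by
      rw [hB.p10, hB.p11, edb_gc_add, edb_gc_add, edb_gc_mulI, he]
      push_cast
      ring
    have hq : ((1 - s (x.im - b) : ℝ) : ℂ) * gc (G.c10 a b d.q)
        + ((s (x.im - b) : ℝ) : ℂ) * gc (G.c11 a b d.q) = gc d.y0 + -e := by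
      rw [hB.q10, hB.q11, edb_gc_sub, edb_gc_sub, edb_gc_mulI, he]
      push_cast
      ring
    constructor
    · rintro (⟨z, hz, hy⟩ | ⟨i, _, _, hy⟩)
      · rw [hW] at hz
        rcases sq_eq_sq_iff_eq_or_eq_neg.mp hz with hz | hz
        · refine ⟨d.p, ?_⟩
          rw [hp, ← hz]
          exact hy
        · refine ⟨d.q, ?_⟩
          rw [hq, ← hz]
          exact hy
      · exact ⟨i, by rw [← hsh i]; exact hy⟩
    · rintro ⟨i, hy⟩
      by_cases hip : i = d.p
      · subst hip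
        rw [hp] at hy
        exact Or.inl ⟨e, hW.symm, hy⟩
      · by_cases hiq : i = d.q
        · subst hiq
          rw [hq] at hy
          exact Or.inl ⟨-e, by rw [hW, neg_sq], hy⟩
        · exact Or.inr ⟨i, hip, hiq, by rw [hsh i]; exact hy⟩

end Pool.Agent.Helper42.SA
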