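import Pool.Agent.Helper42.SA.Eda
import Pool.Agent.Helper42.SA.Edb

/-!
# Piece SA-D3: independence of the cell, periodicity

For `|x.re - a| ≤ δ`: `Fib (a-1) b x y ↔ EdgeV a b x y ↔ Fib a b x y` (`fib_right`, `fib_left`); same vertically
(`fib_top`, `fib_bot`).  The floor cell of a point `x` with `a - δ < x.re < a + 1 + δ` has first coordinate
`a - 1`, `a` or `a + 1`, same for the second one.
-/

open Complex
open scoped ContDiff

namespace Pool.Agent.Helper42.SA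

variable {s η : ℝ → ℝ} {δ : ℝ} {n : ℕ} {G : Grid n}

/-- neighbouring cells agree near a vertical grid line -/
private theorem SAc_re (hG : G.Valid) (h : Step s η δ) (a b : ℤ) (x y : ℂ) (h1 : a - δ ≤ x.re)
    (h2 : x.re ≤ a + δ) : G.Fib s η (a - 1) b x y ↔ G.Fib s η a b x y := by
  have h3 := fib_right hG h (a - 1) b x y (by push_cast; linarith)
  rw [sub_add_cancel] at h3
  exact h3.trans (fib_left hG h a b x y (by linarith)).symm

/-- neighbouring cells agree near a horizontal grid line -/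
private theorem SAc_im (hG : G.Valid) (h : Step s η δ) (a b : ℤ) (x y : ℂ) (h1 : b - δ ≤ x.im)
    (h2 : x.im ≤ b + δ) : G.Fib s η a (b - 1) x y ↔ G.Fib s η a b x y := by
  have h3 := fib_top hG h a (b - 1) x y (by push_cast; linarith)
  rw [sub_add_cancel] at h3
  exact h3.trans (fib_bot hG h a b x y (by linarith)).symm

/-- the floor cell is one of three -/
private theorem SAc_floor {δ t : ℝ} (hδ : δ < 1 / 8) (a : ℤ) (h1 : a - δ < t) (h2 : t < a + 1 + δ) :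
    (⌊t⌋ = a - 1 ∧ t ≤ a) ∨ ⌊t⌋ = a ∨ (⌊t⌋ = a + 1 ∧ a + 1 ≤ t) := by
  rcases lt_or_ge t a with h3 | h3
  · left
    refine ⟨?_, h3.le⟩
    rw [Int.floor_eq_iff]
    push_cast
    constructor <;> linarith
  · right
    rcases lt_or_ge t (a + 1) with h4 | h4
    · left
      rw [Int.floor_eq_iff]
      exact ⟨h3, h4⟩
    · right
      refine ⟨?_, h4⟩
      rw [Int.floor_eq_iff]
      push_cast
      constructor <;> linarith

theorem surf_iff (hG : G.Valid) (h : Step s η δ) (a b : ℤ) (x y : ℂ) (h1 : a - δ < x.re)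
    (h2 : x.re < a + 1 + δ) (h3 : b - δ < x.im) (h4 : x.im < b + 1 + δ) :
    (x, y) ∈ G.Surf s η ↔ G.Fib s η a b x y := by
  have hδ := h.δ_lt
  have hδ0 := h.δ_pos
  show G.Fib s η ⌊x.re⌋ ⌊x.im⌋ x y ↔ G.Fib s η a b x y
  have e1 : G.Fib s η ⌊x.re⌋ ⌊x.im⌋ x y ↔ G.Fib s η a ⌊x.im⌋ x y := by
    rcases SAc_floor hδ a h1 h2 with ⟨h5, h6⟩ | h5 | ⟨h5, h6⟩
    · rw [h5]
      exact SAc_re hG h a _ x y h1.le (by linarith)
    · rw [h5]
    · rw [h5]
      have h7 := SAc_re hG h (a + 1) ⌊x.im⌋ x y (by push_cast; linarith) (by push_cast; linarith)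
      rw [add_sub_cancel_right] at h7
      exact h7.symm
  have e2 : G.Fib s η a ⌊x.im⌋ x y ↔ G.Fib s η a b x y := by
    rcases SAc_floor hδ b h3 h4 with ⟨h5, h6⟩ | h5 | ⟨h5, h6⟩
    · rw [h5]
      exact SAc_im hG h a b x y h3.le (by linarith)
    · rw [h5]
    · rw [h5]
      have h7 := SAc_im hG h a (b + 1) x y (by push_cast; linarith) (by push_cast; linarith)
      rw [add_sub_cancel_right] at h7
      exact h7.symm
  exact e1.trans e2

private theorem SAc_per1 {α : Type*} {N : ℤ} {f : ℤ → α} (h : ∀ a, f (a + N) = f a) (k a : ℤ) :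
    f (a + k * N) = f a := by
  induction k using Int.induction_on with
  | zero => simp
  | succ k ih => rw [show a + ((k : ℤ) + 1) * N = (a + k * N) + N by ring, h, ih]
  | pred k ih =>
    have h1 := h (a + (-(k : ℤ) - 1) * N)
    rw [show a + (-(k : ℤ) - 1) * N + N = a + -(k : ℤ) * N by ring] at h1
    rw [← h1, ih]

private theorem SAc_per2 {α : Type*} {N N' : ℤ} {f : ℤ → ℤ → α} (h1 : ∀ a b, f (a + N) b = f a b)
    (h2 : ∀ a b, f a (b + N') = f a b) (k l a b : ℤ) : f (a + k * N) (b + l * N') = f a b := by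
  rw [SAc_per1 (f := fun a => f a (b + l * N')) (fun a => h1 a _) k a]
  exact SAc_per1 (f := fun b => f a b) (fun b => h2 a b) l b

private theorem SAc_mem (M : ℕ) {m : ℂ} (hm : m ∈ lat M M) (y t : ℂ) :
    y + m - t ∈ lat M M ↔ y - t ∈ lat M M := by
  rw [show y + m - t = (y - t) + m by ring]
  exact AddSubgroup.add_mem_cancel_right _ hm

private theorem SAc_shift (hG : G.Valid) (k l : ℤ) {m : ℂ} (hm : m ∈ lat G.M G.M) (a b : ℤ)
    (x y : ℂ) :
    G.Fib s η (a + k * G.N1) (b + l * G.N2) (x + ⟨(k : ℝ) * G.N1, (l : ℝ) * G.N2⟩) (y + m) ↔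
      G.Fib s η a b x y := by
  have hp := hG.per
  have hval := SAc_per2 hp.val1 hp.val2 k l
  have hR := SAc_per2 hp.R1 hp.R2 k l
  have hrs := SAc_per2 hp.rs1 hp.rs2 k l
  have hU := SAc_per2 hp.U1 hp.U2 k l
  have hus := SAc_per2 hp.us1 hp.us2 k l
  have hbr := SAc_per2 hp.br1 hp.br2 k l
  have g00 : G.c00 (a + k * G.N1) (b + l * G.N2) = G.c00 a b := by
    funext i
    simp only [Grid.c00, hval]
  have g10 : G.c10 (a + k * G.N1) (b + l * G.N2) = G.c10 a b := by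
    funext i
    simp only [Grid.c10, add_right_comm _ _ (1 : ℤ), hval, hR, hrs]
  have g01 : G.c01 (a + k * G.N1) (b + l * G.N2) = G.c01 a b := by
    funext i
    simp only [Grid.c01, add_right_comm _ _ (1 : ℤ), hval, hU, hus]
  have g11 : G.c11 (a + k * G.N1) (b + l * G.N2) = G.c11 a b := by
    funext i
    simp only [Grid.c11, add_right_comm _ _ (1 : ℤ), hval, hR, hrs, hU, hus]
  have r1 : (x + ⟨(k : ℝ) * G.N1, (l : ℝ) * G.N2⟩ : ℂ).re - ((a + k * G.N1 : ℤ) : ℝ) = x.re - a := by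
    simp only [Complex.add_re]
    push_cast
    ring
  have r2 : (x + ⟨(k : ℝ) * G.N1, (l : ℝ) * G.N2⟩ : ℂ).im - ((b + l * G.N2 : ℤ) : ℝ) = x.im - b := by
    simp only [Complex.add_im]
    push_cast
    ring
  have hsh : ∀ i, G.sh s (a + k * G.N1) (b + l * G.N2) i (x + ⟨(k : ℝ) * G.N1, (l : ℝ) * G.N2⟩) =
      G.sh s a b i x := by
    intro i
    unfold Grid.sh
    rw [g00, g10, g01, g11, r1, r2]
  unfold Grid.Fib
  rw [hbr, r1, r2]
  cases G.br a b with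
  | none => simp only [hsh, SAc_mem G.M hm]
  | some d => simp only [hsh, SAc_mem G.M hm]

theorem surf_periodic (hG : G.Valid) (h : Step s η δ) {a m : ℂ} (ha : a ∈ lat G.N1 G.N2)
    (hm : m ∈ lat G.M G.M) (x y : ℂ) : (x + a, y + m) ∈ G.Surf s η ↔ (x, y) ∈ G.Surf s η := by
  obtain ⟨k, l, rfl⟩ := ha
  show G.Fib s η ⌊(x + ⟨(k : ℝ) * G.N1, (l : ℝ) * G.N2⟩ : ℂ).re⌋
    ⌊(x + ⟨(k : ℝ) * G.N1, (l : ℝ) * G.N2⟩ : ℂ).im⌋ (x + ⟨(k : ℝ) * G.N1, (l : ℝ) * G.N2⟩) (y + m) ↔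
    G.Fib s η ⌊x.re⌋ ⌊x.im⌋ x y
  have e1 : ⌊(x + ⟨(k : ℝ) * G.N1, (l : ℝ) * G.N2⟩ : ℂ).re⌋ = ⌊x.re⌋ + k * G.N1 := by
    rw [show (x + ⟨(k : ℝ) * G.N1, (l : ℝ) * G.N2⟩ : ℂ).re = x.re + ((k * G.N1 : ℤ) : ℝ) by
      simp only [Complex.add_re]; push_cast; ring, Int.floor_add_intCast]
  have e2 : ⌊(x + ⟨(k : ℝ) * G.N1, (l : ℝ) * G.N2⟩ : ℂ).im⌋ = ⌊x.im⌋ + l * G.N2 := by
    rw [show (x + ⟨(k : ℝ) * G.N1, (l : ℝ) * G.N2⟩ : ℂ).im = x.im + ((l * G.N2 : ℤ) : ℝ) by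
      simp only [Complex.add_im]; push_cast; ring, Int.floor_add_intCast]
  rw [e1, e2]
  exact SAc_shift hG k l hm _ _ x y

end Pool.Agent.Helper42.SA
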