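import Pool.Agent.Helper42.SA.Snd

/-!
# From a checked list certificate to the multisection
-/

namespace Pool.Agent.Helper42.SA

lemma toNat_emod_eq {N e : ℕ} (he : e < N) (a : ℤ) : (a % (N : ℤ)).toNat = e ↔ (N : ℤ) ∣ a - e := by
  have hN : 0 < N := by omega
  have h0 : 0 ≤ a % (N : ℤ) := Int.emod_nonneg _ (by omega)
  have h1 : (e : ℤ) % (N : ℤ) = e := Int.emod_eq_of_lt (by omega) (by exact_mod_cast he)
  constructor
  · intro h
    have h2 : a % (N : ℤ) = (e : ℤ) % (N : ℤ) := by rw [h1]; omega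
    exact Int.dvd_self_sub_of_emod_eq (by rw [h2, h1])
  · intro h
    have h2 : a % (N : ℤ) = (e : ℤ) % (N : ℤ) :=
      Int.emod_eq_emod_iff_emod_sub_eq_zero.2 (Int.emod_eq_zero_of_dvd h)
    rw [h2, h1]
    exact Int.toNat_natCast e

lemma lookup_two {α : Type*} {p q x : ℕ × ℕ} {c d : α} :
    List.lookup x [(p, c), (q, d)] ≠ none ↔ x = p ∨ x = q := by
  rw [List.lookup_cons, List.lookup_cons, List.lookup_nil]
  by_cases h1 : x = p
  · have : (x == p) = true := by simpa using h1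
    rw [this]
    simp [h1]
  · have h1' : (x == p) = false := by simpa using h1
    rw [h1']
    by_cases h2 : x = q
    · have : (x == q) = true := by simpa using h2
      rw [this]
      simp [h2]
    · have h2' : (x == q) = false := by simpa using h2
      rw [h2']
      simp [h1, h2]

lemma lookup_two_eq {α : Type*} {p q x : ℕ × ℕ} {c d e : α}
    (h : List.lookup x [(p, c), (q, d)] = some e) : e = c ∨ e = d := by
  rw [List.lookup_cons, List.lookup_cons, List.lookup_nil] at h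
  cases h1 : (x == p)
  · rw [h1] at h
    cases h2 : (x == q)
    · rw [h2] at h
      simp at h
    · rw [h2] at h
      right
      simpa using h.symm
  · rw [h1] at h
    left
    simpa using h.symm

theorem multisection_of_cert {n r : ℕ} [NeZero n] {C : Cert n} (h : C.Ok) {e₁ f₁ e₂ f₂ a₁ b₁ a₂ b₂ : ℕ}
    {c₁ c₂ : Cl n} {d₁ d₂ : Br n}
    (hcls : C.cls = [((e₁, f₁), c₁), ((e₂, f₂), c₂)]) (hbrs : C.brs = [((a₁, b₁), d₁), ((a₂, b₂), d₂)])
    (hlt : e₁ < C.N1 ∧ f₁ < C.N2 ∧ e₂ < C.N1 ∧ f₂ < C.N2 ∧ a₁ < C.N1 ∧ b₁ < C.N2 ∧ a₂ < C.N1 ∧ b₂ < C.N2)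
    (hcc : (e₁, f₁) ≠ (e₂, f₂)) (hbb : (a₁, b₁) ≠ (a₂, b₂))
    (hr : c₁.lab.card = r ∧ c₂.lab.card = r) {i₀ : Fin n} {w : Fin n → List Bool}
    (hw : C.grid.Conn i₀ w) :
    ∃ K S, Multisection C.N1 C.N2 C.M K n r S (ctr e₁ f₁) (ctr e₂ f₂) (ctr a₁ b₁) (ctr a₂ b₂) := by
  obtain ⟨l1, l2, l3, l4, l5, l6, l7, l8⟩ := hlt
  have key : ∀ (a b : ℤ) (e f : ℕ), e < C.N1 → f < C.N2 →
      (((a % C.N1).toNat, (b % C.N2).toNat) = (e, f) ↔ Cong C.N1 C.N2 a b e f) := by
    intro a b e f he hf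
    rw [Prod.mk.injEq, toNat_emod_eq he, toNat_emod_eq hf]
    rfl
  have key2 : ∀ e f e' f' : ℕ, e < C.N1 → f < C.N2 → e' < C.N1 → f' < C.N2 → (e, f) ≠ (e', f') →
      ¬ Cong C.N1 C.N2 e f e' f' := by
    intro e f e' f' he hf he' hf' hne hc
    have h1 := (key e f e' f' he' hf').2 hc
    apply hne
    rw [← h1]
    have h2 : ((e : ℤ) % C.N1).toNat = e := by
      rw [Int.emod_eq_of_lt (by omega) (by exact_mod_cast he)]
      exact Int.toNat_natCast e
    have h3 : ((f : ℤ) % C.N2).toNat = f := by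
      rw [Int.emod_eq_of_lt (by omega) (by exact_mod_cast hf)]
      exact Int.toNat_natCast f
    rw [h2, h3]
  refine multisection_of_valid h.valid ?_ ?_ ?_ (key2 _ _ _ _ l1 l2 l3 l4 hcc) (key2 _ _ _ _ l5 l6 l7 l8 hbb) hw
  · intro a b
    change C.cls.lookup ((a % C.N1).toNat, (b % C.N2).toNat) ≠ none ↔ _
    rw [hcls, lookup_two, key _ _ _ _ l1 l2, key _ _ _ _ l3 l4]
    rfl
  · intro a b
    change C.brs.lookup ((a % C.N1).toNat, (b % C.N2).toNat) ≠ none ↔ _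
    rw [hbrs, lookup_two, key _ _ _ _ l5 l6, key _ _ _ _ l7 l8]
    rfl
  · intro a b c hc
    change C.cls.lookup ((a % C.N1).toNat, (b % C.N2).toNat) = some c at hc
    rw [hcls] at hc
    rcases lookup_two_eq hc with rfl | rfl
    · exact hr.1
    · exact hr.2

end Pool.Agent.Helper42.SA
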