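import Pool.Agent.Helper42.SA.DfG
import Pool.Agent.Helper42.SA.Main

/-!
# From a valid grid certificate to the multisection, any number of clusters and branch points
-/

open Complex
open scoped ContDiff

namespace Pool.Agent.Helper42.SA

variable {n : ℕ} {G : Grid n}

lemma Cong.symm {N1 N2 : ℕ} {a b e f : ℤ} (h : Cong N1 N2 a b e f) : Cong N1 N2 e f a b := by
  obtain ⟨h1, h2⟩ := h
  exact ⟨by simpa using (Int.dvd_neg.2 h1 : (N1 : ℤ) ∣ -(a - e)), by simpa using (Int.dvd_neg.2 h2 : (N2 : ℤ) ∣ -(b - f))⟩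

lemma Cong.trans {N1 N2 : ℕ} {a b e f c d : ℤ} (h : Cong N1 N2 a b e f) (h' : Cong N1 N2 e f c d) :
    Cong N1 N2 a b c d := by
  obtain ⟨h1, h2⟩ := h
  obtain ⟨h3, h4⟩ := h'
  exact ⟨by simpa using dvd_add h1 h3, by simpa using dvd_add h2 h4⟩

lemma Cong.refl {N1 N2 : ℕ} (a b : ℤ) : Cong N1 N2 a b a b := ⟨by simp, by simp⟩

theorem multi_of_valid (hG : G.Valid) {lc : List ((ℤ × ℤ) × ℕ)} {lb : List (ℤ × ℤ)}
    (hcl : ∀ a b, G.cl a b ≠ none ↔ ∃ e ∈ lc, Cong G.N1 G.N2 a b e.1.1 e.1.2)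
    (hbr : ∀ a b, G.br a b ≠ none ↔ ∃ e ∈ lb, Cong G.N1 G.N2 a b e.1 e.2)
    (hr : ∀ e ∈ lc, ∀ c, G.cl e.1.1 e.1.2 = some c → c.lab.card = e.2)
    (hcc : lc.Pairwise fun e f => ¬ Cong G.N1 G.N2 e.1.1 e.1.2 f.1.1 f.1.2)
    (hbb : lb.Pairwise fun e f => ¬ Cong G.N1 G.N2 e.1 e.2 f.1 f.2) :
    ∃ K S, Multi G.N1 G.N2 G.M K n (lc.map fun e => (ctr e.1.1 e.1.2, e.2)) (lb.map fun e => ctr e.1 e.2) S ∧
      ((∃ (i₀ : Fin n) (w : Fin n → List Bool), G.Conn i₀ w) →
        Joined G.N1 G.N2 G.M ((lc.map fun e => ctr e.1.1 e.1.2) ++ lb.map fun e => ctr e.1 e.2) S) := by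
  obtain ⟨s, η, δ, h⟩ := exists_step
  obtain ⟨B, hB⟩ := sh_det (s := s) hG h
  obtain ⟨B', hB'⟩ := regular_bra (G := G) hG h
  set K : ℝ := max (max B B') 0 + 1 with hKd
  have hK : B < K := by
    have := le_max_left (max B B') 0
    have := le_max_left B B'
    linarith
  have hK' : B' < K := by
    have := le_max_left (max B B') 0
    have := le_max_right B B'
    linarith
  have hK0 : 0 < K := by
    have := le_max_right (max B B') 0
    linarith
  have brno : ∀ a b, G.cl a b ≠ none → G.br a b = none := by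
    intro a b hc
    by_contra hne
    obtain ⟨d, hd⟩ := Option.ne_none_iff_exists'.1 hne
    exact hc (hG.bra a b d hd).2
  have hcl' : ∀ e ∈ lc, G.cl e.1.1 e.1.2 ≠ none := fun e he => (hcl _ _).2 ⟨e, he, Cong.refl _ _⟩
  have hbr' : ∀ e ∈ lb, G.br e.1 e.2 ≠ none := fun e he => (hbr _ _).2 ⟨e, he, Cong.refl _ _⟩
  have hmap : (lc.map fun e => (ctr e.1.1 e.1.2, e.2)).map Prod.fst = lc.map fun e => ctr e.1.1 e.1.2 := by
    rw [List.map_map]
    rfl
  refine ⟨K, G.Surf s η, ?_, ?_⟩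
  · refine { hp := hG.hN1, hq := hG.hN2, hM := hG.hM, hK := hK0,
             periodic := ?_, inequiv := ?_, cluster := ?_, branch := ?_, regular := ?_ }
    · intro a ha m hm x y
      exact surf_periodic hG h ha hm x y
    · rw [hmap, List.pairwise_append]
      refine ⟨?_, ?_, ?_⟩
      · rw [List.pairwise_map]
        refine hcc.imp ?_
        intro e f hef hmem
        exact hef (ctr_sub_mem.1 hmem)
      · rw [List.pairwise_map]
        refine hbb.imp ?_
        intro e f hef hmem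
        exact hef (ctr_sub_mem.1 hmem)
      · intro x hx y hy hmem
        obtain ⟨e, he, rfl⟩ := List.mem_map.1 hx
        obtain ⟨f, hf, rfl⟩ := List.mem_map.1 hy
        have h1 := ctr_sub_mem.1 hmem
        have h2 : G.br e.1.1 e.1.2 ≠ none := (hbr _ _).2 ⟨f, hf, h1⟩
        exact h2 (brno _ _ (hcl' e he))
    · intro c hc
      obtain ⟨e, he, rfl⟩ := List.mem_map.1 hc
      obtain ⟨c, hcs⟩ := Option.ne_none_iff_exists'.1 (hcl' e he)
      have := clusterAt hG h hB hK (brno _ _ (hcl' e he)) hcs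
      rwa [hr e he c hcs] at this
    · intro c hc
      obtain ⟨e, he, rfl⟩ := List.mem_map.1 hc
      obtain ⟨c, hcs⟩ := Option.ne_none_iff_exists'.1 (hbr' e he)
      exact branchAt hG h hK0 hcs
    · intro x hx
      rw [hmap] at hx
      set a := ⌊x.re⌋ with ha
      set b := ⌊x.im⌋ with hb
      cases hbo : G.br a b with
      | some d =>
        have h1 : G.br a b ≠ none := by rw [hbo]; simp
        have h2 : x ≠ ctr a b := by
          obtain ⟨e, he, h3⟩ := (hbr a b).1 h1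
          intro hxe
          apply hx (ctr e.1 e.2) (List.mem_append.2 (Or.inr (List.mem_map.2 ⟨e, he, rfl⟩)))
          rw [hxe, ctr_sub_mem]
          exact h3
        exact hB' K hK' x d hbo h2
      | none =>
        cases hco : G.cl a b with
        | none => exact regular_reg hG h hB hK hbo hco
        | some c =>
          have h1 : G.cl a b ≠ none := by rw [hco]; simp
          have h2 : x ≠ ctr a b := by
            obtain ⟨e, he, h3⟩ := (hcl a b).1 h1
            intro hxe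
            apply hx (ctr e.1.1 e.1.2) (List.mem_append.2 (Or.inl (List.mem_map.2 ⟨e, he, rfl⟩)))
            rw [hxe, ctr_sub_mem]
            exact h3
          exact regular_clu hG h hB hK hbo hco h2
  · rintro ⟨i₀, w, hw⟩ y y' hy hy'
    obtain ⟨γ, h1, h2, h3, h4, h5⟩ := connected hG h hw y y' hy hy'
    refine ⟨γ, h1, fun t ht => ⟨(h2 t ht).1, ?_⟩, h3, h4, h5⟩
    intro c hc
    rcases List.mem_append.1 hc with hc | hc
    · obtain ⟨e, he, rfl⟩ := List.mem_map.1 hc
      exact grid_line_not_ctr (h2 t ht).2 _ _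
    · obtain ⟨e, he, rfl⟩ := List.mem_map.1 hc
      exact grid_line_not_ctr (h2 t ht).2 _ _

end Pool.Agent.Helper42.SA
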