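import Pool.Agent.Helper42.SA.Fnl
import Pool.Agent.Helper42.SA.MainG

/-!
# From a checked list certificate to the multisection, any number of clusters and branch points
-/

namespace Pool.Agent.Helper42.SA

lemma lookup_ne_none {α : Type*} {l : List ((ℕ × ℕ) × α)} {x : ℕ × ℕ} :
    List.lookup x l ≠ none ↔ ∃ e ∈ l, x = e.1 := by
  induction l with
  | nil => simp [List.lookup_nil]
  | cons a l ih =>
    obtain ⟨k, v⟩ := a
    rw [List.lookup_cons]
    by_cases h1 : x = k
    · have : (x == k) = true := by simpa using h1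
      rw [this]
      simp [h1]
    · have h1' : (x == k) = false := by simpa using h1
      rw [h1']
      simp only [ih, List.mem_cons, exists_eq_or_imp, h1, false_or]

lemma lookup_mem {α : Type*} {l : List ((ℕ × ℕ) × α)} {x : ℕ × ℕ} {c : α}
    (h : List.lookup x l = some c) : (x, c) ∈ l := by
  induction l with
  | nil => simp [List.lookup_nil] at h
  | cons a l ih =>
    obtain ⟨k, v⟩ := a
    rw [List.lookup_cons] at h
    by_cases h1 : x = k
    · have : (x == k) = true := by simpa using h1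
      rw [this] at h
      simp only [Option.some.injEq] at h
      subst h1 h
      exact List.mem_cons_self
    · have h1' : (x == k) = false := by simpa using h1
      rw [h1'] at h
      exact List.mem_cons_of_mem _ (ih h)

lemma eq_of_mem_of_nodup {α : Type*} {l : List ((ℕ × ℕ) × α)} (hn : (l.map Prod.fst).Nodup)
    {x : ℕ × ℕ} {c d : α} (hc : (x, c) ∈ l) (hd : (x, d) ∈ l) : c = d := by
  induction l with
  | nil => simp at hc
  | cons a l ih =>
    rw [List.map_cons, List.nodup_cons] at hn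
    rcases List.mem_cons.1 hc with h1 | h1 <;> rcases List.mem_cons.1 hd with h2 | h2
    · rw [← h1] at h2
      simpa using h2.symm
    · exact absurd (List.mem_map.2 ⟨(x, d), h2, by rw [← h1]⟩) hn.1
    · exact absurd (List.mem_map.2 ⟨(x, c), h1, by rw [← h2]⟩) hn.1
    · exact ih hn.2 h1 h2

theorem multi_of_cert {n : ℕ} [NeZero n] {C : Cert n} (h : C.Ok)
    (hc : ∀ e ∈ C.cls, e.1.1 < C.N1 ∧ e.1.2 < C.N2) (hb : ∀ e ∈ C.brs, e.1.1 < C.N1 ∧ e.1.2 < C.N2)
    (hcn : (C.cls.map Prod.fst).Nodup) (hbn : (C.brs.map Prod.fst).Nodup) :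
    ∃ K S, Multi C.N1 C.N2 C.M K n (C.cls.map fun e => (ctr e.1.1 e.1.2, e.2.lab.card))
        (C.brs.map fun e => ctr e.1.1 e.1.2) S ∧
      ((∃ (i₀ : Fin n) (w : Fin n → List Bool), C.grid.Conn i₀ w) →
        Joined C.N1 C.N2 C.M ((C.cls.map fun e => ctr e.1.1 e.1.2) ++ C.brs.map fun e => ctr e.1.1 e.1.2) S) := by
  have key : ∀ (a b : ℤ) (e f : ℕ), e < C.N1 → f < C.N2 →
      (((a % C.N1).toNat, (b % C.N2).toNat) = (e, f) ↔ Cong C.N1 C.N2 a b e f) := by
    intro a b e f he hf
    rw [Prod.mk.injEq, toNat_emod_eq he, toNat_emod_eq hf]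
    rfl
  have key2 : ∀ e f e' f' : ℕ, e < C.N1 → f < C.N2 → e' < C.N1 → f' < C.N2 → (e, f) ≠ (e', f') →
      ¬ Cong C.N1 C.N2 e f e' f' := by
    intro e f e' f' he hf he' hf' hne hc
    have h1 := (key e f e' f' he' hf').2 hc
    apply hne
    rw [← h1]
    have h2 : ((e : ℤ) % C.N1).toNat = e := by
      rw [Int.emod_eq_of_lt (by omega) (by exact_mod_cast he)]
      exact Int.toNat_natCast e
    have h3 : ((f : ℤ) % C.N2).toNat = f := by
      rw [Int.emod_eq_of_lt (by omega) (by exact_mod_cast hf)]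
      exact Int.toNat_natCast f
    rw [h2, h3]
  have hself : ∀ e f : ℕ, e < C.N1 → f < C.N2 →
      ((((e : ℤ) % C.N1).toNat, ((f : ℤ) % C.N2).toNat) : ℕ × ℕ) = (e, f) := by
    intro e f he hf
    exact (key e f e f he hf).2 (Cong.refl _ _)
  have main := multi_of_valid (G := C.grid) h.valid
    (lc := C.cls.map fun e => (((e.1.1 : ℤ), (e.1.2 : ℤ)), e.2.lab.card))
    (lb := C.brs.map fun e => ((e.1.1 : ℤ), (e.1.2 : ℤ))) ?_ ?_ ?_ ?_ ?_
  · obtain ⟨K, S, h1, h2⟩ := main
    refine ⟨K, S, ?_, ?_⟩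
    · simp only [List.map_map, Function.comp_def] at h1
      exact h1
    · simp only [List.map_map, Function.comp_def] at h2
      exact h2
  · intro a b
    change C.cls.lookup ((a % C.N1).toNat, (b % C.N2).toNat) ≠ none ↔ _
    rw [lookup_ne_none]
    constructor
    · rintro ⟨e, he, hx⟩
      refine ⟨_, List.mem_map.2 ⟨e, he, rfl⟩, ?_⟩
      exact (key _ _ _ _ (hc e he).1 (hc e he).2).1 hx
    · rintro ⟨e', he', hx⟩
      obtain ⟨e, he, rfl⟩ := List.mem_map.1 he'
      exact ⟨e, he, (key _ _ _ _ (hc e he).1 (hc e he).2).2 hx⟩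
  · intro a b
    change C.brs.lookup ((a % C.N1).toNat, (b % C.N2).toNat) ≠ none ↔ _
    rw [lookup_ne_none]
    constructor
    · rintro ⟨e, he, hx⟩
      refine ⟨_, List.mem_map.2 ⟨e, he, rfl⟩, ?_⟩
      exact (key _ _ _ _ (hb e he).1 (hb e he).2).1 hx
    · rintro ⟨e', he', hx⟩
      obtain ⟨e, he, rfl⟩ := List.mem_map.1 he'
      exact ⟨e, he, (key _ _ _ _ (hb e he).1 (hb e he).2).2 hx⟩
  · intro e' he' c hcs
    obtain ⟨e, he, rfl⟩ := List.mem_map.1 he'
    change C.cls.lookup (((e.1.1 : ℤ) % C.N1).toNat, ((e.1.2 : ℤ) % C.N2).toNat) = some c at hcs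
    rw [hself _ _ (hc e he).1 (hc e he).2] at hcs
    have h1 : c = e.2 := eq_of_mem_of_nodup hcn (lookup_mem hcs) (by simpa using he)
    rw [h1]
  · rw [List.pairwise_map]
    have h1 := List.pairwise_map.1 hcn
    refine h1.imp_of_mem ?_
    intro e f he hf hne
    exact key2 _ _ _ _ (hc e he).1 (hc e he).2 (hc f hf).1 (hc f hf).2 (by simpa [Prod.ext_iff] using hne)
  · rw [List.pairwise_map]
    have h1 := List.pairwise_map.1 hbn
    refine h1.imp_of_mem ?_
    intro e f he hf hne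
    exact key2 _ _ _ _ (hb e he).1 (hb e he).2 (hb f hf).1 (hb f hf).2 (by simpa [Prod.ext_iff] using hne)

end Pool.Agent.Helper42.SA
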