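import Pool.Agent.Helper42.SA.Df

/-!
# Grid certificates for multisections

A grid certificate describes an `n`-valued function from the torus `ℝ² / (N1 ℤ × N2 ℤ)` to the torus
`ℂ / M ℤ[i]` by its values at the integer points and by the way in which the values are continued along the edges
of the unit grid.  All data are Gaussian integers.
-/

open Complex
open scoped ContDiff

namespace Pool.Agent.Helper42.SA

/-- a Gaussian integer as a complex number -/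
def gc (z : ℤ × ℤ) : ℂ := ⟨(z.1 : ℝ), (z.2 : ℝ)⟩

/-- multiplication by `i` -/
def mulI (z : ℤ × ℤ) : ℤ × ℤ := (-z.2, z.1)

/-- squared norm -/
def nsq (z : ℤ × ℤ) : ℤ := z.1 ^ 2 + z.2 ^ 2

/-- bilinear interpolation of the four corner values `p` (00), `q` (10), `r` (01), `t` (11) -/
def bil (u w : ℝ) (p q r t : ℂ) : ℂ :=
  (((1 - u) * (1 - w) : ℝ) : ℂ) * p + ((u * (1 - w) : ℝ) : ℂ) * q +
    (((1 - u) * w : ℝ) : ℂ) * r + ((u * w : ℝ) : ℂ) * t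

/-- a branch cell: two labels, the centre value, and the half differences `v0`, `v1` at the corners 00 and 10 -/
structure Br (n : ℕ) where
  p : Fin n
  q : Fin n
  y0 : ℤ × ℤ
  v0 : ℤ × ℤ
  v1 : ℤ × ℤ

/-- a cluster cell: the labels of the cluster, the slopes, and twice the centre value -/
structure Cl (n : ℕ) where
  lab : Finset (Fin n)
  A : Fin n → ℤ × ℤ
  y2 : ℤ × ℤ

/-- the data of a grid certificate -/
structure Grid (n : ℕ) where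
  N1 : ℕ
  N2 : ℕ
  M : ℕ
  val : ℤ → ℤ → Fin n → ℤ × ℤ
  R : ℤ → ℤ → Fin n → Fin n
  rs : ℤ → ℤ → Fin n → ℤ × ℤ
  U : ℤ → ℤ → Fin n → Fin n
  us : ℤ → ℤ → Fin n → ℤ × ℤ
  br : ℤ → ℤ → Option (Br n)
  cl : ℤ → ℤ → Option (Cl n)

namespace Grid

variable {n : ℕ} (G : Grid n)

/-- value of the sheet `i` at the corner 00 of the cell `(a, b)` -/
def c00 (a b : ℤ) (i : Fin n) : ℤ × ℤ := G.val a b i

/-- value of the sheet `i` at the corner 10 -/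
def c10 (a b : ℤ) (i : Fin n) : ℤ × ℤ := G.val (a + 1) b (G.R a b i) + (G.M : ℤ) • G.rs a b i

/-- value of the sheet `i` at the corner 01 -/
def c01 (a b : ℤ) (i : Fin n) : ℤ × ℤ := G.val a (b + 1) (G.U a b i) + (G.M : ℤ) • G.us a b i

/-- value of the sheet `i` at the corner 11, going right and then up -/
def c11 (a b : ℤ) (i : Fin n) : ℤ × ℤ :=
  G.val (a + 1) (b + 1) (G.U (a + 1) b (G.R a b i)) +
    (G.M : ℤ) • (G.rs a b i + G.us (a + 1) b (G.R a b i))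

/-- value of the sheet `i` at the corner 11, going up and then right -/
def d11 (a b : ℤ) (i : Fin n) : ℤ × ℤ :=
  G.val (a + 1) (b + 1) (G.R a (b + 1) (G.U a b i)) +
    (G.M : ℤ) • (G.us a b i + G.rs a (b + 1) (G.U a b i))

/-- right-then-up agrees with up-then-right for the sheet `i` -/
def Comm (a b : ℤ) (i : Fin n) : Prop :=
  G.U (a + 1) b (G.R a b i) = G.R a (b + 1) (G.U a b i) ∧
    G.rs a b i + G.us (a + 1) b (G.R a b i) = G.us a b i + G.rs a (b + 1) (G.U a b i)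

/-- the bilinear interpolation of the four differences never meets `M ℤ[i]` -/
def Avoid (M : ℕ) (p q r t : ℤ × ℤ) : Prop :=
  ∀ u w : ℝ, 0 ≤ u → u ≤ 1 → 0 ≤ w → w ≤ 1 →
    bil u w (gc p) (gc q) (gc r) (gc t) ∉ lat M M

/-- the sheets `i` and `j` are disjoint over the cell `(a, b)` -/
def Disj (a b : ℤ) (i j : Fin n) : Prop :=
  Avoid G.M (G.c00 a b i - G.c00 a b j) (G.c10 a b i - G.c10 a b j) (G.c01 a b i - G.c01 a b j)
    (G.c11 a b i - G.c11 a b j)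

/-- conditions for a cell which is neither a branch cell nor a cluster cell -/
def RegCell (a b : ℤ) : Prop :=
  (∀ i, G.Comm a b i) ∧ ∀ i j, i ≠ j → G.Disj a b i j

/-- conditions for a cluster cell -/
structure ClCell (a b : ℤ) (c : Cl n) : Prop where
  comm : ∀ i, G.Comm a b i
  disj : ∀ i j, i ≠ j → ¬ (i ∈ c.lab ∧ j ∈ c.lab) → G.Disj a b i j
  e10 : ∀ i ∈ c.lab, G.c10 a b i = G.c00 a b i + c.A i
  e01 : ∀ i ∈ c.lab, G.c01 a b i = G.c00 a b i + mulI (c.A i)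
  e11 : ∀ i ∈ c.lab, G.c11 a b i = G.c00 a b i + c.A i + mulI (c.A i)
  ey : ∀ i ∈ c.lab, (2 : ℤ) • G.c00 a b i + c.A i + mulI (c.A i) = c.y2
  inj : ∀ i ∈ c.lab, ∀ j ∈ c.lab, i ≠ j → c.A i ≠ c.A j ∧ nsq (c.A i - c.A j) < 2 * (G.M : ℤ) ^ 2

/-- conditions for a branch cell; here `v2 = i v0`, `v3 = i v1` -/
structure BrCell (a b : ℤ) (d : Br n) : Prop where
  pq : d.p ≠ d.q
  p00 : G.c00 a b d.p = d.y0 + d.v0
  q00 : G.c00 a b d.q = d.y0 - d.v0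
  p10 : G.c10 a b d.p = d.y0 + d.v1
  q10 : G.c10 a b d.q = d.y0 - d.v1
  p01 : G.c01 a b d.p = d.y0 - mulI d.v1
  q01 : G.c01 a b d.q = d.y0 + mulI d.v1
  p11 : G.c11 a b d.p = d.y0 + mulI d.v0
  q11 : G.c11 a b d.q = d.y0 - mulI d.v0
  p11' : G.d11 a b d.p = d.y0 - mulI d.v0
  q11' : G.d11 a b d.q = d.y0 + mulI d.v0
  /-- `Re (conj v0 * v1) > 0` -/
  re_pos : 0 < d.v0.1 * d.v1.1 + d.v0.2 * d.v1.2
  /-- `Im (conj v0 * v1) > 0` -/
  im_pos : 0 < d.v0.1 * d.v1.2 - d.v0.2 * d.v1.1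
  small0 : 4 * nsq d.v0 < (G.M : ℤ) ^ 2
  small1 : 4 * nsq d.v1 < (G.M : ℤ) ^ 2
  comm : ∀ i, i ≠ d.p → i ≠ d.q → G.Comm a b i
  const : ∀ i, i ≠ d.p → i ≠ d.q →
    G.c10 a b i = G.c00 a b i ∧ G.c01 a b i = G.c00 a b i ∧ G.c11 a b i = G.c00 a b i
  far : ∀ i, i ≠ d.p → i ≠ d.q → ∀ m : ℤ × ℤ,
    nsq d.v0 < nsq (G.c00 a b i - d.y0 - (G.M : ℤ) • m) ∧
      nsq d.v1 < nsq (G.c00 a b i - d.y0 - (G.M : ℤ) • m)
  disj : ∀ i j, i ≠ d.p → i ≠ d.q → j ≠ d.p → j ≠ d.q → i ≠ j → G.Disj a b i j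

/-- the periodicity of all data -/
structure Periodic : Prop where
  val1 : ∀ a b, G.val (a + G.N1) b = G.val a b
  val2 : ∀ a b, G.val a (b + G.N2) = G.val a b
  R1 : ∀ a b, G.R (a + G.N1) b = G.R a b
  R2 : ∀ a b, G.R a (b + G.N2) = G.R a b
  rs1 : ∀ a b, G.rs (a + G.N1) b = G.rs a b
  rs2 : ∀ a b, G.rs a (b + G.N2) = G.rs a b
  U1 : ∀ a b, G.U (a + G.N1) b = G.U a b
  U2 : ∀ a b, G.U a (b + G.N2) = G.U a b
  us1 : ∀ a b, G.us (a + G.N1) b = G.us a b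
  us2 : ∀ a b, G.us a (b + G.N2) = G.us a b
  br1 : ∀ a b, G.br (a + G.N1) b = G.br a b
  br2 : ∀ a b, G.br a (b + G.N2) = G.br a b
  cl1 : ∀ a b, G.cl (a + G.N1) b = G.cl a b
  cl2 : ∀ a b, G.cl a (b + G.N2) = G.cl a b

/-- all conditions on a grid certificate -/
structure Valid : Prop where
  hN1 : 0 < G.N1
  hN2 : 0 < G.N2
  hM : 0 < G.M
  per : G.Periodic
  injR : ∀ a b, Function.Injective (G.R a b)
  injU : ∀ a b, Function.Injective (G.U a b)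
  reg : ∀ a b, G.br a b = none → G.cl a b = none → G.RegCell a b
  clu : ∀ a b c, G.br a b = none → G.cl a b = some c → G.ClCell a b c
  bra : ∀ a b d, G.br a b = some d → G.BrCell a b d ∧ G.cl a b = none

/-! ## The surface -/

variable (s η : ℝ → ℝ)

/-- the sheet `i` over the cell `(a, b)`, extended to the whole plane -/
noncomputable def sh (a b : ℤ) (i : Fin n) (x : ℂ) : ℂ :=
  bil (s (x.re - a)) (s (x.im - b)) (gc (G.c00 a b i)) (gc (G.c10 a b i)) (gc (G.c01 a b i))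
    (gc (G.c11 a b i))

end Grid

/-- the function `W` of a branch cell: the two special sheets are `y₀ ± √W` -/
noncomputable def Wf (s η : ℝ → ℝ) (v0 v1 : ℂ) (t1 t2 : ℝ) : ℂ :=
  bil (s t1) (s t2) (v0 ^ 2) (v1 ^ 2) (-v1 ^ 2) (-v0 ^ 2)
    - ((η t2 * (s t1 * (1 - s t1)) : ℝ) : ℂ) * (v0 - v1) ^ 2
    + ((η (1 - t2) * (s t1 * (1 - s t1)) : ℝ) : ℂ) * (v0 - v1) ^ 2
    - ((η t1 * (s t2 * (1 - s t2)) : ℝ) : ℂ) * (v0 + I * v1) ^ 2
    - ((η (1 - t1) * (s t2 * (1 - s t2)) : ℝ) : ℂ) * (v1 - I * v0) ^ 2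

namespace Grid

variable {n : ℕ} (G : Grid n) (s η : ℝ → ℝ)

/-- the fibre of the surface over `x`, according to the cell `(a, b)` -/
def Fib (a b : ℤ) (x y : ℂ) : Prop :=
  match G.br a b with
  | none => ∃ i, y - G.sh s a b i x ∈ lat G.M G.M
  | some d =>
    (∃ z, z ^ 2 = Wf s η (gc d.v0) (gc d.v1) (x.re - a) (x.im - b) ∧
        y - (gc d.y0 + z) ∈ lat G.M G.M) ∨
      ∃ i, i ≠ d.p ∧ i ≠ d.q ∧ y - G.sh s a b i x ∈ lat G.M G.M

/-- the surface -/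
def Surf : Set (ℂ × ℂ) := {z | G.Fib s η ⌊z.1.re⌋ ⌊z.1.im⌋ z.1 z.2}

end Grid

/-- the smooth step functions: `s` is a step from 0 to 1 over `[2δ, 1-2δ]`, equal to the identity near `1/2`;
`η` is a step from 1 to 0 over `[δ, 2δ]` -/
structure Step (s η : ℝ → ℝ) (δ : ℝ) : Prop where
  δ_pos : 0 < δ
  δ_lt : δ < 1 / 8
  s_smooth : ContDiff ℝ ∞ s
  s_zero : ∀ t, t ≤ 2 * δ → s t = 0
  s_one : ∀ t, 1 - 2 * δ ≤ t → s t = 1
  s_nonneg : ∀ t, 0 ≤ s t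
  s_le : ∀ t, s t ≤ 1
  s_mid : ∀ t, s t = 1 / 2 → t = 1 / 2
  s_lin : ∀ t, |t - 1 / 2| < δ → s t = t
  η_smooth : ContDiff ℝ ∞ η
  η_one : ∀ t, t ≤ δ → η t = 1
  η_zero : ∀ t, 2 * δ ≤ t → η t = 0
  η_nonneg : ∀ t, 0 ≤ η t
  η_le : ∀ t, η t ≤ 1

end Pool.Agent.Helper42.SA
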