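import Pool.Agent.Helper42.SA.Gr

/-!
# Piece SA-B: integer test for `Avoid`

`avoidB M p q r t` is computed in the kernel (about 10^5 times), so it has to be cheap.

Soundness.  For `u, w ∈ [0, 1]` the point `bil u w p q r t` is a convex combination of the four points.
(1) `strip`: if `M k < x-coordinates < M (k+1)` for all four points (`k = p.1 / M`) there is no lattice point, same
for the `y`-coordinates.  (2) otherwise every lattice point `m = (M k, M l)` in the convex hull lies in the bounding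
box, and `sepB (p - m) ..` exhibits a linear functional which is positive at the four points `p - m, ..`.
-/

open Complex
open scoped ContDiff

namespace Pool.Agent.Helper42.SA

/-- scalar product -/
def dt (x y : ℤ × ℤ) : ℤ := x.1 * y.1 + x.2 * y.2

/-- the functional `dt f` is positive at the four points -/
def posB (f p q r t : ℤ × ℤ) : Bool :=
  decide (0 < dt f p) && decide (0 < dt f q) && decide (0 < dt f r) && decide (0 < dt f t)

/-- rotation by a quarter turn of `x - y` -/
def rt (x y : ℤ × ℤ) : ℤ × ℤ := (y.2 - x.2, x.1 - y.1)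

/-- some functional of a finite list separates the four points from 0 -/
def sepB (p q r t : ℤ × ℤ) : Bool :=
  posB p p q r t || posB q p q r t || posB r p q r t || posB t p q r t ||
  posB (rt p q) p q r t || posB (rt q p) p q r t || posB (rt p r) p q r t || posB (rt r p) p q r t ||
  posB (rt q t) p q r t || posB (rt t q) p q r t || posB (rt r t) p q r t || posB (rt t r) p q r t ||
  posB (rt p t) p q r t || posB (rt t p) p q r t || posB (rt q r) p q r t || posB (rt r q) p q r t

/-- the four integers lie strictly between two consecutive multiples of `M` -/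
def stripB (M : ℤ) (p q r t : ℤ) : Bool :=
  let k := M * (p / M)
  decide (k < p) && decide (k < q) && decide (k < r) && decide (k < t) &&
    decide (q < k + M) && decide (r < k + M) && decide (t < k + M)

/-- all integers from `a` on, `c` many -/
def rangeB (f : ℤ → Bool) : ℤ → ℕ → Bool
  | _, 0 => true
  | a, c + 1 => f a && rangeB f (a + 1) c

/-- the test -/
def avoidB (M : ℕ) (p q r t : ℤ × ℤ) : Bool :=
  let m : ℤ := M
  stripB m p.1 q.1 r.1 t.1 || stripB m p.2 q.2 r.2 t.2 ||
    (let x0 := (min (min p.1 q.1) (min r.1 t.1)) / m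
     let x1 := (max (max p.1 q.1) (max r.1 t.1)) / m
     let y0 := (min (min p.2 q.2) (min r.2 t.2)) / m
     let y1 := (max (max p.2 q.2) (max r.2 t.2)) / m
     rangeB (fun k => rangeB (fun l =>
        sepB (p.1 - m * k, p.2 - m * l) (q.1 - m * k, q.2 - m * l)
          (r.1 - m * k, r.2 - m * l) (t.1 - m * k, t.2 - m * l)) y0 (y1 - y0 + 1).toNat)
        x0 (x1 - x0 + 1).toNat)

private theorem SAB_posB {f p q r t : ℤ × ℤ} (h : posB f p q r t = true) :
    0 < dt f p ∧ 0 < dt f q ∧ 0 < dt f r ∧ 0 < dt f t := by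
  unfold posB at h
  simp only [Bool.and_eq_true, decide_eq_true_eq] at h
  exact ⟨h.1.1.1, h.1.1.2, h.1.2, h.2⟩

/-- a separating functional exists -/
private theorem SAB_sepB {p q r t : ℤ × ℤ} (h : sepB p q r t = true) :
    ∃ f : ℤ × ℤ, 0 < dt f p ∧ 0 < dt f q ∧ 0 < dt f r ∧ 0 < dt f t := by
  unfold sepB at h
  simp only [Bool.or_eq_true] at h
  rcases h with ((((((((((((((h | h) | h) | h) | h) | h) | h) | h) | h) | h) | h) | h) | h) | h) | h) | h <;>
    exact ⟨_, SAB_posB h⟩

/-- a convex combination of positive numbers is positive -/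
private theorem SAB_conv {u w : ℝ} (hu : 0 ≤ u) (hu1 : u ≤ 1) (hw : 0 ≤ w) (hw1 : w ≤ 1) {a b c d : ℝ}
    (ha : 0 < a) (hb : 0 < b) (hc : 0 < c) (hd : 0 < d) :
    0 < (1 - u) * (1 - w) * a + u * (1 - w) * b + (1 - u) * w * c + u * w * d := by
  have h1 : 0 ≤ 1 - u := by linarith
  have h2 : 0 ≤ 1 - w := by linarith
  set m := min (min a b) (min c d) with hm
  have hm0 : 0 < m := lt_min (lt_min ha hb) (lt_min hc hd)
  have ma : m ≤ a := (min_le_left _ _).trans (min_le_left _ _)
  have mb : m ≤ b := (min_le_left _ _).trans (min_le_right _ _)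
  have mc : m ≤ c := (min_le_right _ _).trans (min_le_left _ _)
  have md : m ≤ d := (min_le_right _ _).trans (min_le_right _ _)
  have e1 := mul_le_mul_of_nonneg_left ma (mul_nonneg h1 h2)
  have e2 := mul_le_mul_of_nonneg_left mb (mul_nonneg hu h2)
  have e3 := mul_le_mul_of_nonneg_left mc (mul_nonneg h1 hw)
  have e4 := mul_le_mul_of_nonneg_left md (mul_nonneg hu hw)
  have e5 : (1 - u) * (1 - w) * m + u * (1 - w) * m + (1 - u) * w * m + u * w * m = m := by ring
  linarith

/-- the same for nonnegative numbers -/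
private theorem SAB_conv0 {u w : ℝ} (hu : 0 ≤ u) (hu1 : u ≤ 1) (hw : 0 ≤ w) (hw1 : w ≤ 1) {a b c d : ℝ}
    (ha : 0 ≤ a) (hb : 0 ≤ b) (hc : 0 ≤ c) (hd : 0 ≤ d) :
    0 ≤ (1 - u) * (1 - w) * a + u * (1 - w) * b + (1 - u) * w * c + u * w * d := by
  have h1 : 0 ≤ 1 - u := by linarith
  have h2 : 0 ≤ 1 - w := by linarith
  positivity

/-- the strip test for one coordinate -/
private theorem SAB_strip {M : ℤ} (hM : 0 < M) {p q r t : ℤ} (h : stripB M p q r t = true)
    {u w : ℝ} (hu : 0 ≤ u) (hu1 : u ≤ 1) (hw : 0 ≤ w) (hw1 : w ≤ 1) {a : ℤ}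
    (e : (1 - u) * (1 - w) * (p : ℝ) + u * (1 - w) * q + (1 - u) * w * r + u * w * t = a * M) : False := by
  unfold stripB at h
  simp only [Bool.and_eq_true, decide_eq_true_eq] at h
  obtain ⟨⟨⟨⟨⟨⟨h1, h2⟩, h3⟩, h4⟩, h5⟩, h6⟩, h7⟩ := h
  have h8 : p < M * (p / M) + M := by
    have := Int.emod_lt_of_pos p hM
    have h9 := Int.emod_add_mul_ediv p M
    linarith
  generalize p / M = k at *
  have c : ∀ {x y : ℤ}, x < y → (x : ℝ) < y := fun h => Int.cast_lt.2 h
  have g1 := c h1
  have g2 := c h2
  have g3 := c h3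
  have g4 := c h4
  have g5 := c h5
  have g6 := c h6
  have g7 := c h7
  have g8 := c h8
  push_cast at g1 g2 g3 g4 g5 g6 g7 g8
  have l1 := SAB_conv hu hu1 hw hw1 (sub_pos.2 g1) (sub_pos.2 g2) (sub_pos.2 g3) (sub_pos.2 g4)
  have l2 := SAB_conv hu hu1 hw hw1 (sub_pos.2 g8) (sub_pos.2 g5) (sub_pos.2 g6) (sub_pos.2 g7)
  have k1 : (M : ℝ) * k < a * M := by
    rw [← e]
    linarith [l1]
  have k2 : (a : ℝ) * M < M * k + M := by
    rw [← e]
    linarith [l2]
  have k1' : M * k < a * M := by exact_mod_cast k1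
  have k2' : a * M < M * k + M := by exact_mod_cast k2
  have m1 : k < a := by
    by_contra hc
    push Not at hc
    nlinarith
  have m2 : a < k + 1 := by
    by_contra hc
    push Not at hc
    nlinarith
  omega

private theorem SAB_range {f : ℤ → Bool} : ∀ {c : ℕ} {a : ℤ}, rangeB f a c = true →
    ∀ k : ℤ, a ≤ k → k < a + c → f k = true
  | 0, a, _, k, h1, h2 => by
    exfalso
    push_cast at h2
    omega
  | c + 1, a, h, k, h1, h2 => by
    unfold rangeB at h
    simp only [Bool.and_eq_true] at h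
    rcases eq_or_lt_of_le h1 with h3 | h3
    · rw [← h3]
      exact h.1
    · refine SAB_range h.2 k (by omega) ?_
      push_cast at h2
      omega

/-- the bounds for one coordinate of a lattice point in the hull -/
private theorem SAB_bd {M : ℤ} (hM : 0 < M) {p q r t : ℤ}
    {u w : ℝ} (hu : 0 ≤ u) (hu1 : u ≤ 1) (hw : 0 ≤ w) (hw1 : w ≤ 1) {a : ℤ}
    (e : (1 - u) * (1 - w) * (p : ℝ) + u * (1 - w) * q + (1 - u) * w * r + u * w * t = a * M) :
    (min (min p q) (min r t)) / M ≤ a ∧ a ≤ (max (max p q) (max r t)) / M := by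
  have c : ∀ {x y : ℤ}, x ≤ y → (0 : ℝ) ≤ y - x := fun h => sub_nonneg.2 (Int.cast_le.2 h)
  constructor
  · set m := min (min p q) (min r t) with hm
    have ma : m ≤ p := (min_le_left _ _).trans (min_le_left _ _)
    have mb : m ≤ q := (min_le_left _ _).trans (min_le_right _ _)
    have mc : m ≤ r := (min_le_right _ _).trans (min_le_left _ _)
    have md : m ≤ t := (min_le_right _ _).trans (min_le_right _ _)
    have l := SAB_conv0 hu hu1 hw hw1 (c ma) (c mb) (c mc) (c md)
    have l1 : (m : ℝ) ≤ a * M := by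
      rw [← e]
      linarith [l]
    have l2 : m ≤ a * M := by exact_mod_cast l1
    exact (Int.ediv_le_ediv hM l2).trans_eq (Int.mul_ediv_cancel _ hM.ne')
  · set m := max (max p q) (max r t) with hm
    have ma : p ≤ m := (le_max_left _ _).trans (le_max_left _ _)
    have mb : q ≤ m := (le_max_right _ _).trans (le_max_left _ _)
    have mc : r ≤ m := (le_max_left _ _).trans (le_max_right _ _)
    have md : t ≤ m := (le_max_right _ _).trans (le_max_right _ _)
    have l := SAB_conv0 hu hu1 hw hw1 (c ma) (c mb) (c mc) (c md)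
    have l1 : (a : ℝ) * M ≤ m := by
      rw [← e]
      linarith [l]
    have l2 : a * M ≤ m := by exact_mod_cast l1
    exact (Int.mul_ediv_cancel _ hM.ne').symm.trans_le (Int.ediv_le_ediv hM l2)

theorem avoidB_sound {M : ℕ} (hM : 0 < M) {p q r t : ℤ × ℤ} (h : avoidB M p q r t = true) :
    Grid.Avoid M p q r t := by
  intro u w hu hu1 hw hw1 hmem
  obtain ⟨a, b, hab⟩ := hmem
  have hM' : (0 : ℤ) < M := by exact_mod_cast hM
  have ex : (1 - u) * (1 - w) * (p.1 : ℝ) + u * (1 - w) * q.1 + (1 - u) * w * r.1 + u * w * t.1 =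
      a * ((M : ℤ) : ℝ) := by
    have := congrArg Complex.re hab
    simp only [bil, gc, Complex.add_re, Complex.re_ofReal_mul] at this
    rw [this]
    push_cast
    ring
  have ey : (1 - u) * (1 - w) * (p.2 : ℝ) + u * (1 - w) * q.2 + (1 - u) * w * r.2 + u * w * t.2 =
      b * ((M : ℤ) : ℝ) := by
    have := congrArg Complex.im hab
    simp only [bil, gc, Complex.add_im, Complex.im_ofReal_mul] at this
    rw [this]
    push_cast
    ring
  unfold avoidB at h
  simp only [Bool.or_eq_true] at h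
  rcases h with (h | h) | h
  · exact SAB_strip hM' h hu hu1 hw hw1 ex
  · exact SAB_strip hM' h hu hu1 hw hw1 ey
  · obtain ⟨bx0, bx1⟩ := SAB_bd hM' hu hu1 hw hw1 ex
    obtain ⟨by0, by1⟩ := SAB_bd hM' hu hu1 hw hw1 ey
    have h1 := SAB_range h a bx0 (by omega)
    have h2 := SAB_range h1 b by0 (by omega)
    obtain ⟨f, f1, f2, f3, f4⟩ := SAB_sepB h2
    unfold dt at f1 f2 f3 f4
    simp only at f1 f2 f3 f4
    have c : ∀ {x : ℤ}, 0 < x → (0 : ℝ) < x := fun h => by exact_mod_cast h
    have g1 := c f1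
    have g2 := c f2
    have g3 := c f3
    have g4 := c f4
    push_cast at g1 g2 g3 g4 ex ey
    have l := SAB_conv hu hu1 hw hw1 g1 g2 g3 g4
    have e : (1 - u) * (1 - w) * ((f.1 : ℝ) * (p.1 - M * a) + f.2 * (p.2 - M * b)) +
        u * (1 - w) * ((f.1 : ℝ) * (q.1 - M * a) + f.2 * (q.2 - M * b)) +
        (1 - u) * w * ((f.1 : ℝ) * (r.1 - M * a) + f.2 * (r.2 - M * b)) +
        u * w * ((f.1 : ℝ) * (t.1 - M * a) + f.2 * (t.2 - M * b)) = 0 := by
      linear_combination (f.1 : ℝ) * ex + (f.2 : ℝ) * ey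
    linarith

end Pool.Agent.Helper42.SA
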