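import Pool.Agent.Helper42.SA.Chk

/-!
# Soundness of the kernel test of a list certificate
-/

namespace Pool.Agent.Helper42.SA

lemma vertexB_spec {n : ℕ} {v : List Strand} (h : vertexB n v = true) :
    v.length = n ∧ (∀ s ∈ v, s.r < n ∧ s.u < n) ∧ (v.map Strand.r).Nodup ∧ (v.map Strand.u).Nodup := by
  have hn : ∀ l : List ℕ, nodupB l = true → l.Nodup := by
    intro l
    induction l with
    | nil => intro _; exact List.nodup_nil
    | cons a l ih =>
      intro h
      simp only [nodupB, Bool.and_eq_true, List.all_eq_true, Bool.not_eq_true', beq_eq_false_iff_ne] at h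
      rw [List.nodup_cons]
      exact ⟨fun hm => h.1 a hm rfl, ih h.2⟩
  simp only [vertexB, Bool.and_eq_true, beq_iff_eq, List.all_eq_true, decide_eq_true_eq] at h
  obtain ⟨⟨⟨h1, h2⟩, h3⟩, h4⟩ := h
  exact ⟨h1, h2, hn _ h3, hn _ h4⟩

lemma getS_eq {v : List Strand} {i : ℕ} (h : i < v.length) : getS v i = v[i] := by
  unfold getS
  rw [List.getD_eq_getElem _ _ h]

lemma getS_mem {v : List Strand} {i : ℕ} (h : i < v.length) : getS v i ∈ v := by
  rw [getS_eq h]
  exact List.getElem_mem h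

/-- congruence mod the period -/
lemma emod_succ {N : ℕ} (hN : 0 < N) (a : ℤ) :
    ((a + 1) % (N : ℤ)).toNat = ((a % (N : ℤ)).toNat + 1) % N := by
  have h0 : 0 ≤ a % (N : ℤ) := Int.emod_nonneg _ (by omega)
  obtain ⟨k, hk⟩ := Int.eq_ofNat_of_zero_le h0
  have h1 : (a + 1) % (N : ℤ) = (((k + 1) % N : ℕ) : ℤ) := by
    rw [← Int.emod_add_emod, hk]
    push_cast
    rfl
  rw [h1, hk, Int.toNat_natCast, Int.toNat_natCast]

lemma emod_lt {N : ℕ} (hN : 0 < N) (a : ℤ) : (a % (N : ℤ)).toNat < N := by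
  have h0 : 0 ≤ a % (N : ℤ) := Int.emod_nonneg _ (by omega)
  have h1 : a % (N : ℤ) < N := Int.emod_lt_of_pos _ (by omega)
  omega

section

variable {n : ℕ} [NeZero n] {C : Cert n}

lemma at_eq (a b : ℤ) (i : ℕ) : C.at a b i = getS (C.vert (a % C.N1).toNat (b % C.N2).toNat) i := rfl

lemma at_eq1 (h1 : 0 < C.N1) (a b : ℤ) (i : ℕ) :
    C.at (a + 1) b i = getS (C.vert (((a % C.N1).toNat + 1) % C.N1) (b % C.N2).toNat) i := by
  rw [at_eq, emod_succ h1]

lemma at_eq2 (h2 : 0 < C.N2) (a b : ℤ) (i : ℕ) :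
    C.at a (b + 1) i = getS (C.vert (a % C.N1).toNat (((b % C.N2).toNat + 1) % C.N2)) i := by
  rw [at_eq, emod_succ h2]

lemma at_eq3 (h1 : 0 < C.N1) (h2 : 0 < C.N2) (a b : ℤ) (i : ℕ) :
    C.at (a + 1) (b + 1) i =
      getS (C.vert (((a % C.N1).toNat + 1) % C.N1) (((b % C.N2).toNat + 1) % C.N2)) i := by
  rw [at_eq, emod_succ h1, emod_succ h2]

/-- the basic hypotheses on a certificate -/
structure Cert.Ok (C : Cert n) : Prop where
  hN1 : 0 < C.N1
  hN2 : 0 < C.N2
  hM : 0 < C.M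
  rows : ∀ b, b < C.N2 → C.rowB b = true

lemma Cert.Ok.cell (h : C.Ok) (a b : ℤ) :
    C.cellB (C.vert (a % C.N1).toNat (b % C.N2).toNat)
      (C.vert (((a % C.N1).toNat + 1) % C.N1) (b % C.N2).toNat)
      (C.vert (a % C.N1).toNat (((b % C.N2).toNat + 1) % C.N2))
      (C.vert (((a % C.N1).toNat + 1) % C.N1) (((b % C.N2).toNat + 1) % C.N2))
      (a % C.N1).toNat (b % C.N2).toNat = true := by
  have h1 := h.rows _ (emod_lt h.hN2 b)
  unfold Cert.rowB at h1
  rw [List.all_eq_true] at h1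
  exact h1 _ (List.mem_range.2 (emod_lt h.hN1 a))

lemma Cert.Ok.vertex (h : C.Ok) (a b : ℤ) :
    vertexB n (C.vert (a % C.N1).toNat (b % C.N2).toNat) = true := by
  have h1 := h.cell a b
  unfold Cert.cellB at h1
  rw [Bool.and_eq_true] at h1
  exact h1.1

lemma Cert.Ok.at_lt (h : C.Ok) (a b : ℤ) {i : ℕ} (hi : i < n) : (C.at a b i).r < n ∧ (C.at a b i).u < n := by
  obtain ⟨h1, h2, -, -⟩ := vertexB_spec (h.vertex a b)
  rw [at_eq]
  exact h2 _ (getS_mem (by rw [h1]; exact hi))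

lemma Cert.Ok.R_val (h : C.Ok) (a b : ℤ) (i : Fin n) : ((C.grid.R a b i : Fin n) : ℕ) = (C.at a b i).r :=
  Nat.mod_eq_of_lt (h.at_lt a b i.2).1

lemma Cert.Ok.U_val (h : C.Ok) (a b : ℤ) (i : Fin n) : ((C.grid.U a b i : Fin n) : ℕ) = (C.at a b i).u :=
  Nat.mod_eq_of_lt (h.at_lt a b i.2).2

lemma Cert.Ok.injR (h : C.Ok) (a b : ℤ) : Function.Injective (C.grid.R a b) := by
  obtain ⟨h1, h2, h3, -⟩ := vertexB_spec (h.vertex a b)
  intro i j hij
  have h4 : (C.at a b i).r = (C.at a b j).r := by rw [← h.R_val, ← h.R_val, hij]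
  rw [at_eq, at_eq, getS_eq (by rw [h1]; exact i.2), getS_eq (by rw [h1]; exact j.2)] at h4
  have h5 := (List.nodup_iff_injective_get.1 h3)
  have h6 : (⟨i, by rw [List.length_map, h1]; exact i.2⟩ :
      Fin ((C.vert (a % C.N1).toNat (b % C.N2).toNat).map Strand.r).length) =
      ⟨j, by rw [List.length_map, h1]; exact j.2⟩ := by
    apply h5
    simp only [List.get_eq_getElem, List.getElem_map]
    exact h4
  have h7 := congrArg Fin.val h6
  exact Fin.ext h7

lemma Cert.Ok.injU (h : C.Ok) (a b : ℤ) : Function.Injective (C.grid.U a b) := by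
  obtain ⟨h1, h2, -, h3⟩ := vertexB_spec (h.vertex a b)
  intro i j hij
  have h4 : (C.at a b i).u = (C.at a b j).u := by rw [← h.U_val, ← h.U_val, hij]
  rw [at_eq, at_eq, getS_eq (by rw [h1]; exact i.2), getS_eq (by rw [h1]; exact j.2)] at h4
  have h5 := (List.nodup_iff_injective_get.1 h3)
  have h6 : (⟨i, by rw [List.length_map, h1]; exact i.2⟩ :
      Fin ((C.vert (a % C.N1).toNat (b % C.N2).toNat).map Strand.u).length) =
      ⟨j, by rw [List.length_map, h1]; exact j.2⟩ := by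
    apply h5
    simp only [List.get_eq_getElem, List.getElem_map]
    exact h4
  have h7 := congrArg Fin.val h6
  exact Fin.ext h7

/-- abbreviations for the four vertices of a cell -/
abbrev V00 (C : Cert n) (a b : ℤ) : List Strand := C.vert (a % C.N1).toNat (b % C.N2).toNat
/-- vertex 10 -/
abbrev V10 (C : Cert n) (a b : ℤ) : List Strand := C.vert (((a % C.N1).toNat + 1) % C.N1) (b % C.N2).toNat
/-- vertex 01 -/
abbrev V01 (C : Cert n) (a b : ℤ) : List Strand := C.vert (a % C.N1).toNat (((b % C.N2).toNat + 1) % C.N2)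
/-- vertex 11 -/
abbrev V11 (C : Cert n) (a b : ℤ) : List Strand :=
  C.vert (((a % C.N1).toNat + 1) % C.N1) (((b % C.N2).toNat + 1) % C.N2)

/-- corner data of the cell -/
abbrev CN (C : Cert n) (a b : ℤ) (i : ℕ) : Corner :=
  cnr C.M (V00 C a b) (V10 C a b) (V01 C a b) (V11 C a b) i

lemma Cert.Ok.c00 (_h : C.Ok) (a b : ℤ) (i : Fin n) : C.grid.c00 a b i = (CN C a b i).p := rfl

lemma Cert.Ok.c10 (h : C.Ok) (a b : ℤ) (i : Fin n) : C.grid.c10 a b i = (CN C a b i).q := by
  unfold Grid.c10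
  change ((C.at (a + 1) b (C.grid.R a b i : Fin n)).x, (C.at (a + 1) b (C.grid.R a b i : Fin n)).y) +
    (C.M : ℤ) • ((C.at a b i).rx, (C.at a b i).ry) = _
  rw [h.R_val, at_eq1 h.hN1]
  rfl

lemma Cert.Ok.c01 (h : C.Ok) (a b : ℤ) (i : Fin n) : C.grid.c01 a b i = (CN C a b i).r := by
  unfold Grid.c01
  change ((C.at a (b + 1) (C.grid.U a b i : Fin n)).x, (C.at a (b + 1) (C.grid.U a b i : Fin n)).y) +
    (C.M : ℤ) • ((C.at a b i).ux, (C.at a b i).uy) = _
  rw [h.U_val, at_eq2 h.hN2]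
  rfl

lemma Cert.Ok.c11 (h : C.Ok) (a b : ℤ) (i : Fin n) : C.grid.c11 a b i = (CN C a b i).t := by
  unfold Grid.c11
  change ((C.at (a + 1) (b + 1) (C.grid.U (a + 1) b (C.grid.R a b i) : Fin n)).x,
      (C.at (a + 1) (b + 1) (C.grid.U (a + 1) b (C.grid.R a b i) : Fin n)).y) +
    (C.M : ℤ) • (((C.at a b i).rx, (C.at a b i).ry) +
      ((C.at (a + 1) b (C.grid.R a b i : Fin n)).ux, (C.at (a + 1) b (C.grid.R a b i : Fin n)).uy)) = _
  rw [h.U_val, h.R_val, at_eq3 h.hN1 h.hN2, at_eq1 h.hN1]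
  rfl

lemma Cert.Ok.d11 (h : C.Ok) (a b : ℤ) (i : Fin n) : C.grid.d11 a b i =
    ((getS (V11 C a b) (getS (V01 C a b) (getS (V00 C a b) i).u).r).x +
        C.M * ((getS (V00 C a b) i).ux + (getS (V01 C a b) (getS (V00 C a b) i).u).rx),
      (getS (V11 C a b) (getS (V01 C a b) (getS (V00 C a b) i).u).r).y +
        C.M * ((getS (V00 C a b) i).uy + (getS (V01 C a b) (getS (V00 C a b) i).u).ry)) := by
  unfold Grid.d11
  change ((C.at (a + 1) (b + 1) (C.grid.R a (b + 1) (C.grid.U a b i) : Fin n)).x,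
      (C.at (a + 1) (b + 1) (C.grid.R a (b + 1) (C.grid.U a b i) : Fin n)).y) +
    (C.M : ℤ) • (((C.at a b i).ux, (C.at a b i).uy) +
      ((C.at a (b + 1) (C.grid.U a b i : Fin n)).rx, (C.at a (b + 1) (C.grid.U a b i : Fin n)).ry)) = _
  rw [h.R_val, h.U_val, at_eq3 h.hN1 h.hN2, at_eq2 h.hN2]
  rfl

lemma Cert.Ok.comm (h : C.Ok) {a b : ℤ} {i : Fin n}
    (hc : commB (V10 C a b) (V01 C a b) (getS (V00 C a b) i) = true) : C.grid.Comm a b i := by
  simp only [commB, Bool.and_eq_true, beq_iff_eq] at hc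
  obtain ⟨⟨h1, h2⟩, h3⟩ := hc
  refine ⟨?_, ?_⟩
  · apply Fin.ext
    rw [h.U_val, h.R_val, h.R_val, h.U_val, at_eq1 h.hN1, at_eq2 h.hN2]
    exact h1
  · change ((C.at a b i).rx, (C.at a b i).ry) +
      ((C.at (a + 1) b (C.grid.R a b i : Fin n)).ux, (C.at (a + 1) b (C.grid.R a b i : Fin n)).uy) =
      ((C.at a b i).ux, (C.at a b i).uy) +
      ((C.at a (b + 1) (C.grid.U a b i : Fin n)).rx, (C.at a (b + 1) (C.grid.U a b i : Fin n)).ry)
    rw [h.R_val, h.U_val, at_eq1 h.hN1, at_eq2 h.hN2]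
    exact Prod.ext h2 h3

lemma Cert.Ok.disj (h : C.Ok) {a b : ℤ} {i j : Fin n}
    (hc : avoidB C.M ((CN C a b i).p - (CN C a b j).p) ((CN C a b i).q - (CN C a b j).q)
      ((CN C a b i).r - (CN C a b j).r) ((CN C a b i).t - (CN C a b j).t) = true) :
    C.grid.Disj a b i j := by
  unfold Grid.Disj
  rw [h.c00, h.c00, h.c10, h.c10, h.c01, h.c01, h.c11, h.c11]
  exact avoidB_sound h.hM hc

lemma avoid_symm {M : ℕ} {p q r t : ℤ × ℤ} (h : Grid.Avoid M p q r t) :
    Grid.Avoid M (-p) (-q) (-r) (-t) := by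
  intro u w h1 h2 h3 h4 hm
  have hg : ∀ z : ℤ × ℤ, gc (-z) = -gc z := by
    intro z
    apply Complex.ext
    · simp [gc]
    · simp [gc]
  have h5 : bil u w (gc (-p)) (gc (-q)) (gc (-r)) (gc (-t)) = -bil u w (gc p) (gc q) (gc r) (gc t) := by
    rw [hg, hg, hg, hg]
    unfold bil
    ring
  rw [h5] at hm
  have h6 := (lat M M).neg_mem hm
  rw [neg_neg] at h6
  exact h u w h1 h2 h3 h4 h6

lemma disj_symm {G : Grid n} {a b : ℤ} {i j : Fin n} (h : G.Disj a b i j) : G.Disj a b j i := by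
  unfold Grid.Disj at *
  have := avoid_symm h
  simp only [neg_sub] at this
  exact this

/-- all pairs of a list of corners -/
lemma pairsB_spec {M : ℕ} {l : List Corner} (h : pairsB M l = true) {i j : ℕ} (hij : i < j)
    (hj : j < l.length) : pairB M (l[i]'(by omega)) l[j] = true := by
  induction l generalizing i j with
  | nil => simp at hj
  | cons c cs ih =>
    simp only [pairsB, Bool.and_eq_true, List.all_eq_true] at h
    cases j with
    | zero => omega
    | succ j =>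
      cases i with
      | zero =>
        simp only [List.getElem_cons_zero, List.getElem_cons_succ]
        exact h.1 _ (List.getElem_mem _)
      | succ i =>
        simp only [List.getElem_cons_succ]
        exact ih h.2 (by omega) (by simpa using hj)

lemma Cert.Ok.reg (h : C.Ok) {a b : ℤ}
    (hc : regB C.M (V00 C a b) (V10 C a b) (V01 C a b) (V11 C a b) = true) : C.grid.RegCell a b := by
  obtain ⟨h1, -, -, -⟩ := vertexB_spec (h.vertex a b)
  have h1' : (V00 C a b).length = n := h1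
  simp only [regB, Bool.and_eq_true, List.all_eq_true] at hc
  obtain ⟨h2, h3⟩ := hc
  have key : ∀ i j : Fin n, i < j → C.grid.Disj a b i j := by
    intro i j hij
    have hi : (i : ℕ) < (V00 C a b).length := by rw [h1']; exact i.2
    have hj : (j : ℕ) < (V00 C a b).length := by rw [h1']; exact j.2
    have h4 := pairsB_spec h3 (i := i) (j := j) hij (by rw [List.length_map]; exact hj)
    rw [List.getElem_map, List.getElem_map, ← getS_eq hi, ← getS_eq hj] at h4
    apply h.disj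
    have h6 : ((false && false) || avoidB C.M ((CN C a b i).p - (CN C a b j).p)
      ((CN C a b i).q - (CN C a b j).q) ((CN C a b i).r - (CN C a b j).r)
      ((CN C a b i).t - (CN C a b j).t)) = true := h4
    rwa [Bool.and_self, Bool.false_or] at h6
  refine ⟨fun i => h.comm (h2 _ (getS_mem (by rw [h1]; exact i.2))), fun i j hij => ?_⟩
  rcases lt_or_gt_of_ne hij with h5 | h5
  · exact key i j h5
  · exact disj_symm (key j i h5)

lemma Cert.Ok.clu (h : C.Ok) {a b : ℤ} {c : Cl n}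
    (hc : cluB C.M c (V00 C a b) (V10 C a b) (V01 C a b) (V11 C a b) = true) : C.grid.ClCell a b c := by
  obtain ⟨h1, -, -, -⟩ := vertexB_spec (h.vertex a b)
  simp only [cluB, Bool.and_eq_true, List.all_eq_true, decide_eq_true_eq] at hc
  obtain ⟨⟨⟨h2, h3⟩, h4⟩, h5⟩ := hc
  refine { comm := fun i => h.comm (h2 _ (getS_mem (by rw [h1]; exact i.2))),
           disj := fun i j hij hl => h.disj (h3 i j hij hl), e10 := ?_, e01 := ?_, e11 := ?_,
           ey := ?_, inj := h5 }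
  · intro i hi
    rw [h.c10, h.c00]
    exact (h4 i hi).1
  · intro i hi
    rw [h.c01, h.c00]
    exact (h4 i hi).2.1
  · intro i hi
    rw [h.c11, h.c00]
    exact (h4 i hi).2.2.1
  · intro i hi
    rw [h.c00, two_smul]
    exact (h4 i hi).2.2.2

/-- a number congruent to `e` mod `M`, `0 ≤ e < M`, has square at least `min (e²) ((e-M)²)` -/
lemma sq_far {M d m : ℤ} (hM : 0 < M) :
    (d % M) ^ 2 ≤ (d - M * m) ^ 2 ∨ (d % M - M) ^ 2 ≤ (d - M * m) ^ 2 := by
  have h0 : 0 ≤ d % M := Int.emod_nonneg _ hM.ne'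
  have h1 : d % M < M := Int.emod_lt_of_pos _ hM
  have h2 : d = M * (d / M) + d % M := (Int.mul_ediv_add_emod d M).symm
  set e := d % M
  set k := d / M
  have h3 : d - M * m = e + M * (k - m) := by rw [h2]; ring
  rw [h3]
  by_cases h4 : 0 ≤ k - m
  · left
    have : 0 ≤ M * (k - m) := mul_nonneg hM.le h4
    nlinarith
  · right
    have h5 : k - m ≤ -1 := by omega
    have : M * (k - m) ≤ -M := by nlinarith
    nlinarith

lemma farB_spec {M N : ℤ} (hM : 0 < M) {d : ℤ × ℤ} (h : farB M N d = true) (m : ℤ × ℤ) :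
    N < nsq (d - M • m) := by
  simp only [farB, Bool.and_eq_true, decide_eq_true_eq, nsq] at h
  obtain ⟨⟨⟨h1, h2⟩, h3⟩, h4⟩ := h
  have e1 : (d - M • m).1 = d.1 - M * m.1 := by simp
  have e2 : (d - M • m).2 = d.2 - M * m.2 := by simp
  unfold nsq
  rw [e1, e2]
  rcases sq_far (d := d.1) (m := m.1) hM with h5 | h5 <;>
    rcases sq_far (d := d.2) (m := m.2) hM with h6 | h6 <;> linarith

lemma Cert.Ok.bra (h : C.Ok) {a b : ℤ} {d : Br n}
    (hc : braB C.M d (V00 C a b) (V10 C a b) (V01 C a b) (V11 C a b) = true) : C.grid.BrCell a b d := by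
  have hM : (0 : ℤ) < C.M := by exact_mod_cast h.hM
  simp only [braB, Bool.and_eq_true, decide_eq_true_eq] at hc
  obtain ⟨⟨⟨⟨⟨⟨⟨⟨⟨⟨⟨⟨⟨⟨⟨⟨h0, h1⟩, h2⟩, h3⟩, h4⟩, h5⟩, h6⟩, h7⟩, h8⟩, h9⟩, h10⟩, h11⟩, h12⟩, h13⟩, h14⟩,
    h15⟩, h16⟩ := hc
  refine { pq := h0, p00 := h1, q00 := h2, p10 := ?_, q10 := ?_, p01 := ?_, q01 := ?_, p11 := ?_,
           q11 := ?_, p11' := ?_, q11' := ?_, re_pos := h11, im_pos := h12, small0 := h13,
           small1 := h14, comm := ?_, const := ?_, far := ?_, disj := ?_ }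
  · rw [h.c10]; exact h3
  · rw [h.c10]; exact h4
  · rw [h.c01]; exact h5
  · rw [h.c01]; exact h6
  · rw [h.c11]; exact h7
  · rw [h.c11]; exact h8
  · rw [h.d11]; exact h9
  · rw [h.d11]; exact h10
  · intro i hp hq
    exact h.comm (h15 i hp hq).1
  · intro i hp hq
    obtain ⟨-, g1, g2, g3, -, -⟩ := h15 i hp hq
    rw [h.c10, h.c01, h.c11, h.c00]
    exact ⟨g1, g2, g3⟩
  · intro i hp hq m
    obtain ⟨-, -, -, -, g1, g2⟩ := h15 i hp hq
    rw [h.c00]
    exact ⟨farB_spec hM g1 m, farB_spec hM g2 m⟩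
  · intro i j h1 h2 h3 h4 h5
    exact h.disj (h16 i j h1 h2 h3 h4 h5)

lemma emod_add (N : ℕ) (a : ℤ) : (a + N) % (N : ℤ) = a % N := Int.add_emod_right a N

theorem Cert.Ok.valid (h : C.Ok) : C.grid.Valid where
  hN1 := h.hN1
  hN2 := h.hN2
  hM := h.hM
  per := by
    constructor <;> intro a b <;>
      simp only [Cert.grid, Cert.at, emod_add]
  injR := h.injR
  injU := h.injU
  reg := by
    intro a b h1 h2
    have h3 := h.cell a b
    change C.brs.lookup ((a % C.N1).toNat, (b % C.N2).toNat) = none at h1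
    change C.cls.lookup ((a % C.N1).toNat, (b % C.N2).toNat) = none at h2
    unfold Cert.cellB at h3
    rw [h1, h2] at h3
    simp only [Bool.and_eq_true] at h3
    exact h.reg h3.2
  clu := by
    intro a b c h1 h2
    have h3 := h.cell a b
    change C.brs.lookup ((a % C.N1).toNat, (b % C.N2).toNat) = none at h1
    change C.cls.lookup ((a % C.N1).toNat, (b % C.N2).toNat) = some c at h2
    unfold Cert.cellB at h3
    rw [h1, h2] at h3
    simp only [Bool.and_eq_true] at h3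
    exact h.clu h3.2
  bra := by
    intro a b d h1
    have h3 := h.cell a b
    change C.brs.lookup ((a % C.N1).toNat, (b % C.N2).toNat) = some d at h1
    unfold Cert.cellB at h3
    rw [h1] at h3
    simp only [Bool.and_eq_true] at h3
    refine ⟨h.bra h3.2.1, ?_⟩
    change C.cls.lookup ((a % C.N1).toNat, (b % C.N2).toNat) = none
    exact Option.isNone_iff_eq_none.1 h3.2.2

end

end Pool.Agent.Helper42.SA
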