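import Pool.Agent.Helper42.SA.Gr

/-!
# Piece SA-A: the smooth step functions exist

Proof.  `δ = 1/16`.  Let `h t = Real.smoothTransition ((t - 2δ) / (1 - 4δ))`: smooth, `0` for `t ≤ 2δ`, `1` for
`t ≥ 1 - 2δ`, and `h t < 1/2` for `t < 1/2`, `h t > 1/2` for `t > 1/2` (because `smoothTransition x =
expNegInvGlue x / (expNegInvGlue x + expNegInvGlue (1 - x))` and `expNegInvGlue` is strictly monotone on `x > 0`).
Let `χ` be a smooth function with values in `[0, 1]`, `χ = 1` on `|t - 1/2| < δ`, `χ = 0` off `(2δ, 1 - 2δ)` (for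
instance a `ContDiffBump` or a product of two `smoothTransition`s) and `s = χ t + (1 - χ) h`.
`η t = 1 - smoothTransition ((t - δ) / δ)`.
-/

open Complex
open scoped ContDiff

namespace Pool.Agent.Helper42.SA

private lemma Stp_glue {x y : ℝ} (hx : 0 < x) (hxy : x < y) : expNegInvGlue x < expNegInvGlue y := by
  have hy : 0 < y := hx.trans hxy
  unfold expNegInvGlue
  rw [if_neg (not_le.2 hx), if_neg (not_le.2 hy)]
  refine Real.exp_lt_exp.2 ?_
  rw [neg_lt_neg_iff]
  exact (inv_lt_inv₀ hy hx).2 hxy

private lemma Stp_low {x : ℝ} (hx : x < 1 / 2) : Real.smoothTransition x < 1 / 2 := by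
  rcases le_or_gt x 0 with h | h
  · rw [Real.smoothTransition.zero_of_nonpos h]
    norm_num
  · have h1 : expNegInvGlue x < expNegInvGlue (1 - x) := Stp_glue h (by linarith)
    have h2 : 0 < expNegInvGlue x := expNegInvGlue.pos_of_pos h
    unfold Real.smoothTransition
    rw [div_lt_div_iff₀ (by linarith) (by norm_num)]
    linarith

private lemma Stp_high {x : ℝ} (hx : 1 / 2 < x) : 1 / 2 < Real.smoothTransition x := by
  rcases le_or_gt 1 x with h | h
  · rw [Real.smoothTransition.one_of_one_le h]
    norm_num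
  · have h1 : expNegInvGlue (1 - x) < expNegInvGlue x := Stp_glue (by linarith) (by linarith)
    have h2 : 0 < expNegInvGlue (1 - x) := expNegInvGlue.pos_of_pos (by linarith)
    unfold Real.smoothTransition
    rw [div_lt_div_iff₀ (by norm_num) (by linarith)]
    linarith

/-- the cutoff function -/
private noncomputable def Stp_c (t : ℝ) : ℝ :=
  Real.smoothTransition ((t - 1 / 8) / (5 / 16)) * Real.smoothTransition ((7 / 8 - t) / (5 / 16))

/-- the step over `[1/8, 7/8]` -/
private noncomputable def Stp_h (t : ℝ) : ℝ := Real.smoothTransition ((t - 1 / 8) / (3 / 4))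

private lemma Stp_c_nonneg (t : ℝ) : 0 ≤ Stp_c t :=
  mul_nonneg (Real.smoothTransition.nonneg _) (Real.smoothTransition.nonneg _)

private lemma Stp_c_le (t : ℝ) : Stp_c t ≤ 1 :=
  mul_le_one₀ (Real.smoothTransition.le_one _) (Real.smoothTransition.nonneg _)
    (Real.smoothTransition.le_one _)

private lemma Stp_c_zero_left {t : ℝ} (h : t ≤ 1 / 8) : Stp_c t = 0 := by
  unfold Stp_c
  rw [Real.smoothTransition.zero_of_nonpos (div_nonpos_of_nonpos_of_nonneg (by linarith) (by norm_num)),
    zero_mul]

private lemma Stp_c_zero_right {t : ℝ} (h : 7 / 8 ≤ t) : Stp_c t = 0 := by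
  unfold Stp_c
  rw [Real.smoothTransition.zero_of_nonpos (x := (7 / 8 - t) / (5 / 16))
    (div_nonpos_of_nonpos_of_nonneg (by linarith) (by norm_num)), mul_zero]

private lemma Stp_c_one {t : ℝ} (h1 : 7 / 16 ≤ t) (h2 : t ≤ 9 / 16) : Stp_c t = 1 := by
  unfold Stp_c
  rw [Real.smoothTransition.one_of_one_le (x := (t - 1 / 8) / (5 / 16)) (by
      rw [le_div_iff₀ (by norm_num)]
      linarith),
    Real.smoothTransition.one_of_one_le (x := (7 / 8 - t) / (5 / 16)) (by
      rw [le_div_iff₀ (by norm_num)]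
      linarith), mul_one]

private lemma Stp_h_zero {t : ℝ} (h : t ≤ 1 / 8) : Stp_h t = 0 :=
  Real.smoothTransition.zero_of_nonpos (div_nonpos_of_nonpos_of_nonneg (by linarith) (by norm_num))

private lemma Stp_h_one {t : ℝ} (h : 7 / 8 ≤ t) : Stp_h t = 1 := by
  refine Real.smoothTransition.one_of_one_le ?_
  rw [le_div_iff₀ (by norm_num)]
  linarith

private lemma Stp_smooth (f : ℝ → ℝ) (hf : ContDiff ℝ ∞ f) :
    ContDiff ℝ ∞ (fun t => Real.smoothTransition (f t)) :=
  Real.smoothTransition.contDiff.comp hf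

theorem exists_step : ∃ s η δ, Step s η δ := by
  have hh0 : ∀ t, 0 ≤ Stp_h t := fun t => Real.smoothTransition.nonneg _
  have hh1 : ∀ t, Stp_h t ≤ 1 := fun t => Real.smoothTransition.le_one _
  have hz : ∀ t, t ≤ 1 / 8 → Stp_c t * t + (1 - Stp_c t) * Stp_h t = 0 := by
    intro t ht
    rw [Stp_c_zero_left ht, Stp_h_zero ht]
    ring
  have ho : ∀ t, 7 / 8 ≤ t → Stp_c t * t + (1 - Stp_c t) * Stp_h t = 1 := by
    intro t ht
    rw [Stp_c_zero_right ht, Stp_h_one ht]
    ring
  refine ⟨fun t => Stp_c t * t + (1 - Stp_c t) * Stp_h t,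
    fun t => 1 - Real.smoothTransition ((t - 1 / 16) / (1 / 16)), 1 / 16,
    { δ_pos := by norm_num
      δ_lt := by norm_num
      s_smooth := ?_
      s_zero := fun t ht => hz t (by linarith)
      s_one := fun t ht => ho t (by linarith)
      s_nonneg := ?_
      s_le := ?_
      s_mid := ?_
      s_lin := ?_
      η_smooth := ?_
      η_one := ?_
      η_zero := ?_
      η_nonneg := fun t => sub_nonneg.2 (Real.smoothTransition.le_one _)
      η_le := fun t => sub_le_self _ (Real.smoothTransition.nonneg _) }⟩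
  · have h1 : ContDiff ℝ ∞ Stp_c :=
      (Stp_smooth _ (by fun_prop)).mul (Stp_smooth _ (by fun_prop))
    have h2 : ContDiff ℝ ∞ Stp_h := Stp_smooth _ (by fun_prop)
    exact (h1.mul contDiff_id).add ((contDiff_const.sub h1).mul h2)
  · intro t
    rcases le_or_gt t (1 / 8) with h | h
    · exact (hz t h).ge
    · have h1 := Stp_c_nonneg t
      have h2 := Stp_c_le t
      exact add_nonneg (mul_nonneg h1 (by linarith)) (mul_nonneg (by linarith) (hh0 t))
  · intro t
    rcases le_or_gt (7 / 8) t with h | h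
    · exact (ho t h).le
    · have h1 := Stp_c_nonneg t
      have h2 := Stp_c_le t
      have h3 : Stp_c t * t ≤ Stp_c t * 1 := mul_le_mul_of_nonneg_left (by linarith) h1
      have h4 : (1 - Stp_c t) * Stp_h t ≤ (1 - Stp_c t) * 1 :=
        mul_le_mul_of_nonneg_left (hh1 t) (by linarith)
      show Stp_c t * t + (1 - Stp_c t) * Stp_h t ≤ 1
      linarith
  · intro t ht
    have h1 := Stp_c_nonneg t
    have h2 := Stp_c_le t
    change Stp_c t * t + (1 - Stp_c t) * Stp_h t = 1 / 2 at ht
    rcases lt_trichotomy t (1 / 2) with h | h | h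
    · exfalso
      have h3 : Stp_h t < 1 / 2 := Stp_low (by
        rw [div_lt_iff₀ (by norm_num)]
        linarith)
      rcases h1.eq_or_lt with h4 | h4
      · rw [← h4] at ht
        linarith
      · have h5 : Stp_c t * t < Stp_c t * (1 / 2) := mul_lt_mul_of_pos_left h h4
        have h6 : (1 - Stp_c t) * Stp_h t ≤ (1 - Stp_c t) * (1 / 2) :=
          mul_le_mul_of_nonneg_left h3.le (by linarith)
        linarith
    · exact h
    · exfalso
      have h3 : 1 / 2 < Stp_h t := Stp_high (by
        rw [lt_div_iff₀ (by norm_num)]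
        linarith)
      rcases h1.eq_or_lt with h4 | h4
      · rw [← h4] at ht
        linarith
      · have h5 : Stp_c t * (1 / 2) < Stp_c t * t := mul_lt_mul_of_pos_left h h4
        have h6 : (1 - Stp_c t) * (1 / 2) ≤ (1 - Stp_c t) * Stp_h t :=
          mul_le_mul_of_nonneg_left h3.le (by linarith)
        linarith
  · intro t ht
    have h1 := abs_lt.1 ht
    show Stp_c t * t + (1 - Stp_c t) * Stp_h t = t
    rw [Stp_c_one (by linarith [h1.1]) (by linarith [h1.2])]
    ring
  · exact contDiff_const.sub (Stp_smooth _ (by fun_prop))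
  · intro t ht
    show 1 - Real.smoothTransition ((t - 1 / 16) / (1 / 16)) = 1
    rw [Real.smoothTransition.zero_of_nonpos (div_nonpos_of_nonpos_of_nonneg (by linarith) (by norm_num))]
    ring
  · intro t ht
    show 1 - Real.smoothTransition ((t - 1 / 16) / (1 / 16)) = 0
    rw [Real.smoothTransition.one_of_one_le (by
      rw [le_div_iff₀ (by norm_num)]
      linarith)]
    ring

end Pool.Agent.Helper42.SA
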