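import Pool.Agent.Helper42.SA.Gr

/-!
# The function `W` of a branch cell: auxiliary definitions
-/

open Complex
open scoped ContDiff

namespace Pool.Agent.Helper42.SA

variable {s η : ℝ → ℝ} {δ : ℝ}

/-- `v1` lies strictly inside the first quadrant relative to `v0` -/
def Quad (v0 v1 : ℂ) : Prop := 0 < (starRingEnd ℂ v0 * v1).re ∧ 0 < (starRingEnd ℂ v0 * v1).im

/-- the linear model at the centre -/
noncomputable def Alin (v0 v1 : ℂ) : ℂ →L[ℝ] ℂ :=
  Complex.reCLM.smulRight (v1 ^ 2 - v0 ^ 2) + Complex.imCLM.smulRight (-(v0 ^ 2 + v1 ^ 2))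

/-- the centre of the cell `(a, b)` -/
noncomputable def ctr (a b : ℤ) : ℂ := ⟨a + 1 / 2, b + 1 / 2⟩

end Pool.Agent.Helper42.SA
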