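import Pool.Agent.Helper42.SA.Wf0

/-!
# Piece SA-C1: the function `W` of a branch cell, formulas

`u = s t1`, `w = s t2`.  Near the bottom edge (`t2 ≤ δ`): `w = 0`, `η t2 = 1`, the other three correction terms vanish
(`w (1 - w) = 0`, `η (1 - t2) = 0`).  At the centre all `η` vanish and `s t1 = t1`, `s t2 = t2`.
-/

open Complex
open scoped ContDiff

namespace Pool.Agent.Helper42.SA

variable {s η : ℝ → ℝ} {δ : ℝ}

private lemma wfaIm2 : (I : ℂ) ^ 2 = -1 := I_sq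

private lemma wfaDet (A : ℂ →L[ℝ] ℂ) : A.det = (A 1).re * (A I).im - (A 1).im * (A I).re := by
  have h : A.det = LinearMap.det (A : ℂ →ₗ[ℝ] ℂ) := rfl
  rw [h, ← LinearMap.det_toMatrix Complex.basisOneI, Matrix.det_fin_two]
  simp [LinearMap.toMatrix_apply]
  ring

theorem Wf_smooth (h : Step s η δ) (v0 v1 : ℂ) (a b : ℝ) :
    ContDiff ℝ ∞ (fun x : ℂ => Wf s η v0 v1 (x.re - a) (x.im - b)) := by
  have hre : ContDiff ℝ ∞ (fun x : ℂ => x.re - a) := Complex.reCLM.contDiff.sub contDiff_const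
  have him : ContDiff ℝ ∞ (fun x : ℂ => x.im - b) := Complex.imCLM.contDiff.sub contDiff_const
  have hs1 : ContDiff ℝ ∞ (fun x : ℂ => s (x.re - a)) := h.s_smooth.comp hre
  have hs2 : ContDiff ℝ ∞ (fun x : ℂ => s (x.im - b)) := h.s_smooth.comp him
  have he1 : ContDiff ℝ ∞ (fun x : ℂ => η (x.re - a)) := h.η_smooth.comp hre
  have he2 : ContDiff ℝ ∞ (fun x : ℂ => η (x.im - b)) := h.η_smooth.comp him
  have he3 : ContDiff ℝ ∞ (fun x : ℂ => η (1 - (x.re - a))) :=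
    h.η_smooth.comp (contDiff_const.sub hre)
  have he4 : ContDiff ℝ ∞ (fun x : ℂ => η (1 - (x.im - b))) :=
    h.η_smooth.comp (contDiff_const.sub him)
  have hc : ∀ f : ℂ → ℝ, ContDiff ℝ ∞ f → ContDiff ℝ ∞ (fun x : ℂ => ((f x : ℝ) : ℂ)) :=
    fun f hf => Complex.ofRealCLM.contDiff.comp hf
  have hk : ∀ (f : ℂ → ℝ) (c : ℂ), ContDiff ℝ ∞ f → ContDiff ℝ ∞ (fun x : ℂ => ((f x : ℝ) : ℂ) * c) :=
    fun f c hf => (hc f hf).mul contDiff_const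
  have o : ContDiff ℝ ∞ (fun _ : ℂ => (1 : ℝ)) := contDiff_const
  unfold Wf bil
  exact ((((((((hk _ _ ((o.sub hs1).mul (o.sub hs2))).add (hk _ _ (hs1.mul (o.sub hs2)))).add
    (hk _ _ ((o.sub hs1).mul hs2))).add (hk _ _ (hs1.mul hs2))).sub
    (hk _ _ (he2.mul (hs1.mul (o.sub hs1))))).add
    (hk _ _ (he4.mul (hs1.mul (o.sub hs1))))).sub
    (hk _ _ (he1.mul (hs2.mul (o.sub hs2))))).sub
    (hk _ _ (he3.mul (hs2.mul (o.sub hs2)))))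

theorem Wf_bot (h : Step s η δ) (v0 v1 : ℂ) {t1 t2 : ℝ} (ht : t2 ≤ δ) :
    Wf s η v0 v1 t1 t2 = (((1 - s t1 : ℝ) : ℂ) * v0 + ((s t1 : ℝ) : ℂ) * v1) ^ 2 := by
  have hp := h.δ_pos
  have hl := h.δ_lt
  have h1 : s t2 = 0 := h.s_zero _ (by linarith)
  have h2 : η t2 = 1 := h.η_one _ ht
  have h3 : η (1 - t2) = 0 := h.η_zero _ (by linarith)
  unfold Wf bil
  rw [h1, h2, h3]
  push_cast
  ring

theorem Wf_top (h : Step s η δ) (v0 v1 : ℂ) {t1 t2 : ℝ} (ht : 1 - δ ≤ t2) :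
    Wf s η v0 v1 t1 t2 = (((1 - s t1 : ℝ) : ℂ) * (I * v1) + ((s t1 : ℝ) : ℂ) * (I * v0)) ^ 2 := by
  have hp := h.δ_pos
  have hl := h.δ_lt
  have h1 : s t2 = 1 := h.s_one _ (by linarith)
  have h2 : η t2 = 0 := h.η_zero _ (by linarith)
  have h3 : η (1 - t2) = 1 := h.η_one _ (by linarith)
  unfold Wf bil
  rw [h1, h2, h3]
  push_cast
  linear_combination (-((1 - (s t1 : ℂ)) * v1 + (s t1 : ℂ) * v0) ^ 2) * wfaIm2

theorem Wf_left (h : Step s η δ) (v0 v1 : ℂ) {t1 t2 : ℝ} (ht : t1 ≤ δ) :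
    Wf s η v0 v1 t1 t2 = (((1 - s t2 : ℝ) : ℂ) * v0 - ((s t2 : ℝ) : ℂ) * (I * v1)) ^ 2 := by
  have hp := h.δ_pos
  have hl := h.δ_lt
  have h1 : s t1 = 0 := h.s_zero _ (by linarith)
  have h2 : η t1 = 1 := h.η_one _ ht
  have h3 : η (1 - t1) = 0 := h.η_zero _ (by linarith)
  unfold Wf bil
  rw [h1, h2, h3]
  push_cast
  linear_combination (-((s t2 : ℂ) * v1 ^ 2)) * wfaIm2

theorem Wf_right (h : Step s η δ) (v0 v1 : ℂ) {t1 t2 : ℝ} (ht : 1 - δ ≤ t1) :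
    Wf s η v0 v1 t1 t2 = (((1 - s t2 : ℝ) : ℂ) * v1 + ((s t2 : ℝ) : ℂ) * (I * v0)) ^ 2 := by
  have hp := h.δ_pos
  have hl := h.δ_lt
  have h1 : s t1 = 1 := h.s_one _ (by linarith)
  have h2 : η t1 = 0 := h.η_zero _ (by linarith)
  have h3 : η (1 - t1) = 1 := h.η_one _ (by linarith)
  unfold Wf bil
  rw [h1, h2, h3]
  push_cast
  linear_combination (-((s t2 : ℂ) * v0 ^ 2)) * wfaIm2

theorem Alin_det {v0 v1 : ℂ} (hq : Quad v0 v1) : 0 < (Alin v0 v1).det := by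
  obtain ⟨h1, h2⟩ := hq
  have h3 : (Alin v0 v1).det
      = 4 * (((starRingEnd ℂ) v0 * v1).re * ((starRingEnd ℂ) v0 * v1).im) := by
    rw [wfaDet]
    simp [Alin, pow_two, Complex.mul_re, Complex.mul_im]
    ring
  rw [h3]
  have := mul_pos h1 h2
  linarith

theorem Wf_lin (h : Step s η δ) (v0 v1 : ℂ) {t1 t2 : ℝ} (h1 : |t1 - 1 / 2| < δ) (h2 : |t2 - 1 / 2| < δ) :
    Wf s η v0 v1 t1 t2 = Alin v0 v1 ⟨t1 - 1 / 2, t2 - 1 / 2⟩ := by
  have hp := h.δ_pos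
  have hl := h.δ_lt
  obtain ⟨a1, a2⟩ := abs_lt.1 h1
  obtain ⟨b1, b2⟩ := abs_lt.1 h2
  have e1 : s t1 = t1 := h.s_lin _ h1
  have e2 : s t2 = t2 := h.s_lin _ h2
  have e3 : η t2 = 0 := h.η_zero _ (by linarith)
  have e4 : η (1 - t2) = 0 := h.η_zero _ (by linarith)
  have e5 : η t1 = 0 := h.η_zero _ (by linarith)
  have e6 : η (1 - t1) = 0 := h.η_zero _ (by linarith)
  unfold Wf bil Alin
  rw [e1, e2, e3, e4, e5, e6]
  simp only [_root_.add_apply, ContinuousLinearMap.smulRight_apply, Complex.reCLM_apply,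
    Complex.imCLM_apply, Complex.real_smul]
  push_cast
  ring

end Pool.Agent.Helper42.SA
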